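import Mathlib

set_option autoImplicit false

namespace Pool.Agent.BCMRT

/-- The `2 n` nodes present after `n` steps.  The node `(i, t)` is the one of type `t`
(the two types are the two Booleans) that arrives at time `i + 1`. -/
abbrev Node (n : ℕ) := Fin n × Bool

/-- Conditional probability, in BCMRT(q), that the node `c` chooses the node `d` as its parent.
If `c = (i, t)` with `i ≠ 0`, then exactly `i` nodes of each type are present when `c` arrives;
`c` chooses its own type with probability `1 - q`, the other type with probability `q`, and then a
uniform node of the chosen type.  The two nodes of the root pair have no parent; by convention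
they point to themselves. -/
noncomputable def parentProb (q : ℝ) {n : ℕ} (c d : Node n) : ℝ :=
  if c.1.val = 0 then (if d = c then 1 else 0)
  else if d.1 < c.1 then (if d.2 = c.2 then (1 - q) * (1 / c.1.val) else q * (1 / c.1.val))
  else 0

/-- Probability of the parent function `p`: all choices are independent. -/
noncomputable def weight (q : ℝ) {n : ℕ} (p : Node n → Node n) : ℝ :=
  ∏ c, parentProb q c (p c)

open Classical in
/-- Probability of the event `A` (a set of parent functions) in BCMRT(q) with `2 n` nodes. -/
noncomputable def prob (q : ℝ) (n : ℕ) (A : Set (Node n → Node n)) : ℝ :=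
  ∑ p : Node n → Node n, if p ∈ A then weight q p else 0

/-- The tree: the two nodes of time `1` are joined (root edge), and every later node is joined to
its parent. -/
def tree {n : ℕ} (p : Node n → Node n) : SimpleGraph (Node n) :=
  SimpleGraph.fromRel fun u v => (u.1.val = 0 ∧ v.1.val = 0) ∨ (u.1.val ≠ 0 ∧ p u = v)

/-- The root edge. -/
def rootEdge (n : ℕ) : Sym2 (Node (n + 1)) := s((0, true), (0, false))

end Pool.Agent.BCMRT
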