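import Mathlib
import Pool.Agent.MP_e7e4ab_pr.Defs

set_option autoImplicit false

open Finset

namespace Pool.Agent.BCMRT

/-- epoch of a time. -/
def ep (i : ℕ) : ℕ := Nat.log 16 i

/-- deterministic block boundaries. -/
def grid (i : ℕ) : Prop := 2 ^ ep i ∣ i

instance (i : ℕ) : Decidable (grid i) := by unfold grid; infer_instance

/-- start of the current block just before time `i`, given the kinds. -/
def gam (k : ℕ → ℕ) : ℕ → ℕ
  | 0 => 0
  | i + 1 => if grid (i + 1) ∨ k i ≠ 0 then i + 1 else gam k i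

lemma gam_le (k : ℕ → ℕ) (i : ℕ) : gam k i ≤ i := by
  induction i with
  | zero => simp [gam]
  | succ i ih =>
    unfold gam
    split_ifs
    · exact le_rfl
    · omega

lemma gam_succ (k : ℕ → ℕ) (i : ℕ) : gam k (i + 1) = i + 1 ∨
    (gam k (i + 1) = gam k i ∧ k i = 0 ∧ ¬ grid (i + 1)) := by
  by_cases h : grid (i + 1) ∨ k i ≠ 0
  · left; simp only [gam, if_pos h]
  · right
    push Not at h
    refine ⟨?_, h.2, h.1⟩
    have : ¬ (grid (i + 1) ∨ k i ≠ 0) := by
      push Not; exact h
    simp only [gam, if_neg this]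

lemma gam_mono_succ (k : ℕ → ℕ) (i : ℕ) : gam k i ≤ gam k (i + 1) := by
  rcases gam_succ k i with h | h
  · rw [h]; have := gam_le k i; omega
  · rw [h.1]

lemma gam_mono (k : ℕ → ℕ) : Monotone (gam k) := monotone_nat_of_le_succ (gam_mono_succ k)

lemma gam_const (k : ℕ → ℕ) (i j : ℕ) (h1 : gam k i ≤ j) (h2 : j ≤ i) :
    gam k j = gam k i := by
  induction i with
  | zero =>
    have : j = 0 := by omega
    rw [this]
  | succ i ih =>
    rcases gam_succ k i with h | h
    · have : j = i + 1 := by omega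
      rw [this]
    · rcases Nat.lt_or_ge i j with h3 | h3
      · have : j = i + 1 := by omega
        rw [this]
      · rw [h.1]
        exact ih (by omega) h3

lemma gam_special (k : ℕ → ℕ) (i : ℕ) (h : k i ≠ 0) : gam k (i + 1) = i + 1 := by
  have : grid (i + 1) ∨ k i ≠ 0 := Or.inr h
  simp only [gam, if_pos this]

lemma gam_special_lt (k : ℕ → ℕ) (i j : ℕ) (h : k i ≠ 0) (hij : i < j) : i < gam k j := by
  have h1 := gam_special k i h
  have h2 := gam_mono k (show i + 1 ≤ j by omega)
  omega

/-- start of the block containing `j`. -/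
def bs (k : ℕ → ℕ) (j : ℕ) : ℕ := if k j ≠ 0 then j else gam k j

lemma bs_le (k : ℕ → ℕ) (j : ℕ) : bs k j ≤ j := by
  unfold bs; split_ifs
  · exact le_rfl
  · exact gam_le k j

lemma gam_le_bs (k : ℕ → ℕ) (j : ℕ) : gam k j ≤ bs k j := by
  unfold bs; split_ifs
  · exact gam_le k j
  · exact le_rfl

lemma bs_lt_gam (k : ℕ → ℕ) (i j : ℕ) : bs k j < gam k i ↔ j < gam k i := by
  constructor
  · intro h
    by_contra hn
    push Not at hn
    -- gam k i ≤ j
    rcases le_total i j with h1 | h1
    · have := gam_mono k h1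
      have := gam_le_bs k j
      omega
    · have := gam_const k i j hn h1
      have := gam_le_bs k j
      omega
  · intro h
    exact lt_of_le_of_lt (bs_le k j) h

lemma bs_lt_special (k : ℕ → ℕ) (i j : ℕ) (h : k i ≠ 0) : bs k j < i ↔ j < i := by
  constructor
  · intro h1
    by_contra hn
    push Not at hn
    rcases hn.eq_or_lt with h2 | h2
    · subst h2
      unfold bs at h1
      rw [if_pos h] at h1
      omega
    · have := gam_special_lt k i j h h2
      have := gam_le_bs k j
      omega
  · intro h1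
    exact lt_of_le_of_lt (bs_le k j) h1

lemma bs_eq_of_special (k : ℕ → ℕ) (i j : ℕ) (h : k i ≠ 0) (hj : bs k j = bs k i) : j = i := by
  have h1 : bs k i = i := by unfold bs; rw [if_pos h]
  rw [h1] at hj
  have h2 : i ≤ j := hj ▸ bs_le k j
  rcases h2.eq_or_lt with h3 | h3
  · exact h3.symm
  · have := gam_special_lt k i j h h3
    have := gam_le_bs k j
    omega

lemma hidden_of_bs_eq (k : ℕ → ℕ) (i j : ℕ) (h : k i = 0) (hj : bs k j = bs k i) :
    k j = 0 ∧ gam k j = gam k i := by
  have h1 : k j = 0 := by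
    by_contra hn
    have := bs_eq_of_special k j i hn hj.symm
    subst this
    exact hn h
  refine ⟨h1, ?_⟩
  unfold bs at hj
  simpa [h, h1] using hj

/-- number of nodes at time `i` whose parent has time at least `g`. -/
noncomputable def cnt {n : ℕ} (p : Node n → Node n) (i g : ℕ) : ℕ :=
  if h : i < n then #{t : Bool | g ≤ (p (⟨i, h⟩, t)).1.val} else 0

/-- start of the current block just before time `i`, for the parent function `p`. -/
noncomputable def gamP {n : ℕ} (p : Node n → Node n) : ℕ → ℕ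
  | 0 => 0
  | i + 1 => if grid (i + 1) ∨ cnt p i (gamP p i) ≠ 0 then i + 1 else gamP p i

/-- kinds of the times of `p`. -/
noncomputable def kk {n : ℕ} (p : Node n → Node n) (i : ℕ) : ℕ := cnt p i (gamP p i)

lemma gamP_eq {n : ℕ} (p : Node n → Node n) (i : ℕ) : gamP p i = gam (kk p) i := by
  induction i with
  | zero => rfl
  | succ i ih => simp only [gamP, gam, kk, ih]

lemma kk_eq_iff {n : ℕ} (p : Node n → Node n) (k : ℕ → ℕ) :
    kk p = k ↔ ∀ i, cnt p i (gam k i) = k i := by
  constructor
  · rintro rfl i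
    rw [← gamP_eq]; rfl
  · intro h
    have hg : ∀ i, gamP p i = gam k i := by
      intro i
      induction i with
      | zero => rfl
      | succ i ih => simp only [gamP, gam, ih, h]
    funext i
    unfold kk
    rw [hg, h]

/-- validity of a parent function. -/
def Valid {n : ℕ} (p : Node n → Node n) : Prop :=
  ∀ c : Node n, (c.1.val = 0 → p c = c) ∧ (c.1.val ≠ 0 → (p c).1 < c.1)

noncomputable instance {n : ℕ} : DecidablePred (Valid (n := n)) := Classical.decPred _

/-- allowed pairs of parents at time `i`. -/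
noncomputable def Al (k : ℕ → ℕ) {n : ℕ} (i : Fin n) : Finset (Bool → Node n) :=
  {a | (i.val = 0 → ∀ t, a t = (i, t)) ∧ (i.val ≠ 0 → ∀ t, (a t).1 < i) ∧
    #{t : Bool | gam k i.val ≤ (a t).1.val} = k i.val}

open Classical in
/-- the class of parent functions with kinds `k`. -/
noncomputable def Par (n : ℕ) (k : ℕ → ℕ) : Finset (Node n → Node n) :=
  {p | Valid p ∧ kk p = k}

lemma mem_Par_iff {n : ℕ} (k : ℕ → ℕ) (hk : ∀ i, n ≤ i → k i = 0) (p : Node n → Node n) :
    p ∈ Par n k ↔ ∀ i : Fin n, (fun t => p (i, t)) ∈ Al k i := by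
  simp only [Par, Al, Finset.mem_filter, Finset.mem_univ, true_and, kk_eq_iff]
  constructor
  · rintro ⟨h1, h2⟩ i
    refine ⟨fun hi t => (h1 (i, t)).1 hi, fun hi t => (h1 (i, t)).2 hi, ?_⟩
    have := h2 i.val
    unfold cnt at this
    rw [dif_pos i.2] at this
    exact this
  · intro h
    refine ⟨fun c => ⟨fun hc => (h c.1).1 hc c.2, fun hc => (h c.1).2.1 hc c.2⟩, fun i => ?_⟩
    unfold cnt
    split_ifs with hi
    · exact (h ⟨i, hi⟩).2.2
    · exact (hk i (by omega)).symm

/-- sign of a Boolean. -/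
def sg (b : Bool) : ℝ := if b then 1 else -1

@[simp] lemma sg_true : sg true = 1 := rfl
@[simp] lemma sg_false : sg false = -1 := by simp [sg]

lemma sg_or (b : Bool) : sg b = 1 ∨ sg b = -1 := by cases b <;> simp

lemma sg_sq (b : Bool) : sg b * sg b = 1 := by cases b <;> simp

open Classical in
/-- sign vectors balanced on every block. -/
noncomputable def TT (n : ℕ) (k : ℕ → ℕ) : Finset (Node n → Bool) :=
  {τ | ∀ b : ℕ, ∑ c : Node n with bs k c.1.val = b, sg (τ c) = 0}

lemma mem_TT {n : ℕ} (k : ℕ → ℕ) (τ : Node n → Bool) :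
    τ ∈ TT n k ↔ ∀ b : ℕ, ∑ c : Node n with bs k c.1.val = b, sg (τ c) = 0 := by
  simp [TT]

lemma filter_fst {n : ℕ} (P : Fin n → Prop) [DecidablePred P] :
    (univ.filter fun c : Node n => P c.1) = (univ.filter P) ×ˢ (univ : Finset Bool) := by
  ext c; simp

lemma sum_filter_fst {n : ℕ} (P : Fin n → Prop) [DecidablePred P] (f : Node n → ℝ) :
    ∑ c ∈ univ.filter (fun c : Node n => P c.1), f c =
      ∑ i ∈ univ.filter P, (f (i, true) + f (i, false)) := by
  rw [filter_fst, Finset.sum_product]
  refine Finset.sum_congr rfl fun i _ => ?_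
  simp

lemma prod_filter_fst {n : ℕ} (P : Fin n → Prop) [DecidablePred P] (f : Node n → ℝ) :
    ∏ c ∈ univ.filter (fun c : Node n => P c.1), f c =
      ∏ i ∈ univ.filter P, (f (i, true) * f (i, false)) := by
  rw [filter_fst, Finset.prod_product]
  refine Finset.prod_congr rfl fun i _ => ?_
  simp

lemma snd_mem_TT (n : ℕ) (k : ℕ → ℕ) : (fun c : Node n => c.2) ∈ TT n k := by
  rw [mem_TT]
  intro b
  rw [sum_filter_fst (fun i : Fin n => bs k i.val = b) (fun c : Node n => sg c.2)]
  simp

/-- balanced on every union of blocks. -/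
lemma TT_sum_union {n : ℕ} (k : ℕ → ℕ) (τ : Node n → Bool) (hτ : τ ∈ TT n k) (Q : ℕ → Prop)
    [DecidablePred Q] :
    ∑ c : Node n with Q (bs k c.1.val), sg (τ c) = 0 := by
  rw [mem_TT] at hτ
  have h := Finset.sum_fiberwise_of_maps_to (s := univ.filter fun c : Node n => Q (bs k c.1.val))
    (t := (univ.filter fun c : Node n => Q (bs k c.1.val)).image fun c => bs k c.1.val)
    (g := fun c => bs k c.1.val) (fun c hc => Finset.mem_image_of_mem _ hc)
    (fun c => sg (τ c))
  rw [← h]
  refine Finset.sum_eq_zero fun b hb => ?_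
  obtain ⟨c0, hc0, rfl⟩ := Finset.mem_image.1 hb
  rw [← hτ (bs k c0.1.val)]
  refine Finset.sum_congr ?_ fun _ _ => rfl
  ext c
  simp only [Finset.mem_filter, Finset.mem_univ, true_and]
  constructor
  · exact fun h => h.2
  · intro h
    refine ⟨?_, h⟩
    rw [h]
    simpa using hc0

lemma TT_sum_gam {n : ℕ} (k : ℕ → ℕ) (τ : Node n → Bool) (hτ : τ ∈ TT n k) (i : ℕ) :
    ∑ c : Node n with c.1.val < gam k i, sg (τ c) = 0 := by
  rw [← TT_sum_union k τ hτ (fun b => b < gam k i)]
  refine Finset.sum_congr ?_ fun _ _ => rfl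
  ext c
  simp [bs_lt_gam]

lemma TT_sum_special {n : ℕ} (k : ℕ → ℕ) (τ : Node n → Bool) (hτ : τ ∈ TT n k) (i : ℕ)
    (hi : k i ≠ 0) :
    ∑ c : Node n with c.1.val < i, sg (τ c) = 0 := by
  rw [← TT_sum_union k τ hτ (fun b => b < i)]
  refine Finset.sum_congr ?_ fun _ _ => rfl
  ext c
  simp [bs_lt_special k i _ hi]

/-- at a special time the two nodes have opposite signs. -/
lemma TT_special {n : ℕ} (k : ℕ → ℕ) (τ : Node n → Bool) (hτ : τ ∈ TT n k) (i : Fin n)
    (hi : k i.val ≠ 0) : sg (τ (i, true)) + sg (τ (i, false)) = 0 := by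
  rw [mem_TT] at hτ
  rw [← hτ (bs k i.val), sum_filter_fst (fun j : Fin n => bs k j.val = bs k i.val)
    (fun c : Node n => sg (τ c))]
  have : (univ.filter fun j : Fin n => bs k j.val = bs k i.val) = {i} := by
    ext j
    simp only [Finset.mem_filter, Finset.mem_univ, true_and, Finset.mem_singleton]
    constructor
    · intro h
      exact Fin.ext (bs_eq_of_special k i.val j.val hi h)
    · rintro rfl; rfl
  rw [this]
  simp

/-- every balanced sign vector is a block-preserving relabelling of the type vector. -/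
lemma exists_perm_of_TT {n : ℕ} (k : ℕ → ℕ) (τ : Node n → Bool) (hτ : τ ∈ TT n k) :
    ∃ π : Equiv.Perm (Node n), (∀ c, bs k (π c).1.val = bs k c.1.val) ∧ ∀ c, (π c).2 = τ c := by
  classical
  have h0 := snd_mem_TT n k
  rw [mem_TT] at hτ h0
  have hcount : ∀ σ : Node n → Bool, (∀ b : ℕ, ∑ c : Node n with bs k c.1.val = b, sg (σ c) = 0) →
      ∀ (b : ℕ) (s : Bool), 2 * Fintype.card {c : Node n // (bs k c.1.val, σ c) = (b, s)} =
        #{c : Node n | bs k c.1.val = b} := by
    intro σ hσ b s
    have h1 : ∑ c : Node n with bs k c.1.val = b, sg (σ c) =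
        (#{c : Node n | bs k c.1.val = b ∧ σ c = true} : ℝ) -
        (#{c : Node n | bs k c.1.val = b ∧ σ c = false} : ℝ) := by
      rw [← Finset.sum_filter_add_sum_filter_not
        (univ.filter fun c : Node n => bs k c.1.val = b) (fun c => σ c = true)]
      rw [Finset.filter_filter, Finset.filter_filter]
      rw [Finset.sum_congr rfl (g := fun _ => (1 : ℝ))
        (fun c hc => by rw [(Finset.mem_filter.1 hc).2.2]; rfl)]
      rw [Finset.sum_congr (s₁ := univ.filter fun c : Node n => bs k c.1.val = b ∧ ¬ σ c = true)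
        rfl (g := fun _ => (-1 : ℝ))
        (fun c hc => by
          have := (Finset.mem_filter.1 hc).2.2
          simp only [Bool.not_eq_true] at this
          rw [this]; simp)]
      simp [sub_eq_add_neg]
    rw [hσ b] at h1
    have h2 : #{c : Node n | bs k c.1.val = b ∧ σ c = true} =
        #{c : Node n | bs k c.1.val = b ∧ σ c = false} := by
      have : (#{c : Node n | bs k c.1.val = b ∧ σ c = true} : ℝ) =
        (#{c : Node n | bs k c.1.val = b ∧ σ c = false} : ℝ) := by linarith
      exact_mod_cast this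
    have h3 : #{c : Node n | bs k c.1.val = b ∧ σ c = true} +
        #{c : Node n | bs k c.1.val = b ∧ σ c = false} = #{c : Node n | bs k c.1.val = b} := by
      rw [← Finset.card_filter_add_card_filter_not (s := univ.filter
        fun c : Node n => bs k c.1.val = b) (fun c => σ c = true)]
      rw [Finset.filter_filter, Finset.filter_filter]
      simp
    rw [Fintype.card_subtype]
    have h4 : #{c : Node n | (bs k c.1.val, σ c) = (b, s)} =
        #{c : Node n | bs k c.1.val = b ∧ σ c = s} := by
      congr 1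
      ext c
      simp
    rw [h4]
    cases s <;> omega
  have e : ∀ x : ℕ × Bool, {c : Node n // (bs k c.1.val, τ c) = x} ≃
      {c : Node n // (bs k c.1.val, c.2) = x} := by
    rintro ⟨b, s⟩
    refine Fintype.equivOfCardEq ?_
    have h1 := hcount τ hτ b s
    have h2 := hcount (fun c => c.2) h0 b s
    omega
  let π : Equiv.Perm (Node n) := Equiv.ofFiberEquiv e
  have hπ : ∀ c : Node n, (bs k (π c).1.val, (π c).2) = (bs k c.1.val, τ c) := fun c =>
    Equiv.ofFiberEquiv_map e c
  refine ⟨π, fun c => ?_, fun c => ?_⟩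
  · exact (Prod.ext_iff.1 (hπ c)).1
  · exact (Prod.ext_iff.1 (hπ c)).2

end Pool.Agent.BCMRT
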