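import Mathlib

set_option autoImplicit false

open Finset

namespace Pool.Agent.BCMRT

section KL

open Polynomial in
/-- coefficients of `(1 - X^2)^l`. -/
noncomputable def cf (l k : ℕ) : ℝ := (((1 : ℝ[X]) - X ^ 2) ^ l).coeff k

open Polynomial in
lemma cf_expand (l : ℕ) : ((1 : ℝ[X]) - X ^ 2) ^ l =
    ∑ i ∈ range (l + 1), C ((-1 : ℝ) ^ i * (l.choose i : ℝ)) * X ^ (2 * i) := by
  have h : ((1 : ℝ[X]) - X ^ 2) = (-X ^ 2) + 1 := by ring
  rw [h, add_pow]
  refine Finset.sum_congr rfl fun i _ => ?_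
  simp only [one_pow, mul_one, map_mul, map_pow, map_neg, map_one, map_natCast]
  rw [neg_pow, ← pow_mul]
  ring

lemma cf_even (l i : ℕ) (hi : i ≤ l) : cf l (2 * i) = (-1) ^ i * (l.choose i : ℝ) := by
  unfold cf
  rw [cf_expand]
  simp only [Polynomial.finsetSum_coeff, Polynomial.coeff_C_mul, Polynomial.coeff_X_pow]
  rw [Finset.sum_eq_single i]
  · simp
  · intro b _ hb
    have : ¬ (2 * i = 2 * b) := by omega
    simp [this]
  · intro h
    exact absurd (Finset.mem_range.2 (by omega)) h

lemma cf_odd (l k : ℕ) (hk : ¬ Even k) : cf l k = 0 := by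
  unfold cf
  rw [cf_expand]
  simp only [Polynomial.finsetSum_coeff, Polynomial.coeff_C_mul, Polynomial.coeff_X_pow]
  refine Finset.sum_eq_zero fun b _ => ?_
  have : ¬ (k = 2 * b) := by
    rintro rfl
    exact hk (even_two_mul b)
  simp [this]

lemma choose_sq_le (l i : ℕ) : (l.choose i) ^ 2 ≤ (2 * l).choose (2 * i) := by
  have h := Nat.add_choose_eq l l (2 * i)
  rw [← two_mul] at h
  rw [h, sq]
  have hmem : (i, i) ∈ antidiagonal (2 * i) := by
    simp [two_mul]
  exact Finset.single_le_sum (f := fun ij : ℕ × ℕ => l.choose ij.1 * l.choose ij.2)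
    (fun _ _ => Nat.zero_le _) hmem

/-- the key series bound. -/
lemma series_bound (l : ℕ) (z : ℝ) (hz : z ^ 2 < 1) :
    ∑ k ∈ range (2 * l + 1), z ^ k * (cf l k ^ 2 / ((2 * l).choose k : ℝ)) ≤ 1 / (1 - z ^ 2) := by
  have h1 : ∀ k ∈ range (2 * l + 1), z ^ k * (cf l k ^ 2 / ((2 * l).choose k : ℝ)) ≤
      if Even k then z ^ k else 0 := by
    intro k hk
    by_cases he : Even k
    · rw [if_pos he]
      obtain ⟨i, rfl⟩ := he
      have hi : i ≤ l := by
        have := Finset.mem_range.1 hk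
        omega
      have hz0 : 0 ≤ z ^ (i + i) := by
        rw [← two_mul, pow_mul]
        positivity
      have hc : cf l (i + i) ^ 2 / ((2 * l).choose (i + i) : ℝ) ≤ 1 := by
        have hpos : (0 : ℝ) < ((2 * l).choose (i + i) : ℝ) := by
          exact_mod_cast Nat.choose_pos (by omega)
        rw [div_le_one hpos, ← two_mul, cf_even l i hi, mul_pow, ← pow_mul, mul_comm i 2, pow_mul]
        simp only [even_two, Even.neg_pow, one_pow, one_mul]
        have := choose_sq_le l i
        exact_mod_cast this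
      calc z ^ (i + i) * (cf l (i + i) ^ 2 / ((2 * l).choose (i + i) : ℝ))
          ≤ z ^ (i + i) * 1 := mul_le_mul_of_nonneg_left hc hz0
        _ = z ^ (i + i) := mul_one _
    · rw [if_neg he, cf_odd l k he]
      simp
  refine (Finset.sum_le_sum h1).trans ?_
  have h2 : ∀ l : ℕ, (∑ k ∈ range (2 * l + 1), if Even k then z ^ k else 0) * (1 - z ^ 2) =
      1 - z ^ (2 * l + 2) := by
    intro l
    induction l with
    | zero => simp
    | succ l ih =>
      have e1 : 2 * (l + 1) + 1 = (2 * l + 1) + 1 + 1 := by ring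
      rw [e1, Finset.sum_range_succ, Finset.sum_range_succ, add_mul, add_mul, ih]
      have o1 : ¬ Even (2 * l + 1) := by
        simp
      have o2 : Even (2 * l + 1 + 1) := by
        rw [show 2 * l + 1 + 1 = 2 * (l + 1) by ring]
        exact even_two_mul _
      rw [if_neg o1, if_pos o2]
      ring
  rw [le_div_iff₀ (by linarith), h2]
  have : 0 ≤ z ^ (2 * l + 2) := by
    rw [show 2 * l + 2 = 2 * (l + 1) by ring, pow_mul]
    positivity
  linarith

variable {β : Type*} [Fintype β] [DecidableEq β]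

/-- elementary symmetric sum -/
noncomputable def es (u : β → ℝ) (k : ℕ) : ℝ :=
  ∑ I ∈ powersetCard k (univ : Finset β), ∏ c ∈ I, u c

open Polynomial in
lemma prod_poly (u : β → ℝ) : ∏ c, ((1 : ℝ[X]) + C (u c) * X) =
    ∑ k ∈ range (Fintype.card β + 1), C (es u k) * X ^ k := by
  rw [Finset.prod_one_add, Finset.sum_powerset]
  refine Finset.sum_congr (by simp) fun k _ => ?_
  unfold es
  rw [map_sum, Finset.sum_mul]
  refine Finset.sum_congr rfl fun I hI => ?_
  rw [Finset.prod_mul_distrib, Finset.prod_const, map_prod, (Finset.mem_powersetCard.1 hI).2]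

lemma card_pos_neg {l : ℕ} (hcard : Fintype.card β = 2 * l) (u : β → ℝ)
    (hu : ∀ c, u c = 1 ∨ u c = -1) (hsum : ∑ c, u c = 0) :
    #{c : β | u c = 1} = l ∧ #{c : β | ¬ u c = 1} = l := by
  have h1 : #{c : β | u c = 1} + #{c : β | ¬ u c = 1} = 2 * l := by
    rw [← hcard, Finset.card_filter_add_card_filter_not]
    rfl
  have h2 : ∑ c, u c = (#{c : β | u c = 1} : ℝ) - (#{c : β | ¬ u c = 1} : ℝ) := by
    rw [← Finset.sum_filter_add_sum_filter_not univ (fun c => u c = 1) u]
    have e1 : ∑ c ∈ univ.filter (fun c => u c = 1), u c = (#{c : β | u c = 1} : ℝ) := by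
      rw [Finset.sum_congr rfl (g := fun _ => (1 : ℝ))
        (fun c hc => (Finset.mem_filter.1 hc).2)]
      simp
    have e2 : ∑ c ∈ univ.filter (fun c => ¬ u c = 1), u c = -(#{c : β | ¬ u c = 1} : ℝ) := by
      rw [Finset.sum_congr rfl (g := fun _ => (-1 : ℝ))
        (fun c hc => (hu c).resolve_left (Finset.mem_filter.1 hc).2)]
      simp
    rw [e1, e2]
    ring
  rw [hsum] at h2
  have h3 : #{c : β | u c = 1} = #{c : β | ¬ u c = 1} := by
    have : (#{c : β | u c = 1} : ℝ) = (#{c : β | ¬ u c = 1} : ℝ) := by linarith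
    exact_mod_cast this
  omega

open Polynomial in
lemma es_eq_cf {l : ℕ} (hcard : Fintype.card β = 2 * l) (u : β → ℝ)
    (hu : ∀ c, u c = 1 ∨ u c = -1) (hsum : ∑ c, u c = 0) (k : ℕ) (hk : k ∈ range (2 * l + 1)) :
    es u k = cf l k := by
  obtain ⟨h1, h2⟩ := card_pos_neg hcard u hu hsum
  have hprod : ∏ c, ((1 : ℝ[X]) + C (u c) * X) = ((1 : ℝ[X]) - X ^ 2) ^ l := by
    rw [← Finset.prod_filter_mul_prod_filter_not univ (fun c => u c = 1)]
    have e1 : ∏ c ∈ univ.filter (fun c => u c = 1), ((1 : ℝ[X]) + C (u c) * X) = (1 + X) ^ l := by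
      rw [Finset.prod_congr rfl (g := fun _ => ((1 : ℝ[X]) + X))
        (fun c hc => by rw [(Finset.mem_filter.1 hc).2]; simp)]
      rw [Finset.prod_const, h1]
    have e2 : ∏ c ∈ univ.filter (fun c => ¬ u c = 1), ((1 : ℝ[X]) + C (u c) * X) =
        (1 - X) ^ l := by
      rw [Finset.prod_congr rfl (g := fun _ => ((1 : ℝ[X]) - X))
        (fun c hc => by
          rw [(hu c).resolve_left (Finset.mem_filter.1 hc).2]; simp; ring)]
      rw [Finset.prod_const, h2]
    rw [e1, e2, ← mul_pow]
    congr 1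
    ring
  have h3 := prod_poly u
  rw [hprod] at h3
  unfold cf
  rw [h3]
  simp only [Polynomial.finsetSum_coeff, Polynomial.coeff_C_mul, Polynomial.coeff_X_pow]
  rw [Finset.sum_eq_single k]
  · simp
  · intro b _ hb
    simp [Ne.symm hb]
  · intro h
    rw [hcard] at h
    exact absurd hk h

/-- two finsets of the same size are related by a permutation. -/
lemma exists_perm_image (I J : Finset β) (h : #I = #J) :
    ∃ ψ : Equiv.Perm β, ∀ c, c ∈ I ↔ ψ c ∈ J := by
  have e : {x // x ∈ I} ≃ {x // x ∈ J} := Finset.equivOfCardEq h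
  refine ⟨e.extendSubtype, fun c => ⟨fun hc => e.extendSubtype_mem c hc, fun hc => ?_⟩⟩
  by_contra hn
  exact e.extendSubtype_not_mem c hn hc

lemma sum_perm_prod (u : β → ℝ) (k : ℕ) (I : Finset β) (hI : #I = k) :
    ((Fintype.card β).choose k : ℝ) * ∑ σ : Equiv.Perm β, ∏ c ∈ I, u (σ c) =
      ((Fintype.card β).factorial : ℝ) * es u k := by
  have key : ∀ J ∈ powersetCard k (univ : Finset β),
      ∑ σ : Equiv.Perm β, ∏ c ∈ J, u (σ c) = ∑ σ : Equiv.Perm β, ∏ c ∈ I, u (σ c) := by
    intro J hJ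
    have hJ' := (Finset.mem_powersetCard.1 hJ).2
    obtain ⟨ψ, hψ⟩ := exists_perm_image I J (hI.trans hJ'.symm)
    rw [← Equiv.sum_comp (Equiv.mulRight ψ)
      (fun σ : Equiv.Perm β => ∏ c ∈ I, u (σ c))]
    refine Finset.sum_congr rfl fun σ _ => ?_
    symm
    refine Finset.prod_bij (fun c _ => ψ c) (fun c hc => (hψ c).1 hc)
      (fun a _ b _ hab => ψ.injective hab) (fun b hb => ⟨ψ.symm b, (hψ _).2 (by simpa using hb),
        by simp⟩) (fun c _ => ?_)
    simp
  have h1 : ∑ J ∈ powersetCard k (univ : Finset β), ∑ σ : Equiv.Perm β, ∏ c ∈ J, u (σ c) =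
      ((Fintype.card β).choose k : ℝ) * ∑ σ : Equiv.Perm β, ∏ c ∈ I, u (σ c) := by
    rw [Finset.sum_congr rfl key, Finset.sum_const, Finset.card_powersetCard]
    simp
  rw [← h1, Finset.sum_comm]
  have h2 : ∀ σ : Equiv.Perm β,
      ∑ J ∈ powersetCard k (univ : Finset β), ∏ c ∈ J, u (σ c) = es u k := by
    intro σ
    unfold es
    refine Finset.sum_bij (fun J _ => J.map σ.toEmbedding) ?_ ?_ ?_ ?_
    · intro J hJ
      simp only [Finset.mem_powersetCard_univ, Finset.card_map] at hJ ⊢
      exact hJ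
    · intro a _ b _ hab
      exact Finset.map_injective _ hab
    · intro b hb
      refine ⟨b.map σ.symm.toEmbedding, ?_, ?_⟩
      · simp only [Finset.mem_powersetCard_univ, Finset.card_map] at hb ⊢
        exact hb
      · ext x
        simp
    · intro J _
      rw [Finset.prod_map]
      rfl
  rw [Finset.sum_congr rfl (fun σ _ => h2 σ), Finset.sum_const, Finset.card_univ,
    Fintype.card_perm]
  simp

/-- the key lemma: averaging over permutations. -/
lemma perm_avg_prod {l : ℕ} (hcard : Fintype.card β = 2 * l) (u v : β → ℝ)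
    (hu : ∀ c, u c = 1 ∨ u c = -1) (hv : ∀ c, v c = 1 ∨ v c = -1)
    (hus : ∑ c, u c = 0) (hvs : ∑ c, v c = 0) (z : ℝ) (hz : z ^ 2 < 1) :
    ∑ σ : Equiv.Perm β, ∏ c, (1 + z * (u (σ c) * v c)) ≤
      ((2 * l).factorial : ℝ) * (1 / (1 - z ^ 2)) := by
  have h1 : ∑ σ : Equiv.Perm β, ∏ c, (1 + z * (u (σ c) * v c)) =
      ((2 * l).factorial : ℝ) *
        ∑ k ∈ range (2 * l + 1), z ^ k * (cf l k ^ 2 / ((2 * l).choose k : ℝ)) := by
    calc ∑ σ : Equiv.Perm β, ∏ c, (1 + z * (u (σ c) * v c))
        = ∑ σ : Equiv.Perm β, ∑ k ∈ range (2 * l + 1), ∑ I ∈ powersetCard k (univ : Finset β),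
            ∏ c ∈ I, (z * (u (σ c) * v c)) := by
          refine Finset.sum_congr rfl fun σ _ => ?_
          rw [Finset.prod_one_add, Finset.sum_powerset, Finset.card_univ, hcard]
      _ = ∑ k ∈ range (2 * l + 1), ∑ I ∈ powersetCard k (univ : Finset β),
            z ^ k * (∏ c ∈ I, v c) * ∑ σ : Equiv.Perm β, ∏ c ∈ I, u (σ c) := by
          rw [Finset.sum_comm]
          refine Finset.sum_congr rfl fun k _ => ?_
          rw [Finset.sum_comm]
          refine Finset.sum_congr rfl fun I hI => ?_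
          rw [Finset.mul_sum]
          refine Finset.sum_congr rfl fun σ _ => ?_
          rw [Finset.prod_mul_distrib, Finset.prod_mul_distrib, Finset.prod_const,
            (Finset.mem_powersetCard.1 hI).2]
          ring
      _ = ∑ k ∈ range (2 * l + 1), ((2 * l).factorial : ℝ) *
            (z ^ k * (cf l k ^ 2 / ((2 * l).choose k : ℝ))) := by
          refine Finset.sum_congr rfl fun k hk => ?_
          have hpos : (0 : ℝ) < ((2 * l).choose k : ℝ) := by
            have := Finset.mem_range.1 hk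
            exact_mod_cast Nat.choose_pos (by omega)
          have h2 : ∀ I ∈ powersetCard k (univ : Finset β),
              z ^ k * (∏ c ∈ I, v c) * ∑ σ : Equiv.Perm β, ∏ c ∈ I, u (σ c) =
              (∏ c ∈ I, v c) * (z ^ k * ((2 * l).factorial : ℝ) * cf l k /
                ((2 * l).choose k : ℝ)) := by
            intro I hI
            have h3 := sum_perm_prod u k I (Finset.mem_powersetCard.1 hI).2
            rw [hcard, es_eq_cf hcard u hu hus k hk] at h3
            have h4 : ∑ σ : Equiv.Perm β, ∏ c ∈ I, u (σ c) =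
                ((2 * l).factorial : ℝ) * cf l k / ((2 * l).choose k : ℝ) := by
              rw [eq_div_iff hpos.ne', mul_comm]
              exact h3
            rw [h4]
            ring
          rw [Finset.sum_congr rfl h2, ← Finset.sum_mul]
          have h5 : ∑ I ∈ powersetCard k (univ : Finset β), ∏ c ∈ I, v c = cf l k :=
            es_eq_cf hcard v hv hvs k hk
          rw [h5]
          field_simp
      _ = _ := by rw [Finset.mul_sum]
  rw [h1]
  exact mul_le_mul_of_nonneg_left (series_bound l z hz) (by positivity)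

end KL

end Pool.Agent.BCMRT
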