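import Mathlib
import Pool.Agent.MP_e7e4ab_pr.Perm

set_option autoImplicit false

open Finset MeasureTheory

namespace Pool.Agent.BCMRT

lemma sinh_le_mul_cosh {y : ℝ} (hy : 0 ≤ y) : Real.sinh y ≤ y * Real.cosh y := by
  have hmono : MonotoneOn (fun y : ℝ => y * Real.cosh y - Real.sinh y) (Set.Ici 0) := by
    refine monotoneOn_of_deriv_nonneg (convex_Ici 0) ?_ ?_ ?_
    · exact ((continuous_id.mul Real.continuous_cosh).sub Real.continuous_sinh).continuousOn
    · exact ((differentiable_id.mul Real.differentiable_cosh).sub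
        Real.differentiable_sinh).differentiableOn
    · intro x hx
      rw [interior_Ici, Set.mem_Ioi] at hx
      have hd : HasDerivAt (fun y : ℝ => y * Real.cosh y - Real.sinh y)
          (1 * Real.cosh x + x * Real.sinh x - Real.cosh x) x :=
        ((hasDerivAt_id x).mul (Real.hasDerivAt_cosh x)).sub (Real.hasDerivAt_sinh x)
      rw [hd.deriv]
      have := Real.sinh_nonneg_iff.2 hx.le
      have := mul_nonneg hx.le this
      linarith
  have := hmono (Set.mem_Ici.2 le_rfl) (Set.mem_Ici.2 hy) hy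
  simp at this
  linarith

lemma tanh_bounds {y : ℝ} (hy : 0 ≤ y) :
    Real.sinh y / Real.cosh y ≤ y ∧ y - y ^ 2 ≤ Real.sinh y / Real.cosh y := by
  have hc := Real.cosh_pos y
  constructor
  · rw [div_le_iff₀ hc]
    exact sinh_le_mul_cosh hy
  · rw [le_div_iff₀ hc]
    have h1 : y ≤ Real.sinh y := Real.self_le_sinh_iff.2 hy
    by_cases h : y ≤ 1
    · have h2 : Real.cosh y ≤ Real.exp (y ^ 2 / 2) := Real.cosh_le_exp_half_sq y
      -- cosh y ≤ exp (y^2/2), and (1 - y) * exp (y^2/2) ≤ 1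
      have h3 : (1 - y) * Real.exp (y ^ 2 / 2) ≤ 1 := by
        have h4 : 1 - y ≤ Real.exp (-y) := by
          have := Real.add_one_le_exp (-y)
          linarith
        calc (1 - y) * Real.exp (y ^ 2 / 2) ≤ Real.exp (-y) * Real.exp (y ^ 2 / 2) :=
              mul_le_mul_of_nonneg_right h4 (Real.exp_pos _).le
          _ = Real.exp (-y + y ^ 2 / 2) := (Real.exp_add _ _).symm
          _ ≤ 1 := by
              rw [Real.exp_le_one_iff]
              nlinarith
      have h5 : (1 - y) * Real.cosh y ≤ 1 :=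
        (mul_le_mul_of_nonneg_left h2 (by linarith)).trans h3
      calc (y - y ^ 2) * Real.cosh y = y * ((1 - y) * Real.cosh y) := by ring
        _ ≤ y * 1 := mul_le_mul_of_nonneg_left h5 hy
        _ ≤ Real.sinh y := by linarith
    · push Not at h
      have : (y - y ^ 2) * Real.cosh y ≤ 0 := by
        apply mul_nonpos_of_nonpos_of_nonneg
        · nlinarith
        · exact hc.le
      linarith

lemma abs_tanh_sub {y : ℝ} : |Real.sinh y / Real.cosh y - y| ≤ y ^ 2 := by
  rcases le_total 0 y with hy | hy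
  · obtain ⟨h1, h2⟩ := tanh_bounds hy
    rw [abs_le]
    constructor <;> nlinarith [sq_nonneg y]
  · obtain ⟨h1, h2⟩ := tanh_bounds (y := -y) (by linarith)
    rw [Real.sinh_neg, Real.cosh_neg, neg_div] at h1 h2
    rw [abs_le]
    constructor <;> nlinarith [sq_nonneg y]

lemma tilt_bound {x y : ℝ} (hx : |x| ≤ 1 / 2) :
    Real.cosh y + x * Real.sinh y ≤ Real.exp (x * y + y ^ 2) := by
  have hc := Real.cosh_pos y
  set T := Real.sinh y / Real.cosh y with hT
  have e1 : Real.cosh y + x * Real.sinh y = Real.cosh y * (x * T + 1) := by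
    rw [hT]
    field_simp
    ring
  have h1 : x * T + 1 ≤ Real.exp (x * T) := Real.add_one_le_exp _
  have h2 : x * T ≤ x * y + y ^ 2 / 2 := by
    have h3 : x * (T - y) ≤ |x| * |T - y| := by
      rw [← abs_mul]
      exact le_abs_self _
    have h4 : |x| * |T - y| ≤ (1 / 2) * y ^ 2 :=
      mul_le_mul hx abs_tanh_sub (abs_nonneg _) (by norm_num)
    nlinarith
  rw [e1]
  calc Real.cosh y * (x * T + 1) ≤ Real.cosh y * Real.exp (x * T) :=
        mul_le_mul_of_nonneg_left h1 hc.le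
    _ ≤ Real.exp (y ^ 2 / 2) * Real.exp (x * T) :=
        mul_le_mul_of_nonneg_right (Real.cosh_le_exp_half_sq y) (Real.exp_pos _).le
    _ = Real.exp (y ^ 2 / 2 + x * T) := (Real.exp_add _ _).symm
    _ ≤ Real.exp (x * y + y ^ 2) := by
        apply Real.exp_le_exp.2
        linarith

lemma gauss_eq (b c y : ℝ) (hb : 0 < b) :
    Real.exp (-b * y ^ 2 + c * y) =
      Real.exp (c ^ 2 / (4 * b)) * Real.exp (-b * (y - c / (2 * b)) ^ 2) := by
  rw [← Real.exp_add]
  congr 1
  field_simp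
  ring

lemma gauss_int {b : ℝ} (hb : 0 < b) (c : ℝ) :
    ∫ y : ℝ, Real.exp (-b * y ^ 2 + c * y) = √(Real.pi / b) * Real.exp (c ^ 2 / (4 * b)) := by
  simp_rw [gauss_eq b c _ hb]
  rw [integral_const_mul]
  rw [integral_sub_right_eq_self (fun y : ℝ => Real.exp (-b * y ^ 2)) (c / (2 * b))]
  rw [integral_gaussian, mul_comm]

lemma gauss_integrable {b : ℝ} (hb : 0 < b) (c : ℝ) :
    Integrable (fun y : ℝ => Real.exp (-b * y ^ 2 + c * y)) := by
  simp_rw [gauss_eq b c _ hb]
  exact ((integrable_exp_neg_mul_sq hb).comp_sub_right (c / (2 * b))).const_mul _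

section

variable {β : Type*} [Fintype β] [DecidableEq β]

/-- tilted average over permutations. -/
lemma perm_avg_tilt {l : ℕ} (hcard : Fintype.card β = 2 * l) (u v : β → ℝ)
    (hu : ∀ c, u c = 1 ∨ u c = -1) (hv : ∀ c, v c = 1 ∨ v c = -1)
    (hus : ∑ c, u c = 0) (hvs : ∑ c, v c = 0) (x y : ℝ) (hx : |x| ≤ 1 / 2) :
    ∑ σ : Equiv.Perm β, (∏ c, (1 + x * (u (σ c) * v c))) *
        Real.exp (y * ∑ c, u (σ c) * v c) ≤
      ((2 * l).factorial : ℝ) * (1 / (1 - x ^ 2)) *
        Real.exp ((2 * l + 2 : ℕ) * (x * y + y ^ 2)) := by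
  have hx2 : x ^ 2 ≤ 1 / 4 := by
    have := sq_abs x
    nlinarith [abs_nonneg x]
  obtain ⟨hxl, hxu⟩ := abs_le.1 hx
  set P := Real.cosh y + x * Real.sinh y with hP
  have hPpos : 0 < P := by
    have e1 : P = (1 + x) / 2 * Real.exp y + (1 - x) / 2 * Real.exp (-y) := by
      rw [hP, Real.cosh_eq, Real.sinh_eq]
      ring
    rw [e1]
    have := Real.exp_pos y
    have := Real.exp_pos (-y)
    have h1 : 0 < 1 + x := by linarith
    have h2 : 0 < 1 - x := by linarith
    positivity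
  set Q := Real.sinh y + x * Real.cosh y with hQ
  have hPQ : P ^ 2 - Q ^ 2 = 1 - x ^ 2 := by
    have := Real.cosh_sq y
    rw [hP, hQ]
    ring_nf
    rw [this]
    ring
  set z := Q / P with hz
  have hz2 : 1 - z ^ 2 = (1 - x ^ 2) / P ^ 2 := by
    rw [← hPQ, hz]
    field_simp
  have hz1 : z ^ 2 < 1 := by
    have : 0 < (1 - x ^ 2) / P ^ 2 := div_pos (by linarith) (by positivity)
    linarith
  have hpt : ∀ s : ℝ, (s = 1 ∨ s = -1) → (1 + x * s) * Real.exp (y * s) = P * (1 + z * s) := by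
    intro s hs
    have e : P * (1 + z * s) = P + Q * s := by
      rw [hz]
      field_simp
    rw [e]
    rcases hs with rfl | rfl
    · rw [hP, hQ, mul_one, mul_one, ← Real.cosh_add_sinh y]
      ring
    · rw [hP, hQ, mul_neg_one y, ← Real.cosh_sub_sinh y]
      ring
  have h1 : ∀ σ : Equiv.Perm β, (∏ c, (1 + x * (u (σ c) * v c))) *
        Real.exp (y * ∑ c, u (σ c) * v c) =
        P ^ (2 * l) * ∏ c, (1 + z * (u (σ c) * v c)) := by
    intro σ
    rw [Finset.mul_sum, Real.exp_sum, ← Finset.prod_mul_distrib]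
    rw [Finset.prod_congr rfl (fun c _ => hpt (u (σ c) * v c) (by
      rcases hu (σ c) with h | h <;> rcases hv c with h' | h' <;> simp [h, h']))]
    rw [Finset.prod_mul_distrib, Finset.prod_const, Finset.card_univ, hcard]
  rw [Finset.sum_congr rfl (fun σ _ => h1 σ), ← Finset.mul_sum]
  have h2 := perm_avg_prod hcard u v hu hv hus hvs z hz1
  have h3 : P ^ (2 * l + 2) ≤ Real.exp ((2 * l + 2 : ℕ) * (x * y + y ^ 2)) := by
    rw [Real.exp_nat_mul]
    exact pow_le_pow_left₀ hPpos.le (tilt_bound hx) _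
  calc P ^ (2 * l) * ∑ σ : Equiv.Perm β, ∏ c, (1 + z * (u (σ c) * v c))
      ≤ P ^ (2 * l) * (((2 * l).factorial : ℝ) * (1 / (1 - z ^ 2))) :=
        mul_le_mul_of_nonneg_left h2 (by positivity)
    _ = ((2 * l).factorial : ℝ) * (1 / (1 - x ^ 2)) * P ^ (2 * l + 2) := by
        rw [hz2]
        have : (1 - x ^ 2) ≠ 0 := by linarith
        field_simp
        ring
    _ ≤ _ := by
        apply mul_le_mul_of_nonneg_left h3
        have : 0 < 1 - x ^ 2 := by linarith
        positivity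

/-- Gaussian linearisation. -/
lemma perm_avg_gauss {l : ℕ} (hcard : Fintype.card β = 2 * l) (u v : β → ℝ)
    (hu : ∀ c, u c = 1 ∨ u c = -1) (hv : ∀ c, v c = 1 ∨ v c = -1)
    (hus : ∑ c, u c = 0) (hvs : ∑ c, v c = 0) (x w S : ℝ) (hx : |x| ≤ 1 / 2)
    (hw : 0 < w) (hk : 8 * w * (l + 1) < 1) :
    ∑ σ : Equiv.Perm β, (∏ c, (1 + x * (u (σ c) * v c))) *
        Real.exp (w * (S + ∑ c, u (σ c) * v c) ^ 2) ≤
      ((2 * l).factorial : ℝ) * (1 / (1 - x ^ 2)) *
        (√(1 / (1 - 8 * w * (l + 1))) *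
          Real.exp (w * (S + (2 * l + 2) * x) ^ 2 / (1 - 8 * w * (l + 1)))) := by
  set b : ℝ := 1 / (4 * w) with hb
  have hbpos : 0 < b := by positivity
  have hpi := Real.pi_pos
  -- representation of the exponential of the square
  have hrep : ∀ a : ℝ, √(Real.pi / b) * Real.exp (w * a ^ 2) =
      ∫ y : ℝ, Real.exp (-b * y ^ 2 + a * y) := by
    intro a
    rw [gauss_int hbpos a]
    congr 2
    rw [hb]
    field_simp
  set b' : ℝ := b - (2 * l + 2) with hb'
  have hb'eq : b' = b * (1 - 8 * w * (l + 1)) := by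
    rw [hb', hb]
    field_simp
    ring
  have hb'pos : 0 < b' := by
    rw [hb'eq]
    exact mul_pos hbpos (by linarith)
  set K : ℝ := ((2 * l).factorial : ℝ) * (1 / (1 - x ^ 2)) with hK
  -- pointwise inequality
  have hpt : ∀ y : ℝ, ∑ σ : Equiv.Perm β, (∏ c, (1 + x * (u (σ c) * v c))) *
        Real.exp (-b * y ^ 2 + (S + ∑ c, u (σ c) * v c) * y) ≤
      K * Real.exp (-b' * y ^ 2 + (S + (2 * l + 2) * x) * y) := by
    intro y
    have h1 : ∀ σ : Equiv.Perm β, (∏ c, (1 + x * (u (σ c) * v c))) *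
        Real.exp (-b * y ^ 2 + (S + ∑ c, u (σ c) * v c) * y) =
        Real.exp (-b * y ^ 2 + S * y) * ((∏ c, (1 + x * (u (σ c) * v c))) *
          Real.exp (y * ∑ c, u (σ c) * v c)) := by
      intro σ
      rw [show -b * y ^ 2 + (S + ∑ c, u (σ c) * v c) * y =
        (-b * y ^ 2 + S * y) + y * ∑ c, u (σ c) * v c by ring, Real.exp_add]
      ring
    rw [Finset.sum_congr rfl (fun σ _ => h1 σ), ← Finset.mul_sum]
    calc _ ≤ Real.exp (-b * y ^ 2 + S * y) * (K *
          Real.exp ((2 * l + 2 : ℕ) * (x * y + y ^ 2))) :=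
          mul_le_mul_of_nonneg_left (perm_avg_tilt hcard u v hu hv hus hvs x y hx)
            (Real.exp_pos _).le
      _ = K * (Real.exp (-b * y ^ 2 + S * y) *
          Real.exp ((2 * l + 2 : ℕ) * (x * y + y ^ 2))) := by ring
      _ = _ := by
          rw [← Real.exp_add, hb']
          congr 2
          push_cast
          ring
  -- integrate
  have hint1 : Integrable (fun y : ℝ => ∑ σ : Equiv.Perm β, (∏ c, (1 + x * (u (σ c) * v c))) *
        Real.exp (-b * y ^ 2 + (S + ∑ c, u (σ c) * v c) * y)) :=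
    integrable_finsetSum _ fun σ _ => (gauss_integrable hbpos _).const_mul _
  have hint2 : Integrable (fun y : ℝ =>
      K * Real.exp (-b' * y ^ 2 + (S + (2 * l + 2) * x) * y)) :=
    (gauss_integrable hb'pos _).const_mul _
  have h2 := MeasureTheory.integral_mono hint1 hint2 hpt
  rw [integral_finsetSum _ (fun σ _ => (gauss_integrable hbpos _).const_mul _)] at h2
  simp_rw [integral_const_mul, ← hrep] at h2
  rw [gauss_int hb'pos] at h2
  have h3 : ∑ σ : Equiv.Perm β, (∏ c, (1 + x * (u (σ c) * v c))) *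
      (√(Real.pi / b) * Real.exp (w * (S + ∑ c, u (σ c) * v c) ^ 2)) =
      √(Real.pi / b) * ∑ σ : Equiv.Perm β, (∏ c, (1 + x * (u (σ c) * v c))) *
        Real.exp (w * (S + ∑ c, u (σ c) * v c) ^ 2) := by
    rw [Finset.mul_sum]
    refine Finset.sum_congr rfl fun σ _ => by ring
  rw [h3] at h2
  have hs : √(Real.pi / b') = √(Real.pi / b) * √(1 / (1 - 8 * w * (l + 1))) := by
    rw [← Real.sqrt_mul (by positivity), hb'eq]
    congr 1
    have : (1 - 8 * w * (l + 1)) ≠ 0 := by linarith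
    field_simp
  have he : (S + (2 * l + 2) * x) ^ 2 / (4 * b') =
      w * (S + (2 * l + 2) * x) ^ 2 / (1 - 8 * w * (l + 1)) := by
    rw [hb'eq, hb]
    have : (1 - 8 * w * (l + 1)) ≠ 0 := by linarith
    field_simp
  rw [hs, he] at h2
  have hsq : 0 < √(Real.pi / b) := Real.sqrt_pos.2 (by positivity)
  refine le_of_mul_le_mul_left ?_ hsq
  calc _ ≤ _ := h2
    _ = _ := by ring

/-- the elementary numerical estimate behind the block step. -/
lemma block_numeric {m l : ℕ} (hl : 1 ≤ l) (hlm : l ≤ m) (q lam S : ℝ) (hq0 : 0 ≤ q)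
    (hq1 : q ≤ 1 / 32) (hl0 : 0 ≤ lam) (hl1 : lam ≤ 1 / 16) (hS : |S| ≤ 2 * m) :
    (1 / (1 - (q * S / (2 * m)) ^ 2)) *
        (√(1 / (1 - 8 * (lam / (2 * (m + l))) * (l + 1))) *
          Real.exp ((lam / (2 * (m + l))) * (S + (2 * l + 2) * (q * S / (2 * m))) ^ 2 /
            (1 - 8 * (lam / (2 * (m + l))) * (l + 1)))) ≤
      Real.exp (16 * lam * l / (2 * (m + l)) + (lam + 2 * q ^ 2 / (2 * m)) * S ^ 2 / (2 * m)) := by
  have hlr : (1 : ℝ) ≤ l := by exact_mod_cast hl
  have hlmr : (l : ℝ) ≤ m := by exact_mod_cast hlm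
  set t : ℝ := 2 * m with ht
  have htpos : 0 < t := by rw [ht]; linarith
  have ht2l : 2 * (l : ℝ) ≤ t := by rw [ht]; linarith
  set t' : ℝ := 2 * (m + l) with ht'
  have ht't : t' = t + 2 * l := by rw [ht, ht']; ring
  have ht'pos : 0 < t' := by rw [ht't]; linarith
  set x : ℝ := q * S / t with hx
  set k : ℝ := 8 * (lam / t') * (l + 1) with hk
  have hk' : k * t' = 8 * lam * (l + 1) := by
    rw [hk]; field_simp
  have hk0 : 0 ≤ k := by rw [hk]; positivity
  have hkt : k * t' ≤ 16 * lam * l := by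
    rw [hk']; nlinarith
  have hk2 : k ≤ 16 * lam * l / t' := by
    rw [le_div_iff₀ ht'pos]; exact hkt
  have hk3 : k ≤ 1 / 2 := by
    refine hk2.trans ?_
    rw [div_le_iff₀ ht'pos]
    nlinarith
  have hx1 : |x| ≤ 1 / 32 := by
    rw [hx, abs_div, abs_mul, abs_of_pos htpos, abs_of_nonneg hq0, div_le_iff₀ htpos]
    have := mul_le_mul hq1 hS (abs_nonneg _) (by norm_num)
    linarith
  have hx2 : x ^ 2 ≤ 1 / 2 := by
    have := sq_abs x
    nlinarith [abs_nonneg x]
  have hx3 : 0 ≤ x ^ 2 := sq_nonneg x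
  have aux : ∀ a : ℝ, 0 ≤ a → a ≤ 1 / 2 → 1 / (1 - a) ≤ Real.exp (2 * a) := by
    intro a ha0 ha1
    rw [div_le_iff₀ (by linarith)]
    have := Real.add_one_le_exp (2 * a)
    nlinarith
  have i1 : 1 / (1 - x ^ 2) ≤ Real.exp (2 * x ^ 2) := aux _ hx3 hx2
  have i2 : √(1 / (1 - k)) ≤ Real.exp (16 * lam * l / t') := by
    rw [Real.sqrt_le_left (Real.exp_pos _).le]
    refine (aux k hk0 hk3).trans ?_
    rw [← Real.exp_nat_mul]
    apply Real.exp_le_exp.2
    push_cast
    linarith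
  have i3 : (lam / t') * (S + (2 * l + 2) * x) ^ 2 / (1 - k) ≤ lam * S ^ 2 / t := by
    have e1 : S + (2 * l + 2) * x = S * (1 + (2 * l + 2) * q / t) := by
      rw [hx]; field_simp
    rw [e1, mul_pow]
    have hk4 : 0 < 1 - k := by linarith
    rw [div_le_div_iff₀ hk4 htpos]
    have h1 : t * (1 + (2 * l + 2) * q / t) ^ 2 ≤ t' * (1 - k) := by
      have h2 : t' * (1 - k) ≥ t + l := by
        have : 16 * lam * l ≤ l := by nlinarith
        nlinarith
      have hd : (2 * l + 2) * q ≤ l / 8 := by nlinarith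
      have hd0 : 0 ≤ (2 * l + 2) * q := by positivity
      set d := (2 * (l : ℝ) + 2) * q with hdd
      have h3 : t * (1 + d / t) ^ 2 = t + 2 * d + d * (d / t) := by
        field_simp
        ring
      have h4 : d / t ≤ 1 := by
        rw [div_le_one htpos]
        linarith
      have h5 : d * (d / t) ≤ d * 1 := mul_le_mul_of_nonneg_left h4 hd0
      rw [h3]
      linarith
    have h6 : lam / t' * (S ^ 2 * (1 + (2 * l + 2) * q / t) ^ 2) * t =
        (lam * S ^ 2) * ((t * (1 + (2 * l + 2) * q / t) ^ 2) / t') := by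
      field_simp
    rw [h6]
    apply mul_le_mul_of_nonneg_left _ (by positivity)
    rw [div_le_iff₀ ht'pos]
    linarith
  have hpos : 0 ≤ 1 / (1 - x ^ 2) := by
    have : 0 < 1 - x ^ 2 := by linarith
    positivity
  calc (1 / (1 - x ^ 2)) * (√(1 / (1 - k)) *
        Real.exp ((lam / t') * (S + (2 * l + 2) * x) ^ 2 / (1 - k)))
      ≤ Real.exp (2 * x ^ 2) * (Real.exp (16 * lam * l / t') * Real.exp (lam * S ^ 2 / t)) := by
        apply mul_le_mul i1 _ (by positivity) (Real.exp_pos _).le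
        exact mul_le_mul i2 (Real.exp_le_exp.2 i3) (Real.exp_pos _).le (Real.exp_pos _).le
    _ = Real.exp (16 * lam * l / t' + (lam + 2 * q ^ 2 / t) * S ^ 2 / t) := by
        rw [← Real.exp_add, ← Real.exp_add]
        congr 1
        rw [hx]
        field_simp
        ring

/-- the block step for a hidden block of `l` pairs starting at time `m`. -/
lemma hidden_avg {m l : ℕ} (hl : 1 ≤ l) (hlm : l ≤ m) (hcard : Fintype.card β = 2 * l)
    (u v : β → ℝ)
    (hu : ∀ c, u c = 1 ∨ u c = -1) (hv : ∀ c, v c = 1 ∨ v c = -1)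
    (hus : ∑ c, u c = 0) (hvs : ∑ c, v c = 0) (q lam S : ℝ) (hq0 : 0 ≤ q)
    (hq1 : q ≤ 1 / 32) (hl0 : 0 ≤ lam) (hl1 : lam ≤ 1 / 16) (hS : |S| ≤ 2 * m) :
    ∑ σ : Equiv.Perm β, (∏ c, (1 + (q * S / (2 * m)) * (u (σ c) * v c))) *
        Real.exp (lam * (S + ∑ c, u (σ c) * v c) ^ 2 / (2 * (m + l))) ≤
      ((2 * l).factorial : ℝ) *
      Real.exp (16 * lam * l / (2 * (m + l)) + (lam + 2 * q ^ 2 / (2 * m)) * S ^ 2 / (2 * m)) := by
  have hlr : (1 : ℝ) ≤ l := by exact_mod_cast hl
  have hlmr : (l : ℝ) ≤ m := by exact_mod_cast hlm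
  have htpos : (0 : ℝ) < 2 * m := by linarith
  have ht'pos : (0 : ℝ) < 2 * (m + l) := by linarith
  set x : ℝ := q * S / (2 * m) with hx
  have hx1 : |x| ≤ 1 / 32 := by
    rw [hx, abs_div, abs_mul, abs_of_pos htpos, abs_of_nonneg hq0, div_le_iff₀ htpos]
    have := mul_le_mul hq1 hS (abs_nonneg _) (by norm_num)
    linarith
  have hnum := block_numeric hl hlm q lam S hq0 hq1 hl0 hl1 hS
  rw [← hx] at hnum
  rcases hl0.eq_or_lt with h0 | h0
  · -- lam = 0
    subst h0
    have hx2 : x ^ 2 < 1 := by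
      have := sq_abs x
      nlinarith [abs_nonneg x]
    have h1 := perm_avg_prod hcard u v hu hv hus hvs x hx2
    simp only [zero_mul, zero_div, Real.exp_zero, mul_one, mul_zero, sub_zero, div_one,
      Real.sqrt_one, one_mul] at hnum ⊢
    exact h1.trans (mul_le_mul_of_nonneg_left hnum (by positivity))
  · set w : ℝ := lam / (2 * (m + l)) with hw
    have hwpos : 0 < w := by positivity
    have hk : 8 * w * (l + 1) < 1 := by
      rw [hw]
      have : 8 * (lam / (2 * (m + l))) * (l + 1) = 8 * lam * (l + 1) / (2 * (m + l)) := by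
        ring
      rw [this, div_lt_one ht'pos]
      nlinarith
    have h1 := perm_avg_gauss hcard u v hu hv hus hvs x w S (by linarith) hwpos hk
    have h2 : ∀ a : ℝ, lam * a ^ 2 / (2 * (m + l)) = w * a ^ 2 := by
      intro a
      rw [hw]
      ring
    simp_rw [h2]
    refine h1.trans ?_
    rw [mul_assoc]
    exact mul_le_mul_of_nonneg_left hnum (by positivity)

end

end Pool.Agent.BCMRT
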