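import Mathlib
import Pool.Agent.MP_e7e4ab_pr.Blocks

set_option autoImplicit false

open Finset

namespace Pool.Agent.BCMRT

/-- unnormalised likelihood with respect to the sign vector `τ`. -/
noncomputable def W (θ : ℝ) {n : ℕ} (τ : Node n → Bool) (p : Node n → Node n) : ℝ :=
  ∏ c : Node n, if c.1.val = 0 then 1 else 1 + θ * (sg (τ c) * sg (τ (p c)))

/-- weight of a valid parent function for `q = 1/2`. -/
noncomputable def w0 (n : ℕ) : ℝ :=
  ∏ c : Node n, if c.1.val = 0 then 1 else 1 / (2 * (c.1.val : ℝ))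

lemma w0_pos (n : ℕ) : 0 < w0 n := by
  unfold w0
  refine Finset.prod_pos fun c _ => ?_
  split_ifs with h
  · norm_num
  · have : 0 < c.1.val := Nat.pos_of_ne_zero h
    positivity

lemma weight_eq {n : ℕ} (θ : ℝ) (p : Node n → Node n) (hp : Valid p) :
    weight ((1 - θ) / 2) p = w0 n * W θ (fun c => c.2) p := by
  unfold weight w0 W
  rw [← Finset.prod_mul_distrib]
  refine Finset.prod_congr rfl fun c _ => ?_
  unfold parentProb
  split_ifs with h0 h1 h2 h3
  · norm_num
  · exact absurd ((hp c).1 h0) h1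
  · have hs : sg c.2 * sg (p c).2 = 1 := by
      rw [h3]
      exact sg_sq c.2
    show _ = _ * (1 + θ * (sg c.2 * sg (p c).2))
    rw [hs]
    ring
  · have hs : sg c.2 * sg (p c).2 = -1 := by
      cases hc : c.2 <;> cases hd : (p c).2 <;> simp_all
    show _ = _ * (1 + θ * (sg c.2 * sg (p c).2))
    rw [hs]
    ring
  · exact absurd ((hp c).2 h0) h2

lemma weight_zero {n : ℕ} (q : ℝ) (p : Node n → Node n) (hp : ¬ Valid p) :
    weight q p = 0 := by
  unfold Valid at hp
  push Not at hp
  obtain ⟨c, hc⟩ := hp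
  unfold weight
  refine Finset.prod_eq_zero (Finset.mem_univ c) ?_
  unfold parentProb
  by_cases h0 : c.1.val = 0
  · rw [if_pos h0, if_neg]
    intro h
    obtain ⟨h1, h2⟩ := hc (fun _ => h)
    exact h1 h0
  · rw [if_neg h0, if_neg]
    intro h
    obtain ⟨h1, h2⟩ := hc (fun h' => absurd h' h0)
    exact absurd h (not_lt.2 h2)

lemma W_nonneg {n : ℕ} (θ : ℝ) (h0 : 0 ≤ θ) (h1 : θ ≤ 1) (τ : Node n → Bool)
    (p : Node n → Node n) : 0 ≤ W θ τ p := by
  unfold W
  refine Finset.prod_nonneg fun c _ => ?_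
  split_ifs
  · norm_num
  · rcases sg_or (τ c) with h | h <;> rcases sg_or (τ (p c)) with h' | h' <;> rw [h, h'] <;>
      nlinarith

/-- relabelling of parent functions. -/
def conj {n : ℕ} (π : Equiv.Perm (Node n)) (p : Node n → Node n) : Node n → Node n :=
  fun c => π (p (π.symm c))

lemma conj_symm_conj {n : ℕ} (π : Equiv.Perm (Node n)) (p : Node n → Node n) :
    conj π.symm (conj π p) = p := by
  funext c; simp [conj]

lemma conj_conj_symm {n : ℕ} (π : Equiv.Perm (Node n)) (p : Node n → Node n) :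
    conj π (conj π.symm p) = p := by
  funext c; simp [conj]

lemma Par_props {n : ℕ} (k : ℕ → ℕ) (p : Node n → Node n) (hp : p ∈ Par n k) :
    (∀ i, n ≤ i → k i = 0) ∧ (0 < n → k 0 ≠ 0) := by
  simp only [Par, Finset.mem_filter, Finset.mem_univ, true_and] at hp
  obtain ⟨h1, h2⟩ := hp
  rw [kk_eq_iff] at h2
  constructor
  · intro i hi
    rw [← h2 i]
    unfold cnt
    rw [dif_neg (by omega)]
  · intro hn
    rw [← h2 0]
    unfold cnt
    rw [dif_pos hn]
    simp [gam]

lemma Par_conj {n : ℕ} (k : ℕ → ℕ) (π : Equiv.Perm (Node n))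
    (hπ : ∀ c, bs k (π c).1.val = bs k c.1.val) (p : Node n → Node n) (hp : p ∈ Par n k) :
    conj π p ∈ Par n k := by
  obtain ⟨hk, hk0⟩ := Par_props k p hp
  have hsymm : ∀ c, bs k (π.symm c).1.val = bs k c.1.val := by
    intro c
    have := hπ (π.symm c)
    rw [Equiv.apply_symm_apply] at this
    exact this.symm
  rw [mem_Par_iff k hk] at hp ⊢
  intro i
  have hlt_gam : ∀ (d : Node n) (j : ℕ), (π d).1.val < gam k j ↔ d.1.val < gam k j := by
    intro d j
    rw [← bs_lt_gam k j (π d).1.val, ← bs_lt_gam k j d.1.val, hπ]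
  have hn : 0 < n := by
    have := i.2; omega
  have hk0' := hk0 hn
  by_cases hi : k i.val = 0
  · -- hidden time
    have hi0 : i.val ≠ 0 := by
      intro h; rw [h] at hi; exact hk0' hi
    have key : ∀ t, (conj π p (i, t)).1.val < gam k i.val := by
      intro t
      unfold conj
      rw [hlt_gam]
      set c' := π.symm (i, t) with hc'
      have hb : bs k c'.1.val = bs k i.val := hsymm (i, t)
      obtain ⟨h1, h2⟩ := hidden_of_bs_eq k i.val c'.1.val hi hb
      have h3 := (hp c'.1)
      simp only [Al, Finset.mem_filter, Finset.mem_univ, true_and] at h3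
      obtain ⟨_, _, h4⟩ := h3
      rw [h1, Finset.card_eq_zero, Finset.filter_eq_empty_iff] at h4
      have h5 := h4 (Finset.mem_univ c'.2)
      rw [h2] at h5
      simpa using h5
    simp only [Al, Finset.mem_filter, Finset.mem_univ, true_and]
    refine ⟨fun h => absurd h hi0, fun _ t => ?_, ?_⟩
    · exact Fin.lt_def.2 (lt_of_lt_of_le (key t) (gam_le k _))
    · rw [hi, Finset.card_eq_zero, Finset.filter_eq_empty_iff]
      intro t _
      have := key t
      omega
  · -- special time
    have hsp : ∀ t, (π.symm (i, t)).1 = i := by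
      intro t
      exact Fin.ext (bs_eq_of_special k i.val _ hi (hsymm (i, t)))
    have hinj : Function.Injective (fun t : Bool => (π.symm (i, t)).2) := by
      intro t t' htt
      have h1 : π.symm (i, t) = π.symm (i, t') := Prod.ext ((hsp t).trans (hsp t').symm) htt
      have := π.symm.injective h1
      exact (Prod.ext_iff.1 this).2
    have hbij : Function.Bijective (fun t : Bool => (π.symm (i, t)).2) :=
      Finite.injective_iff_bijective.1 hinj
    let e : Bool ≃ Bool := Equiv.ofBijective _ hbij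
    have he : ∀ t, π.symm (i, t) = (i, e t) := by
      intro t
      exact Prod.ext (hsp t) rfl
    have hpi := hp i
    simp only [Al, Finset.mem_filter, Finset.mem_univ, true_and] at hpi ⊢
    obtain ⟨h1, h2, h3⟩ := hpi
    refine ⟨fun h0 t => ?_, fun h0 t => ?_, ?_⟩
    · unfold conj
      rw [he t, h1 h0 (e t), ← he t, Equiv.apply_symm_apply]
    · unfold conj
      rw [he t]
      have h4 := Fin.lt_def.1 (h2 h0 (e t))
      rw [← bs_lt_special k i.val _ hi] at h4
      rw [Fin.lt_def, ← bs_lt_special k i.val _ hi, hπ]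
      exact h4
    · rw [← h3]
      refine Finset.card_bij (fun t _ => e t) ?_ (fun a _ b _ hab => e.injective hab) ?_
      · intro t ht
        simp only [Finset.mem_filter, Finset.mem_univ, true_and] at ht ⊢
        unfold conj at ht
        rw [he t] at ht
        by_contra hcon
        push Not at hcon
        have := (hlt_gam (p (i, e t)) i.val).2 hcon
        omega
      · intro t ht
        simp only [Finset.mem_filter, Finset.mem_univ, true_and] at ht
        refine ⟨e.symm t, ?_, by simp⟩
        simp only [Finset.mem_filter, Finset.mem_univ, true_and]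
        unfold conj
        rw [he (e.symm t), Equiv.apply_symm_apply]
        by_contra hcon
        push Not at hcon
        have := (hlt_gam (p (i, t)) i.val).1 hcon
        omega

/-- sets of parent functions which are invariant under relabellings preserving the root pair. -/
def Inv {n : ℕ} (A : Set (Node n → Node n)) : Prop :=
  ∀ π : Equiv.Perm (Node n), (∀ c, (π c).1.val = 0 ↔ c.1.val = 0) →
    ∀ p, conj π p ∈ A ↔ p ∈ A

lemma root_pres {n : ℕ} (k : ℕ → ℕ) (hk0 : k 0 ≠ 0) (π : Equiv.Perm (Node n))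
    (hπ : ∀ c, bs k (π c).1.val = bs k c.1.val) (c : Node n) :
    (π c).1.val = 0 ↔ c.1.val = 0 := by
  constructor
  · intro h
    refine bs_eq_of_special k 0 _ hk0 ?_
    rw [← hπ c, h]
  · intro h
    refine bs_eq_of_special k 0 _ hk0 ?_
    rw [hπ c, h]

lemma sum_Par_W {n : ℕ} (k : ℕ → ℕ) (θ : ℝ) (A : Set (Node n → Node n)) (hA : Inv A)
    [DecidablePred (· ∈ A)] (τ : Node n → Bool) (hτ : τ ∈ TT n k) :
    ∑ p ∈ Par n k, (if p ∈ A then W θ τ p else 0) =
      ∑ p ∈ Par n k, (if p ∈ A then W θ (fun c => c.2) p else 0) := by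
  rcases (Par n k).eq_empty_or_nonempty with h | ⟨p0, hp0⟩
  · rw [h]; simp
  rcases Nat.eq_zero_or_pos n with hn | hn
  · subst hn
    refine Finset.sum_congr rfl fun p _ => ?_
    have : τ = (fun c => c.2) := by
      funext c; exact absurd c.1.2 (by omega)
    rw [this]
  obtain ⟨hk, hk0⟩ := Par_props k p0 hp0
  have hk0' := hk0 hn
  obtain ⟨π, hπ, hπτ⟩ := exists_perm_of_TT k τ hτ
  have hroot := root_pres k hk0' π hπ
  have hsymm : ∀ c, bs k (π.symm c).1.val = bs k c.1.val := by
    intro c
    have := hπ (π.symm c)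
    rw [Equiv.apply_symm_apply] at this
    exact this.symm
  refine Finset.sum_bij' (fun p _ => conj π p) (fun p _ => conj π.symm p)
    (fun p hp => Par_conj k π hπ p hp) (fun p hp => Par_conj k π.symm hsymm p hp)
    (fun p _ => conj_symm_conj π p) (fun p _ => conj_conj_symm π p) ?_
  intro p _
  have h1 : W θ (fun c => c.2) (conj π p) = W θ τ p := by
    unfold W
    rw [← Equiv.prod_comp π]
    refine Finset.prod_congr rfl fun c _ => ?_
    by_cases hc : c.1.val = 0
    · rw [if_pos hc, if_pos ((hroot c).2 hc)]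
    · rw [if_neg hc, if_neg (fun h => hc ((hroot c).1 h))]
      unfold conj
      show 1 + θ * (sg (π c).2 * sg (π (p (π.symm (π c)))).2) = _
      rw [Equiv.symm_apply_apply, hπτ, hπτ]
  rw [h1]
  by_cases hpA : p ∈ A
  · rw [if_pos hpA, if_pos ((hA π hroot p).2 hpA)]
  · rw [if_neg hpA, if_neg (fun h => hpA ((hA π hroot p).1 h))]

lemma tree_conj {n : ℕ} (π : Equiv.Perm (Node n)) (hπ : ∀ c, (π c).1.val = 0 ↔ c.1.val = 0)
    (p : Node n → Node n) : tree (conj π p) = (tree p).map π.toEmbedding := by
  ext u v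
  rw [SimpleGraph.map_adj]
  unfold tree
  simp only [SimpleGraph.fromRel_adj]
  constructor
  · rintro ⟨h1, h2⟩
    refine ⟨π.symm u, π.symm v, ⟨?_, ?_⟩, by simp, by simp⟩
    · intro h
      exact h1 (π.symm.injective h)
    · have hu := hπ (π.symm u)
      have hv := hπ (π.symm v)
      rw [Equiv.apply_symm_apply] at hu hv
      rw [ne_eq, ne_eq, ← hu, ← hv]
      unfold conj at h2
      have e1 : ∀ a b, p (π.symm a) = π.symm b ↔ π (p (π.symm a)) = b := by
        intro a b
        constructor
        · intro h; rw [h]; simp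
        · intro h; rw [← h]; simp
      rw [e1, e1]
      exact h2
  · rintro ⟨u', v', ⟨h1, h2⟩, rfl, rfl⟩
    refine ⟨fun h => h1 (π.injective h), ?_⟩
    simp only [Equiv.coe_toEmbedding, hπ, conj, Equiv.symm_apply_apply, π.injective.eq_iff, ne_eq]
    exact h2

lemma rootEdge_map {n : ℕ} (π : Equiv.Perm (Node (n + 1)))
    (hπ : ∀ c, (π c).1.val = 0 ↔ c.1.val = 0) : (rootEdge n).map π = rootEdge n := by
  unfold rootEdge
  rw [Sym2.map_mk]
  have h1 : (π (0, true)).1 = 0 := Fin.ext ((hπ _).2 rfl)
  have h2 : (π (0, false)).1 = 0 := Fin.ext ((hπ _).2 rfl)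
  have h3 : π (0, true) ≠ π (0, false) := fun h => by
    have := π.injective h
    simp at this
  cases h4 : (π (0, true)).2 <;> cases h5 : (π (0, false)).2
  · exact absurd (Prod.ext (h1.trans h2.symm) (h4.trans h5.symm)) h3
  · rw [Sym2.eq_iff]
    right
    exact ⟨Prod.ext h1 h4, Prod.ext h2 h5⟩
  · rw [Sym2.eq_iff]
    left
    exact ⟨Prod.ext h1 h4, Prod.ext h2 h5⟩
  · exact absurd (Prod.ext (h1.trans h2.symm) (h4.trans h5.symm)) h3

end Pool.Agent.BCMRT
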