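import Mathlib
import Pool.Agent.MP_e7e4ab_pr.Relabel

set_option autoImplicit false

open Finset

namespace Pool.Agent.BCMRT

/-- overlap sign at a node. -/
noncomputable def ov {n : ℕ} (τ τ' : Node n → Bool) (c : Node n) : ℝ := sg (τ c) * sg (τ' c)

lemma ov_or {n : ℕ} (τ τ' : Node n → Bool) (c : Node n) : ov τ τ' c = 1 ∨ ov τ τ' c = -1 := by
  unfold ov
  rcases sg_or (τ c) with h | h <;> rcases sg_or (τ' c) with h' | h' <;> simp [h, h']

/-- total overlap before time `m`. -/
noncomputable def SS {n : ℕ} (τ τ' : Node n → Bool) (m : ℕ) : ℝ :=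
  ∑ c : Node n with c.1.val < m, ov τ τ' c

lemma card_lt {n : ℕ} (m : ℕ) (hm : m ≤ n) : #{c : Node n | c.1.val < m} = 2 * m := by
  rw [filter_fst (fun i : Fin n => i.val < m), Finset.card_product]
  have : #{i : Fin n | i.val < m} = m := by
    rw [Fin.card_filter_val_lt]
    omega
  rw [this]
  simp [mul_comm]

lemma abs_SS_le {n : ℕ} (τ τ' : Node n → Bool) (m : ℕ) (hm : m ≤ n) :
    |SS τ τ' m| ≤ 2 * m := by
  unfold SS
  refine (Finset.abs_sum_le_sum_abs _ _).trans ?_
  have : ∀ c ∈ univ.filter (fun c : Node n => c.1.val < m), |ov τ τ' c| = 1 := by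
    intro c _
    rcases ov_or τ τ' c with h | h <;> simp [h]
  rw [Finset.sum_congr rfl this, Finset.sum_const, card_lt m hm]
  simp

/-- total overlap between times. -/
lemma SS_sub {n : ℕ} (τ τ' : Node n → Bool) (g m : ℕ) (hg : g ≤ m) :
    ∑ c : Node n with g ≤ c.1.val ∧ c.1.val < m, ov τ τ' c = SS τ τ' m - SS τ τ' g := by
  unfold SS
  rw [eq_sub_iff_add_eq, ← Finset.sum_union]
  · refine Finset.sum_congr ?_ fun _ _ => rfl
    ext c
    simp only [Finset.mem_union, Finset.mem_filter, Finset.mem_univ, true_and]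
    omega
  · rw [Finset.disjoint_filter]
    intro c _ h1 h2
    omega

/-- the two parent regions at time `i`: `false` is the old one, `true` the current block. -/
def Dn (k : ℕ → ℕ) {n : ℕ} (i : ℕ) (b : Bool) : Finset (Node n) :=
  if b = true then univ.filter (fun d : Node n => gam k i ≤ d.1.val ∧ d.1.val < i)
  else univ.filter (fun d : Node n => d.1.val < gam k i)

lemma card_Dn_false (k : ℕ → ℕ) {n : ℕ} (i : ℕ) (hi : i ≤ n) :
    #(Dn k i false : Finset (Node n)) = 2 * gam k i := by
  unfold Dn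
  simp only [Bool.false_eq_true, if_false]
  exact card_lt _ ((gam_le k i).trans hi)

lemma card_Dn_true (k : ℕ → ℕ) {n : ℕ} (i : ℕ) (hi : i ≤ n) :
    #(Dn k i true : Finset (Node n)) = 2 * (i - gam k i) := by
  unfold Dn
  simp only [if_true]
  have h1 := card_lt (n := n) i hi
  have h2 := card_lt (n := n) (gam k i) ((gam_le k i).trans hi)
  have h3 : #{c : Node n | gam k i ≤ c.1.val ∧ c.1.val < i} + #{c : Node n | c.1.val < gam k i} =
      #{c : Node n | c.1.val < i} := by
    rw [← Finset.card_union_of_disjoint]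
    · congr 1
      ext c
      have := gam_le k i
      simp only [Finset.mem_union, Finset.mem_filter, Finset.mem_univ, true_and]
      omega
    · rw [Finset.disjoint_filter]
      intro c _ h1 h2
      omega
  omega

lemma sum_Dn_ov (k : ℕ → ℕ) {n : ℕ} (i : ℕ) (τ τ' : Node n → Bool) (b : Bool) :
    ∑ d ∈ Dn k i b, ov τ τ' d = if b then SS τ τ' i - SS τ τ' (gam k i) else SS τ τ' (gam k i) := by
  cases b
  · simp [Dn, SS]
  · simp only [Dn, if_true]
    exact SS_sub τ τ' _ _ (gam_le k i)

lemma sum_Dn_sg (k : ℕ → ℕ) {n : ℕ} (i : ℕ) (τ : Node n → Bool) (hτ : τ ∈ TT n k) (b : Bool)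
    (hb : b = true → k i ≠ 0) : ∑ d ∈ Dn k i b, sg (τ d) = 0 := by
  cases b
  · simp only [Dn, Bool.false_eq_true, if_false]
    exact TT_sum_gam k τ hτ i
  · simp only [Dn, if_true]
    have h1 := TT_sum_gam k τ hτ i
    have h2 := TT_sum_special k τ hτ i (hb rfl)
    have h3 : ∑ c : Node n with gam k i ≤ c.1.val ∧ c.1.val < i, sg (τ c) +
        ∑ c : Node n with c.1.val < gam k i, sg (τ c) = ∑ c : Node n with c.1.val < i, sg (τ c) := by
      rw [← Finset.sum_union]
      · refine Finset.sum_congr ?_ fun _ _ => rfl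
        ext c
        have := gam_le k i
        simp only [Finset.mem_union, Finset.mem_filter, Finset.mem_univ, true_and]
        omega
      · rw [Finset.disjoint_filter]
        intro c _ h1 h2
        omega
    linarith

lemma sum_Dn_factor (k : ℕ → ℕ) {n : ℕ} (i : ℕ) (τ τ' : Node n → Bool) (hτ : τ ∈ TT n k)
    (hτ' : τ' ∈ TT n k) (b : Bool) (hb : b = true → k i ≠ 0) (θ x x' : ℝ) :
    ∑ d ∈ Dn k i b, (1 + θ * (x * sg (τ d))) * (1 + θ * (x' * sg (τ' d))) =
      #(Dn k i b : Finset (Node n)) + θ ^ 2 * (x * x') * ∑ d ∈ Dn k i b, ov τ τ' d := by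
  have h1 := sum_Dn_sg k i τ hτ b hb
  have h2 := sum_Dn_sg k i τ' hτ' b hb
  have h3 : ∀ d : Node n, (1 + θ * (x * sg (τ d))) * (1 + θ * (x' * sg (τ' d))) =
      1 + (θ * x) * sg (τ d) + (θ * x') * sg (τ' d) + θ ^ 2 * (x * x') * ov τ τ' d := by
    intro d
    unfold ov
    ring
  simp_rw [h3]
  rw [Finset.sum_add_distrib, Finset.sum_add_distrib, Finset.sum_add_distrib, ← Finset.mul_sum,
    ← Finset.mul_sum, ← Finset.mul_sum, h1, h2]
  simp

lemma sum_Al_flags (k : ℕ → ℕ) {n : ℕ} (i : Fin n) (hi : i.val ≠ 0)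
    (Φ : Bool → Node n → ℝ) :
    ∑ a ∈ Al k i, ∏ t, Φ t (a t) =
      ∑ f : Bool → Bool with #{t : Bool | f t = true} = k i.val,
        ∏ t, ∑ d ∈ Dn k i.val (f t), Φ t d := by
  rw [← Finset.sum_fiberwise_of_maps_to (s := Al k i)
    (t := univ.filter fun f : Bool → Bool => #{t : Bool | f t = true} = k i.val)
    (g := fun a t => decide (gam k i.val ≤ (a t).1.val))]
  · refine Finset.sum_congr rfl fun f hf => ?_
    rw [Finset.prod_univ_sum]
    refine Finset.sum_congr ?_ fun _ _ => rfl
    ext a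
    simp only [Finset.mem_filter, Finset.mem_univ, true_and, Al, Fintype.mem_piFinset, Dn] at hf ⊢
    constructor
    · rintro ⟨⟨_, h2, _⟩, h4⟩ t
      have h5 := congrFun h4 t
      have h6 := Fin.lt_def.1 (h2 hi t)
      cases hft : f t
      · rw [hft] at h5
        simp only [decide_eq_false_iff_not, not_le] at h5
        simpa using h5
      · rw [hft] at h5
        simp only [decide_eq_true_eq] at h5
        simp only [if_true, Finset.mem_filter, Finset.mem_univ, true_and]
        exact ⟨h5, h6⟩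
    · intro h
      have h1 : ∀ t, decide (gam k i.val ≤ (a t).1.val) = f t := by
        intro t
        have := h t
        cases hft : f t
        · rw [hft] at this
          simp at this
          simpa using this
        · rw [hft] at this
          simp at this
          simpa using this.1
      have h2 : ∀ t, (a t).1.val < i.val := by
        intro t
        have := h t
        have hg := gam_le k i.val
        cases hft : f t
        · rw [hft] at this
          simp at this
          omega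
        · rw [hft] at this
          simp at this
          exact this.2
      refine ⟨⟨fun h0 => absurd h0 hi, fun _ t => Fin.lt_def.2 (h2 t), ?_⟩, funext h1⟩
      rw [← hf]
      congr 1
      ext t
      simp only [Finset.mem_filter, Finset.mem_univ, true_and]
      rw [← h1 t]
      simp
  · intro a ha
    simp only [Finset.mem_filter, Finset.mem_univ, true_and, Al] at ha ⊢
    rw [← ha.2.2]
    congr 1
    ext t
    simp

/-- functions `Bool → Bool`. -/
def bb (x y : Bool) : Bool → Bool := fun t => if t then x else y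

lemma sum_flags (K : ℕ) (Ψ : (Bool → Bool) → ℝ) :
    ∑ f : Bool → Bool with #{t : Bool | f t = true} = K, Ψ f =
      (if K = 0 then Ψ (bb false false) else 0) +
      (if K = 1 then Ψ (bb true false) + Ψ (bb false true) else 0) +
      (if K = 2 then Ψ (bb true true) else 0) := by
  rw [Finset.sum_filter]
  have e : ∀ g : (Bool → Bool) → ℝ, ∑ f : Bool → Bool, g f =
      g (bb false false) + g (bb true false) + g (bb false true) + g (bb true true) := by
    intro g
    have hu : (univ : Finset (Bool → Bool)) =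
        {bb false false, bb true false, bb false true, bb true true} := by decide
    rw [hu, Finset.sum_insert (by decide), Finset.sum_insert (by decide),
      Finset.sum_insert (by decide), Finset.sum_singleton]
    ring
  rw [e]
  have c1 : #{t : Bool | bb false false t = true} = 0 := by decide
  have c2 : #{t : Bool | bb true false t = true} = 1 := by decide
  have c3 : #{t : Bool | bb false true t = true} = 1 := by decide
  have c4 : #{t : Bool | bb true true t = true} = 2 := by decide
  rw [c1, c2, c3, c4]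
  rcases K with _ | _ | _ | K
  · simp
  · simp
  · simp
  · simp

/-- the averaged two-replica factor at time `i`. -/
noncomputable def FF (q : ℝ) (k : ℕ → ℕ) {n : ℕ} (τ τ' : Node n → Bool) (i : Fin n) : ℝ :=
  let R0 := SS τ τ' (gam k i.val) / (2 * gam k i.val)
  let R1 := (SS τ τ' i.val - SS τ τ' (gam k i.val)) / (2 * ((i.val : ℝ) - gam k i.val))
  if i.val = 0 then 1
  else if k i.val = 0 then
    (1 + q * R0 * ov τ τ' (i, true)) * (1 + q * R0 * ov τ τ' (i, false))
  else if k i.val = 1 then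
    ((1 + q * R1 * ov τ τ' (i, true)) * (1 + q * R0 * ov τ τ' (i, false)) +
     (1 + q * R0 * ov τ τ' (i, true)) * (1 + q * R1 * ov τ τ' (i, false))) / 2
  else (1 + q * R1 * ov τ τ' (i, true)) * (1 + q * R1 * ov τ τ' (i, false))

lemma card_Al (k : ℕ → ℕ) {n : ℕ} (i : Fin n) (hi : i.val ≠ 0) :
    (#(Al k i) : ℝ) = (if k i.val = 0 then (2 * (gam k i.val : ℝ)) ^ 2 else 0) +
      (if k i.val = 1 then
        2 * ((2 * (gam k i.val : ℝ)) * (2 * ((i.val : ℝ) - gam k i.val))) else 0) +
      (if k i.val = 2 then (2 * ((i.val : ℝ) - gam k i.val)) ^ 2 else 0) := by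
  have h1 := sum_Al_flags k i hi (fun _ _ => 1)
  simp only [Finset.prod_const_one, Finset.sum_const, nsmul_eq_mul, mul_one] at h1
  rw [h1, sum_flags]
  have c0 : (#(Dn k i.val false : Finset (Node n)) : ℝ) = 2 * gam k i.val := by
    rw [card_Dn_false k i.val i.2.le]; push_cast; ring
  have c1 : (#(Dn k i.val true : Finset (Node n)) : ℝ) = 2 * ((i.val : ℝ) - gam k i.val) := by
    rw [card_Dn_true k i.val i.2.le]; push_cast [Nat.cast_sub (gam_le k i.val)]; ring
  simp only [Fintype.prod_bool, bb, if_true, Bool.false_eq_true, if_false, c0, c1]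
  ring_nf

lemma sum_Al_factor (θ : ℝ) (k : ℕ → ℕ) {n : ℕ} (i : Fin n) (hi : i.val ≠ 0)
    (hne : (Al k i).Nonempty) (τ τ' : Node n → Bool) (hτ : τ ∈ TT n k) (hτ' : τ' ∈ TT n k) :
    ∑ a ∈ Al k i, ∏ t, ((1 + θ * (sg (τ (i, t)) * sg (τ (a t)))) *
        (1 + θ * (sg (τ' (i, t)) * sg (τ' (a t))))) =
      #(Al k i) * FF (θ ^ 2) k τ τ' i := by
  have h1 := sum_Al_flags k i hi (fun t d => (1 + θ * (sg (τ (i, t)) * sg (τ d))) *
        (1 + θ * (sg (τ' (i, t)) * sg (τ' d))))
  rw [h1, sum_flags]
  have c0 : (#(Dn k i.val false : Finset (Node n)) : ℝ) = 2 * gam k i.val := by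
    rw [card_Dn_false k i.val i.2.le]; push_cast; ring
  have c1 : (#(Dn k i.val true : Finset (Node n)) : ℝ) = 2 * ((i.val : ℝ) - gam k i.val) := by
    rw [card_Dn_true k i.val i.2.le]; push_cast [Nat.cast_sub (gam_le k i.val)]; ring
  have hcard := card_Al k i hi
  have hpos : (0 : ℝ) < #(Al k i) := by
    exact_mod_cast Finset.card_pos.2 hne
  have hgl := gam_le k i.val
  have F0 : ∀ t, ∑ d ∈ Dn k i.val false, (1 + θ * (sg (τ (i, t)) * sg (τ d))) *
        (1 + θ * (sg (τ' (i, t)) * sg (τ' d))) =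
        2 * gam k i.val + θ ^ 2 * ov τ τ' (i, t) * SS τ τ' (gam k i.val) := by
    intro t
    rw [sum_Dn_factor k i.val τ τ' hτ hτ' false (by simp), c0, sum_Dn_ov]
    simp [ov]
  have F1 : k i.val ≠ 0 → ∀ t, ∑ d ∈ Dn k i.val true, (1 + θ * (sg (τ (i, t)) * sg (τ d))) *
        (1 + θ * (sg (τ' (i, t)) * sg (τ' d))) =
        2 * ((i.val : ℝ) - gam k i.val) +
          θ ^ 2 * ov τ τ' (i, t) * (SS τ τ' i.val - SS τ τ' (gam k i.val)) := by
    intro hk t
    rw [sum_Dn_factor k i.val τ τ' hτ hτ' true (fun _ => hk), c1, sum_Dn_ov]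
    simp [ov]
  simp only [Fintype.prod_bool, bb, if_true, Bool.false_eq_true, if_false, F0]
  unfold FF
  simp only [if_neg hi]
  rw [hcard] at hpos ⊢
  by_cases k0 : k i.val = 0
  · simp only [k0, if_true, OfNat.zero_ne_ofNat, zero_ne_one, if_false, add_zero] at hpos ⊢
    have hg : (gam k i.val : ℝ) ≠ 0 := by
      intro h; rw [h] at hpos; norm_num at hpos
    field_simp
  · rw [F1 k0, F1 k0]
    by_cases k1 : k i.val = 1
    · simp only [k1, one_ne_zero, if_false, if_true, OfNat.one_ne_ofNat, zero_add,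
        add_zero] at hpos ⊢
      have hg : (gam k i.val : ℝ) ≠ 0 := by
        intro h; rw [h] at hpos; norm_num at hpos
      have hg' : ((i.val : ℝ) - gam k i.val) ≠ 0 := by
        intro h; rw [h] at hpos; norm_num at hpos
      field_simp
    · by_cases k2 : k i.val = 2
      · simp only [k2, OfNat.ofNat_ne_zero, if_false, OfNat.ofNat_ne_one, if_true,
          zero_add] at hpos ⊢
        have hg' : ((i.val : ℝ) - gam k i.val) ≠ 0 := by
          intro h; rw [h] at hpos; norm_num at hpos
        field_simp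
      · simp [k0, k1, k2] at hpos

lemma sum_Par_prod {n : ℕ} (k : ℕ → ℕ) (hk : ∀ i, n ≤ i → k i = 0)
    (Φ : Fin n → (Bool → Node n) → ℝ) :
    ∑ p ∈ Par n k, ∏ i, Φ i (fun t => p (i, t)) = ∏ i, ∑ a ∈ Al k i, Φ i a := by
  rw [Finset.prod_univ_sum]
  refine Finset.sum_bij' (fun p _ => fun i t => p (i, t)) (fun x _ => fun c => x c.1 c.2)
    ?_ ?_ ?_ ?_ ?_
  · intro p hp
    rw [Fintype.mem_piFinset]
    exact (mem_Par_iff k hk p).1 hp
  · intro x hx
    rw [Fintype.mem_piFinset] at hx
    exact (mem_Par_iff k hk _).2 hx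
  · intro p _; rfl
  · intro x _; rfl
  · intro p _; rfl

lemma card_Par {n : ℕ} (k : ℕ → ℕ) (hk : ∀ i, n ≤ i → k i = 0) :
    (#(Par n k) : ℝ) = ∏ i : Fin n, (#(Al k i) : ℝ) := by
  have := sum_Par_prod k hk (fun _ _ => (1 : ℝ))
  simpa using this

lemma sum_Par_WW {n : ℕ} (θ : ℝ) (k : ℕ → ℕ) (hne : (Par n k).Nonempty)
    (τ τ' : Node n → Bool) (hτ : τ ∈ TT n k) (hτ' : τ' ∈ TT n k) :
    ∑ p ∈ Par n k, W θ τ p * W θ τ' p = #(Par n k) * ∏ i, FF (θ ^ 2) k τ τ' i := by
  obtain ⟨p0, hp0⟩ := hne
  obtain ⟨hk, _⟩ := Par_props k p0 hp0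
  have hAl : ∀ i, (Al k i).Nonempty := fun i => ⟨_, (mem_Par_iff k hk p0).1 hp0 i⟩
  have h1 : ∀ p : Node n → Node n, W θ τ p * W θ τ' p =
      ∏ i : Fin n, (fun (i : Fin n) (a : Bool → Node n) => if i.val = 0 then (1 : ℝ) else
        ∏ t, ((1 + θ * (sg (τ (i, t)) * sg (τ (a t)))) *
        (1 + θ * (sg (τ' (i, t)) * sg (τ' (a t)))))) i (fun t => p (i, t)) := by
    intro p
    unfold W
    rw [← Finset.prod_mul_distrib, Fintype.prod_prod_type]
    refine Finset.prod_congr rfl fun i _ => ?_
    by_cases hi : i.val = 0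
    · simp [hi]
    · simp [hi]
  simp_rw [h1]
  rw [sum_Par_prod k hk (fun (i : Fin n) (a : Bool → Node n) => if i.val = 0 then (1 : ℝ) else
        ∏ t, ((1 + θ * (sg (τ (i, t)) * sg (τ (a t)))) *
        (1 + θ * (sg (τ' (i, t)) * sg (τ' (a t)))))), card_Par k hk, ← Finset.prod_mul_distrib]
  refine Finset.prod_congr rfl fun i _ => ?_
  by_cases hi : i.val = 0
  · simp only [hi, if_true, Finset.sum_const, nsmul_eq_mul, mul_one, FF]
  · simp only [hi, if_false]
    exact sum_Al_factor θ k i hi (hAl i) τ τ' hτ hτ'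

end Pool.Agent.BCMRT
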