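import Mathlib
import Pool.Agent.MP_e7e4ab_pr.Product
import Pool.Agent.MP_e7e4ab_pr.Gauss

set_option autoImplicit false

open Finset

namespace Pool.Agent.BCMRT

/-! ### closeness of the current block start -/

lemma grid_gam (k : ℕ → ℕ) (g : ℕ) (hg : grid g) : gam k g = g := by
  cases g with
  | zero => rfl
  | succ g =>
    have : grid (g + 1) ∨ k g ≠ 0 := Or.inl hg
    simp only [gam, if_pos this]

lemma grid_floor (i : ℕ) (hi : 1 ≤ i) :
    grid (i - i % 2 ^ ep i) ∧ 16 ^ ep i ≤ i - i % 2 ^ ep i ∧ ep (i - i % 2 ^ ep i) = ep i := by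
  have h16 : 16 ^ ep i ≤ i := Nat.pow_log_le_self 16 (by omega)
  have hlt : i < 16 ^ (ep i + 1) := Nat.lt_pow_succ_log_self (by norm_num) i
  have hdvd : 2 ^ ep i ∣ 16 ^ ep i := by
    apply pow_dvd_pow_of_dvd
    norm_num
  have hge : 16 ^ ep i ≤ i - i % 2 ^ ep i := by
    obtain ⟨a, ha⟩ := hdvd
    have h1 : i - i % 2 ^ ep i = 2 ^ ep i * (i / 2 ^ ep i) := by
      have := Nat.div_add_mod i (2 ^ ep i)
      omega
    rw [h1, ha]
    apply Nat.mul_le_mul_left
    rw [Nat.le_div_iff_mul_le (by positivity)]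
    rw [mul_comm]
    omega
  have hep : ep (i - i % 2 ^ ep i) = ep i := by
    have h1 : ep (i - i % 2 ^ ep i) ≤ ep i := Nat.log_mono_right (Nat.sub_le _ _)
    have h2 : ep i ≤ ep (i - i % 2 ^ ep i) := by
      unfold ep
      apply Nat.le_log_of_pow_le (by norm_num)
      exact hge
    omega
  refine ⟨?_, hge, hep⟩
  unfold grid
  rw [hep]
  exact Nat.dvd_sub_mod i

lemma gam_close (k : ℕ → ℕ) (i : ℕ) (hi : 1 ≤ i) :
    i < gam k i + 2 ^ ep i ∧ 16 ^ ep i ≤ gam k i ∧ i - i % 2 ^ ep i ≤ gam k i := by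
  obtain ⟨h1, h2, _⟩ := grid_floor i hi
  have h3 : i - i % 2 ^ ep i ≤ gam k i := by
    have h4 := grid_gam k _ h1
    have h5 := gam_mono k (show i - i % 2 ^ ep i ≤ i from Nat.sub_le _ _)
    omega
  have h6 : i % 2 ^ ep i < 2 ^ ep i := Nat.mod_lt _ (by positivity)
  refine ⟨by omega, by omega, h3⟩

lemma ep_mono {i j : ℕ} (h : i ≤ j) : ep i ≤ ep j := Nat.log_mono_right h

/-! ### bounds on FF -/

lemma abs_R0_le {n : ℕ} (τ τ' : Node n → Bool) (m : ℕ) (hm : m ≤ n) :
    |SS τ τ' m / (2 * m)| ≤ 1 := by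
  have h := abs_SS_le τ τ' m hm
  rw [abs_div]
  have : |(2 * (m : ℝ))| = 2 * m := abs_of_nonneg (by positivity)
  rw [this]
  exact div_le_one_of_le₀ h (by positivity)

lemma abs_SS_sub_le {n : ℕ} (τ τ' : Node n → Bool) (g m : ℕ) (hg : g ≤ m) (hm : m ≤ n) :
    |SS τ τ' m - SS τ τ' g| ≤ 2 * ((m : ℝ) - g) := by
  rw [← SS_sub τ τ' g m hg]
  refine (Finset.abs_sum_le_sum_abs _ _).trans ?_
  have h1 : ∀ c ∈ univ.filter (fun c : Node n => g ≤ c.1.val ∧ c.1.val < m),
      |ov τ τ' c| = 1 := by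
    intro c _
    rcases ov_or τ τ' c with h | h <;> simp [h]
  rw [Finset.sum_congr rfl h1, Finset.sum_const]
  have h3 : #{c : Node n | g ≤ c.1.val ∧ c.1.val < m} + #{c : Node n | c.1.val < g} =
      #{c : Node n | c.1.val < m} := by
    rw [← Finset.card_union_of_disjoint]
    · congr 1
      ext c
      simp only [Finset.mem_union, Finset.mem_filter, Finset.mem_univ, true_and]
      omega
    · rw [Finset.disjoint_filter]
      intro c _ h1 h2
      omega
  rw [card_lt m hm, card_lt g (hg.trans hm)] at h3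
  have h4 : (#{c : Node n | g ≤ c.1.val ∧ c.1.val < m} : ℝ) + 2 * g = 2 * m := by
    exact_mod_cast h3
  simp only [nsmul_eq_mul, mul_one]
  linarith

lemma abs_R1_le {n : ℕ} (τ τ' : Node n → Bool) (g m : ℕ) (hg : g ≤ m) (hm : m ≤ n) :
    |(SS τ τ' m - SS τ τ' g) / (2 * ((m : ℝ) - g))| ≤ 1 := by
  have h := abs_SS_sub_le τ τ' g m hg hm
  have h0 : (0 : ℝ) ≤ 2 * ((m : ℝ) - g) := by
    have : (g : ℝ) ≤ m := by exact_mod_cast hg
    linarith
  rw [abs_div, abs_of_nonneg h0]
  exact div_le_one_of_le₀ h h0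

lemma one_add_nonneg {q R s : ℝ} (hq0 : 0 ≤ q) (hq1 : q ≤ 1) (hR : |R| ≤ 1)
    (hs : s = 1 ∨ s = -1) : 0 ≤ 1 + q * R * s := by
  obtain ⟨h1, h2⟩ := abs_le.1 hR
  rcases hs with rfl | rfl <;> nlinarith

lemma FF_nonneg (q : ℝ) (hq0 : 0 ≤ q) (hq1 : q ≤ 1) (k : ℕ → ℕ) {n : ℕ} (τ τ' : Node n → Bool)
    (i : Fin n) : 0 ≤ FF q k τ τ' i := by
  unfold FF
  have hR0 := abs_R0_le τ τ' (gam k i.val) ((gam_le k i.val).trans i.2.le)
  have hR1 := abs_R1_le τ τ' (gam k i.val) i.val (gam_le k i.val) i.2.le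
  have a0 := one_add_nonneg hq0 hq1 hR0 (ov_or τ τ' (i, true))
  have a1 := one_add_nonneg hq0 hq1 hR0 (ov_or τ τ' (i, false))
  have a2 := one_add_nonneg hq0 hq1 hR1 (ov_or τ τ' (i, true))
  have a3 := one_add_nonneg hq0 hq1 hR1 (ov_or τ τ' (i, false))
  simp only
  split_ifs
  · norm_num
  · exact mul_nonneg a0 a1
  · exact div_nonneg (add_nonneg (mul_nonneg a2 a1) (mul_nonneg a0 a3)) (by norm_num)
  · exact mul_nonneg a2 a3

/-- `FF` only depends on the overlaps up to time `i`. -/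
lemma FF_congr (q : ℝ) (k : ℕ → ℕ) {n : ℕ} (τ τ' τ₂ τ₂' : Node n → Bool) (i : Fin n)
    (h : ∀ c : Node n, c.1.val ≤ i.val → ov τ τ' c = ov τ₂ τ₂' c) :
    FF q k τ τ' i = FF q k τ₂ τ₂' i := by
  have hS : ∀ m, m ≤ i.val → SS τ τ' m = SS τ₂ τ₂' m := by
    intro m hm
    unfold SS
    refine Finset.sum_congr rfl fun c hc => h c ?_
    have := (Finset.mem_filter.1 hc).2
    omega
  unfold FF
  rw [hS _ (gam_le k i.val), hS _ le_rfl, h (i, true) le_rfl, h (i, false) le_rfl]

lemma SS_congr {n : ℕ} (τ τ' τ₂ τ₂' : Node n → Bool) (m : ℕ)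
    (h : ∀ c : Node n, c.1.val < m → ov τ τ' c = ov τ₂ τ₂' c) : SS τ τ' m = SS τ₂ τ₂' m := by
  unfold SS
  refine Finset.sum_congr rfl fun c hc => h c ?_
  exact (Finset.mem_filter.1 hc).2

/-- invariance of `TT` under block preserving permutations. -/
lemma sum_TT_comp {n : ℕ} (k : ℕ → ℕ) (σ : Equiv.Perm (Node n))
    (hσ : ∀ c, bs k (σ c).1.val = bs k c.1.val) (g : (Node n → Bool) → ℝ) :
    ∑ τ ∈ TT n k, g (fun c => τ (σ c)) = ∑ τ ∈ TT n k, g τ := by
  have key : ∀ (σ : Equiv.Perm (Node n)), (∀ c, bs k (σ c).1.val = bs k c.1.val) →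
      ∀ τ ∈ TT n k, (fun c => τ (σ c)) ∈ TT n k := by
    intro σ hσ τ hτ
    rw [mem_TT] at hτ ⊢
    intro b
    rw [← hτ b]
    refine Finset.sum_bij (fun c _ => σ c) ?_ (fun a _ b _ hab => σ.injective hab) ?_
      (fun c _ => rfl)
    · intro c hc
      simp only [Finset.mem_filter, Finset.mem_univ, true_and] at hc ⊢
      rw [hσ, hc]
    · intro c hc
      simp only [Finset.mem_filter, Finset.mem_univ, true_and] at hc
      refine ⟨σ.symm c, ?_, by simp⟩
      simp only [Finset.mem_filter, Finset.mem_univ, true_and]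
      rw [← hσ, Equiv.apply_symm_apply, hc]
  have hsymm : ∀ c, bs k (σ.symm c).1.val = bs k c.1.val := by
    intro c
    have := hσ (σ.symm c)
    rw [Equiv.apply_symm_apply] at this
    exact this.symm
  refine Finset.sum_bij' (fun τ _ => fun c => τ (σ c)) (fun τ _ => fun c => τ (σ.symm c))
    (key σ hσ) (key σ.symm hsymm) ?_ ?_ ?_
  · intro τ _; funext c; simp
  · intro τ _; funext c; simp
  · intro τ _; rfl

/-- **hidden block step**, for fixed `τ, τ'`. -/
lemma hidden_inner {n : ℕ} (k : ℕ → ℕ) (q lam A : ℝ) (hq0 : 0 ≤ q) (hq1 : q ≤ 1 / 32)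
    (hl0 : 0 ≤ lam) (hl1 : lam ≤ 1 / 16) (m l : ℕ) (hm : 1 ≤ m) (hl : 1 ≤ l) (hlm : l ≤ m)
    (hmn : m + l ≤ n)
    (hblk : ∀ j, m ≤ j → j < m + l → k j = 0 ∧ gam k j = m)
    (hcomp : ∀ j, j < n → (bs k j = m ↔ m ≤ j ∧ j < m + l))
    (τ τ' : Node n → Bool) (hτ : τ ∈ TT n k) (hτ' : τ' ∈ TT n k) :
    ∑ σ : Equiv.Perm {c : Node n // bs k c.1.val = m},
      (∏ i : Fin n with i.val < m + l,
        FF q k (fun c => τ (Equiv.Perm.ofSubtype σ c)) τ' i) *
        Real.exp (A + lam * (SS (fun c => τ (Equiv.Perm.ofSubtype σ c)) τ' (m + l)) ^ 2 /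
          (2 * (m + l))) ≤
      ((2 * l).factorial : ℝ) * ((∏ i : Fin n with i.val < m, FF q k τ τ' i) *
        Real.exp (A + 16 * lam * l / (2 * (m + l)) +
          (lam + 2 * q ^ 2 / (2 * m)) * (SS τ τ' m) ^ 2 / (2 * m))) := by
  classical
  set B := {c : Node n // bs k c.1.val = m} with hB
  let u : B → ℝ := fun c => sg (τ c.1)
  let v : B → ℝ := fun c => sg (τ' c.1)
  have hfil : (univ.filter fun c : Node n => bs k c.1.val = m) =
      univ.filter fun c : Node n => m ≤ c.1.val ∧ c.1.val < m + l := by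
    ext c
    simp only [Finset.mem_filter, Finset.mem_univ, true_and]
    exact hcomp c.1.val c.1.2
  have hcard : Fintype.card B = 2 * l := by
    have hcs : Fintype.card B = #{c : Node n | bs k c.1.val = m} := Fintype.card_subtype _
    rw [hcs, hfil]
    have h3 : #{c : Node n | m ≤ c.1.val ∧ c.1.val < m + l} + #{c : Node n | c.1.val < m} =
        #{c : Node n | c.1.val < m + l} := by
      rw [← Finset.card_union_of_disjoint]
      · congr 1
        ext c
        simp only [Finset.mem_union, Finset.mem_filter, Finset.mem_univ, true_and]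
        omega
      · rw [Finset.disjoint_filter]
        intro c _ h1 h2
        omega
    rw [card_lt (m + l) hmn, card_lt m (by omega)] at h3
    omega
  have hu : ∀ c, u c = 1 ∨ u c = -1 := fun c => sg_or _
  have hv : ∀ c, v c = 1 ∨ v c = -1 := fun c => sg_or _
  have hsub : ∀ f : Node n → ℝ, ∑ c : B, f c.1 = ∑ c : Node n with bs k c.1.val = m, f c := by
    intro f
    exact (Finset.sum_subtype _ (fun c => by simp) f).symm
  have hus : ∑ c, u c = 0 := by
    rw [mem_TT] at hτ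
    exact (hsub fun c => sg (τ c)).trans (hτ m)
  have hvs : ∑ c, v c = 0 := by
    rw [mem_TT] at hτ'
    exact (hsub fun c => sg (τ' c)).trans (hτ' m)
  set S := SS τ τ' m with hS
  have hSabs : |S| ≤ 2 * m := abs_SS_le τ τ' m (by omega)
  have hmain := hidden_avg hl hlm hcard u v hu hv hus hvs q lam S hq0 hq1 hl0 hl1 hSabs
  have hprod0 : 0 ≤ ∏ i : Fin n with i.val < m, FF q k τ τ' i :=
    Finset.prod_nonneg fun i _ => FF_nonneg q hq0 (by linarith) k τ τ' i
  -- rewrite each summand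
  have hterm : ∀ σ : Equiv.Perm B,
      (∏ i : Fin n with i.val < m + l,
        FF q k (fun c => τ (Equiv.Perm.ofSubtype σ c)) τ' i) *
        Real.exp (A + lam * (SS (fun c => τ (Equiv.Perm.ofSubtype σ c)) τ' (m + l)) ^ 2 /
          (2 * (m + l))) =
      ((∏ i : Fin n with i.val < m, FF q k τ τ' i) * Real.exp A) *
        ((∏ c, (1 + (q * S / (2 * m)) * (u (σ c) * v c))) *
        Real.exp (lam * (S + ∑ c, u (σ c) * v c) ^ 2 / (2 * (m + l)))) := by
    intro σ
    set τ₂ : Node n → Bool := fun c => τ (Equiv.Perm.ofSubtype σ c) with hτ₂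
    have hout : ∀ c : Node n, bs k c.1.val ≠ m → ov τ₂ τ' c = ov τ τ' c := by
      intro c hc
      unfold ov
      rw [hτ₂]
      simp only
      rw [Equiv.Perm.ofSubtype_apply_of_not_mem σ hc]
    have hin : ∀ c : B, ov τ₂ τ' c.1 = u (σ c) * v c := by
      intro c
      unfold ov
      rw [hτ₂]
      simp only
      rw [Equiv.Perm.ofSubtype_apply_coe]
    have hlow : ∀ c : Node n, c.1.val < m → ov τ₂ τ' c = ov τ τ' c := by
      intro c hc
      apply hout
      intro h
      have := (hcomp c.1.val c.1.2).1 h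
      omega
    have hSm : SS τ₂ τ' m = S := SS_congr _ _ _ _ m hlow
    have hSml : SS τ₂ τ' (m + l) = S + ∑ c, u (σ c) * v c := by
      have h1 := SS_sub τ₂ τ' m (m + l) (by omega)
      rw [hSm] at h1
      have h2 : ∑ c : Node n with m ≤ c.1.val ∧ c.1.val < m + l, ov τ₂ τ' c =
          ∑ c : B, u (σ c) * v c := by
        rw [← hfil, ← hsub]
        exact Finset.sum_congr rfl fun c _ => hin c
      linarith
    have hprodsplit : ∏ i : Fin n with i.val < m + l, FF q k τ₂ τ' i =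
        (∏ i : Fin n with i.val < m, FF q k τ₂ τ' i) *
        ∏ i : Fin n with m ≤ i.val ∧ i.val < m + l, FF q k τ₂ τ' i := by
      rw [← Finset.prod_union]
      · refine Finset.prod_congr ?_ fun _ _ => rfl
        ext i
        simp only [Finset.mem_union, Finset.mem_filter, Finset.mem_univ, true_and]
        omega
      · rw [Finset.disjoint_filter]
        intro i _ h1 h2
        omega
    have hp1 : ∏ i : Fin n with i.val < m, FF q k τ₂ τ' i =
        ∏ i : Fin n with i.val < m, FF q k τ τ' i := by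
      refine Finset.prod_congr rfl fun i hi => ?_
      have him := (Finset.mem_filter.1 hi).2
      exact FF_congr q k _ _ _ _ i (fun c hc => hlow c (by omega))
    have hp2 : ∏ i : Fin n with m ≤ i.val ∧ i.val < m + l, FF q k τ₂ τ' i =
        ∏ c : B, (1 + (q * S / (2 * m)) * (u (σ c) * v c)) := by
      have h1 : ∀ i ∈ univ.filter (fun i : Fin n => m ≤ i.val ∧ i.val < m + l),
          FF q k τ₂ τ' i = (1 + (q * S / (2 * m)) * ov τ₂ τ' (i, true)) *
            (1 + (q * S / (2 * m)) * ov τ₂ τ' (i, false)) := by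
        intro i hi
        obtain ⟨hi1, hi2⟩ := (Finset.mem_filter.1 hi).2
        obtain ⟨hk0, hg⟩ := hblk i.val hi1 hi2
        have hi0 : i.val ≠ 0 := by omega
        unfold FF
        simp only [if_neg hi0, hk0, if_true, hg, hSm]
        ring
      rw [Finset.prod_congr rfl h1]
      rw [← prod_filter_fst (fun i : Fin n => m ≤ i.val ∧ i.val < m + l)
        (fun c => 1 + (q * S / (2 * m)) * ov τ₂ τ' c)]
      rw [← hfil]
      rw [Finset.prod_subtype (univ.filter fun c : Node n => bs k c.1.val = m)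
        (p := fun c => bs k c.1.val = m) (fun c => by simp)]
      exact Finset.prod_congr rfl fun c _ => by rw [hin c]
    rw [hprodsplit, hp1, hp2, hSml, Real.exp_add]
    ring
  rw [Finset.sum_congr rfl (fun σ _ => hterm σ), ← Finset.mul_sum]
  calc _ ≤ ((∏ i : Fin n with i.val < m, FF q k τ τ' i) * Real.exp A) *
        (((2 * l).factorial : ℝ) * Real.exp (16 * lam * l / (2 * (m + l)) +
          (lam + 2 * q ^ 2 / (2 * m)) * S ^ 2 / (2 * m))) :=
        mul_le_mul_of_nonneg_left hmain (by positivity)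
    _ = ((2 * l).factorial : ℝ) * ((∏ i : Fin n with i.val < m, FF q k τ τ' i) *
        (Real.exp A * Real.exp (16 * lam * l / (2 * (m + l)) +
          (lam + 2 * q ^ 2 / (2 * m)) * S ^ 2 / (2 * m)))) := by ring
    _ = _ := by
        rw [← Real.exp_add]
        congr 3
        ring

/-- **hidden block step.** -/
lemma hidden_step {n : ℕ} (k : ℕ → ℕ) (q lam A : ℝ) (hq0 : 0 ≤ q) (hq1 : q ≤ 1 / 32)
    (hl0 : 0 ≤ lam) (hl1 : lam ≤ 1 / 16) (m l : ℕ) (hm : 1 ≤ m) (hl : 1 ≤ l) (hlm : l ≤ m)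
    (hmn : m + l ≤ n)
    (hblk : ∀ j, m ≤ j → j < m + l → k j = 0 ∧ gam k j = m)
    (hcomp : ∀ j, j < n → (bs k j = m ↔ m ≤ j ∧ j < m + l)) :
    ∑ τ ∈ TT n k, ∑ τ' ∈ TT n k, (∏ i : Fin n with i.val < m + l, FF q k τ τ' i) *
        Real.exp (A + lam * (SS τ τ' (m + l)) ^ 2 / (2 * (m + l))) ≤
      ∑ τ ∈ TT n k, ∑ τ' ∈ TT n k, (∏ i : Fin n with i.val < m, FF q k τ τ' i) *
        Real.exp (A + 16 * lam * l / (2 * (m + l)) +
          (lam + 2 * q ^ 2 / (2 * m)) * (SS τ τ' m) ^ 2 / (2 * m)) := by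
  classical
  set B := {c : Node n // bs k c.1.val = m} with hB
  have hcard : Fintype.card B = 2 * l := by
    have hcs : Fintype.card B = #{c : Node n | bs k c.1.val = m} := Fintype.card_subtype _
    rw [hcs]
    have hfil : (univ.filter fun c : Node n => bs k c.1.val = m) =
        univ.filter fun c : Node n => m ≤ c.1.val ∧ c.1.val < m + l := by
      ext c
      simp only [Finset.mem_filter, Finset.mem_univ, true_and]
      exact hcomp c.1.val c.1.2
    rw [hfil]
    have h3 : #{c : Node n | m ≤ c.1.val ∧ c.1.val < m + l} + #{c : Node n | c.1.val < m} =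
        #{c : Node n | c.1.val < m + l} := by
      rw [← Finset.card_union_of_disjoint]
      · congr 1
        ext c
        simp only [Finset.mem_union, Finset.mem_filter, Finset.mem_univ, true_and]
        omega
      · rw [Finset.disjoint_filter]
        intro c _ h1 h2
        omega
    rw [card_lt (m + l) hmn, card_lt m (by omega)] at h3
    omega
  have hfac : (0 : ℝ) < ((2 * l).factorial : ℝ) := by exact_mod_cast Nat.factorial_pos _
  refine le_of_mul_le_mul_left ?_ hfac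
  let g : (Node n → Bool) → ℝ := fun τ => ∑ τ' ∈ TT n k,
    (∏ i : Fin n with i.val < m + l, FF q k τ τ' i) *
        Real.exp (A + lam * (SS τ τ' (m + l)) ^ 2 / (2 * (m + l)))
  have h1 : ((2 * l).factorial : ℝ) * ∑ τ ∈ TT n k, g τ =
      ∑ σ : Equiv.Perm B, ∑ τ ∈ TT n k, g (fun c => τ (Equiv.Perm.ofSubtype σ c)) := by
    have h2 : ∀ σ : Equiv.Perm B, ∑ τ ∈ TT n k, g (fun c => τ (Equiv.Perm.ofSubtype σ c)) =
        ∑ τ ∈ TT n k, g τ := by
      intro σ
      refine sum_TT_comp k (Equiv.Perm.ofSubtype σ) (fun c => ?_) g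
      by_cases hc : bs k c.1.val = m
      · have := Equiv.Perm.ofSubtype_apply_of_mem σ hc
        rw [this, (σ ⟨c, hc⟩).2, hc]
      · rw [Equiv.Perm.ofSubtype_apply_of_not_mem σ hc]
    rw [Finset.sum_congr rfl (fun σ _ => h2 σ), Finset.sum_const, Finset.card_univ,
      Fintype.card_perm, hcard]
    simp
  change ((2 * l).factorial : ℝ) * ∑ τ ∈ TT n k, g τ ≤ _
  rw [h1, Finset.sum_comm, Finset.mul_sum]
  refine Finset.sum_le_sum fun τ hτ => ?_
  rw [Finset.sum_comm, Finset.mul_sum]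
  refine Finset.sum_le_sum fun τ' hτ' => ?_
  exact hidden_inner k q lam A hq0 hq1 hl0 hl1 m l hm hl hlm hmn hblk hcomp τ τ' hτ hτ'

end Pool.Agent.BCMRT
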