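import Mathlib
import Pool.Agent.MP_e7e4ab_pr.Step

set_option autoImplicit false

open Finset

namespace Pool.Agent.BCMRT

/-- common exponent estimate for special steps. -/
lemma special_exponent {m : ℕ} (hm : 1 ≤ m) (lam κ S r b : ℝ) (hl0 : 0 ≤ lam)
    (hl1 : lam ≤ 1 / 16) (hκ : 0 < κ) (hr : r ≤ (|S| + 2 * b) / m) :
    lam * (S ^ 2 + 4) / (2 * (m + 1)) + r + |4 * lam * S / (2 * (m + 1))| ≤
      9 / (4 * κ * (2 * m)) + (4 * b + 1) / (2 * m) + (lam + κ) * S ^ 2 / (2 * m) := by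
  have hmr : (1 : ℝ) ≤ m := by exact_mod_cast hm
  have habs : 0 ≤ |S| := abs_nonneg S
  have hsq : |S| ^ 2 = S ^ 2 := sq_abs S
  have h1 : lam * (S ^ 2 + 4) / (2 * (m + 1)) ≤ lam * S ^ 2 / (2 * m) + 1 / (2 * (2 * m)) := by
    have e1 : lam * (S ^ 2 + 4) / (2 * (m + 1)) ≤ lam * (S ^ 2 + 4) / (2 * m) := by
      apply div_le_div_of_nonneg_left (by positivity) (by positivity) (by linarith)
    have e2 : lam * (S ^ 2 + 4) / (2 * m) = lam * S ^ 2 / (2 * m) + lam * 4 / (2 * m) := by ring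
    have e3 : lam * 4 / (2 * m) ≤ 1 / (2 * (2 * m)) := by
      rw [div_le_div_iff₀ (by positivity) (by positivity)]
      nlinarith
    linarith
  have h2 : |4 * lam * S / (2 * (m + 1))| ≤ |S| / (2 * m) := by
    rw [abs_div, abs_mul, abs_of_nonneg (by positivity : 0 ≤ 4 * lam),
      abs_of_pos (by positivity : (0 : ℝ) < 2 * (m + 1))]
    rw [div_le_div_iff₀ (by positivity) (by positivity)]
    have : 4 * lam * |S| ≤ |S| := by nlinarith
    nlinarith
  have h3 : (|S| + 2 * b) / m = 2 * |S| / (2 * m) + 4 * b / (2 * m) := by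
    field_simp
    ring
  have h4 : 3 * |S| / (2 * m) ≤ κ * S ^ 2 / (2 * m) + 9 / (4 * κ * (2 * m)) := by
    have e1 : κ * S ^ 2 / (2 * m) + 9 / (4 * κ * (2 * m)) = (κ * |S| ^ 2 + 9 / (4 * κ)) / (2 * m) := by
      rw [hsq]
      field_simp
    rw [e1]
    apply div_le_div_of_nonneg_right _ (by positivity)
    have e2 : κ * |S| ^ 2 + 9 / (4 * κ) - 3 * |S| = (κ * |S| - 3 / 2) ^ 2 / κ := by
      field_simp
      ring
    have : 0 ≤ (κ * |S| - 3 / 2) ^ 2 / κ := by positivity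
    linarith
  have e5 : (lam + κ) * S ^ 2 / (2 * m) = lam * S ^ 2 / (2 * m) + κ * S ^ 2 / (2 * m) := by ring
  have e6 : (4 * b + 1) / (2 * m) = 4 * b / (2 * m) + 1 / (2 * m) := by ring
  have e7 : 3 * |S| / (2 * m) = 2 * |S| / (2 * m) + |S| / (2 * m) := by ring
  have e8 : 1 / (2 * (2 * (m : ℝ))) ≤ 1 / (2 * m) := by
    apply div_le_div_of_nonneg_left (by norm_num) (by positivity)
    linarith
  rw [h3] at hr
  linarith

lemma two_point {a c z : ℝ} (h2 : |c| ≤ a) :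
    (a + c) * Real.exp z + (a - c) * Real.exp (-z) ≤ 2 * (a * Real.exp |z|) := by
  obtain ⟨h3, h4⟩ := abs_le.1 h2
  have e1 : Real.exp z ≤ Real.exp |z| := Real.exp_le_exp.2 (le_abs_self z)
  have e2 : Real.exp (-z) ≤ Real.exp |z| := Real.exp_le_exp.2 (neg_le_abs z)
  nlinarith [mul_le_mul_of_nonneg_left e1 (show 0 ≤ a + c by linarith),
    mul_le_mul_of_nonneg_left e2 (show 0 ≤ a - c by linarith)]

lemma special_numeric1 {m : ℕ} (hm : 1 ≤ m) (q lam κ S b R0 R1 : ℝ) (hq0 : 0 ≤ q)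
    (hq1 : q ≤ 1 / 32) (hl0 : 0 ≤ lam)
    (hl1 : lam ≤ 1 / 16) (hκ : 0 < κ) (hb : 0 ≤ b) (h0 : |R0| ≤ 1) (h1 : |R1| ≤ 1)
    (hr : |R0| ≤ (|S| + 2 * b) / m) :
    (1 + q * R1) * (1 + q * R0) * Real.exp (lam * (S + 2) ^ 2 / (2 * (m + 1))) +
    (1 - q * R1) * (1 - q * R0) * Real.exp (lam * (S - 2) ^ 2 / (2 * (m + 1))) ≤
      2 * Real.exp (9 / (4 * κ * (2 * m)) + (4 * b + 1) / (2 * m) +
        (lam + κ) * S ^ 2 / (2 * m)) := by
  have hmr : (1 : ℝ) ≤ m := by exact_mod_cast hm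
  set z : ℝ := 4 * lam * S / (2 * (m + 1)) with hz
  have e1 : lam * (S + 2) ^ 2 / (2 * (m + 1)) = lam * (S ^ 2 + 4) / (2 * (m + 1)) + z := by
    rw [hz]; ring
  have e2 : lam * (S - 2) ^ 2 / (2 * (m + 1)) = lam * (S ^ 2 + 4) / (2 * (m + 1)) + -z := by
    rw [hz]; ring
  rw [e1, e2, Real.exp_add, Real.exp_add]
  set E := Real.exp (lam * (S ^ 2 + 4) / (2 * (m + 1))) with hE
  have hEpos : 0 < E := Real.exp_pos _
  obtain ⟨a1, a2⟩ := abs_le.1 h0
  obtain ⟨b1, b2⟩ := abs_le.1 h1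
  have hR0 : 0 ≤ |R0| := abs_nonneg _
  have hprod : |R1 * R0| ≤ |R0| := by
    rw [abs_mul]
    nlinarith
  obtain ⟨p1, p2⟩ := abs_le.1 hprod
  have hA : 0 ≤ 1 + q ^ 2 * (R1 * R0) := by nlinarith
  have hC : |q * (R1 + R0)| ≤ 1 + q ^ 2 * (R1 * R0) := by
    rw [abs_mul, abs_of_nonneg hq0]
    have : |R1 + R0| ≤ 2 := by
      refine (abs_add_le _ _).trans ?_
      linarith
    nlinarith [abs_nonneg (R1 + R0)]
  have h3 := two_point (z := z) hC
  have h4 : (1 + q * R1) * (1 + q * R0) * (E * Real.exp z) +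
      (1 - q * R1) * (1 - q * R0) * (E * Real.exp (-z)) =
      E * ((1 + q ^ 2 * (R1 * R0) + q * (R1 + R0)) * Real.exp z +
        (1 + q ^ 2 * (R1 * R0) - q * (R1 + R0)) * Real.exp (-z)) := by ring
  rw [h4]
  have h5 : 1 + q ^ 2 * (R1 * R0) ≤ Real.exp |R0| := by
    have := Real.add_one_le_exp |R0|
    have hq2 : q ^ 2 ≤ 1 := by nlinarith
    have e3 := mul_le_mul_of_nonneg_left p2 (sq_nonneg q)
    have e4 := mul_le_mul_of_nonneg_right hq2 hR0
    linarith
  calc _ ≤ E * (2 * ((1 + q ^ 2 * (R1 * R0)) * Real.exp |z|)) :=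
        mul_le_mul_of_nonneg_left h3 hEpos.le
    _ ≤ E * (2 * (Real.exp |R0| * Real.exp |z|)) := by
        apply mul_le_mul_of_nonneg_left _ hEpos.le
        apply mul_le_mul_of_nonneg_left _ (by norm_num)
        exact mul_le_mul_of_nonneg_right h5 (Real.exp_pos _).le
    _ = 2 * Real.exp (lam * (S ^ 2 + 4) / (2 * (m + 1)) + |R0| + |z|) := by
        rw [Real.exp_add, Real.exp_add]; ring
    _ ≤ _ := by
        apply mul_le_mul_of_nonneg_left _ (by norm_num)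
        apply Real.exp_le_exp.2
        exact special_exponent hm lam κ S |R0| b hl0 hl1 hκ hr

lemma special_numeric2 {m : ℕ} (hm : 1 ≤ m) (q lam κ S b R1 : ℝ) (hq0 : 0 ≤ q)
    (hq1 : q ≤ 1 / 32) (hl0 : 0 ≤ lam)
    (hl1 : lam ≤ 1 / 16) (hκ : 0 < κ) (hb : 0 ≤ b) (h1 : |R1| ≤ 1) :
    (1 + q * R1) * (1 + q * R1) * Real.exp (lam * (S + 2) ^ 2 / (2 * (m + 1))) +
    (1 - q * R1) * (1 - q * R1) * Real.exp (lam * (S - 2) ^ 2 / (2 * (m + 1))) ≤
      2 * Real.exp (9 / (4 * κ * (2 * m)) + (4 * b + 1) / (2 * m) + 1 +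
        (lam + κ) * S ^ 2 / (2 * m)) := by
  have hmr : (1 : ℝ) ≤ m := by exact_mod_cast hm
  set z : ℝ := 4 * lam * S / (2 * (m + 1)) with hz
  have e1 : lam * (S + 2) ^ 2 / (2 * (m + 1)) = lam * (S ^ 2 + 4) / (2 * (m + 1)) + z := by
    rw [hz]; ring
  have e2 : lam * (S - 2) ^ 2 / (2 * (m + 1)) = lam * (S ^ 2 + 4) / (2 * (m + 1)) + -z := by
    rw [hz]; ring
  rw [e1, e2, Real.exp_add, Real.exp_add]
  set E := Real.exp (lam * (S ^ 2 + 4) / (2 * (m + 1))) with hE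
  have hEpos : 0 < E := Real.exp_pos _
  obtain ⟨b1, b2⟩ := abs_le.1 h1
  have hR1 : 0 ≤ |R1| := abs_nonneg _
  have hA : 0 ≤ 1 + q ^ 2 * (R1 * R1) := by nlinarith [mul_self_nonneg R1, sq_nonneg q]
  have hC : |q * (R1 + R1)| ≤ 1 + q ^ 2 * (R1 * R1) := by
    rw [abs_mul, abs_of_nonneg hq0]
    have : |R1 + R1| ≤ 2 := by
      refine (abs_add_le _ _).trans ?_
      linarith
    nlinarith [abs_nonneg (R1 + R1), mul_self_nonneg R1, sq_nonneg q]
  have h3 := two_point (z := z) hC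
  have h4 : (1 + q * R1) * (1 + q * R1) * (E * Real.exp z) +
      (1 - q * R1) * (1 - q * R1) * (E * Real.exp (-z)) =
      E * ((1 + q ^ 2 * (R1 * R1) + q * (R1 + R1)) * Real.exp z +
        (1 + q ^ 2 * (R1 * R1) - q * (R1 + R1)) * Real.exp (-z)) := by ring
  rw [h4]
  have h5 : 1 + q ^ 2 * (R1 * R1) ≤ Real.exp 1 := by
    have := Real.add_one_le_exp (1 : ℝ)
    have h6 : R1 * R1 ≤ 1 := by nlinarith
    have h7 : q ^ 2 ≤ 1 := by nlinarith
    nlinarith [mul_self_nonneg R1, sq_nonneg q]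
  have h8 := special_exponent hm lam κ S 0 b hl0 hl1 hκ (by positivity)
  calc _ ≤ E * (2 * ((1 + q ^ 2 * (R1 * R1)) * Real.exp |z|)) :=
        mul_le_mul_of_nonneg_left h3 hEpos.le
    _ ≤ E * (2 * (Real.exp 1 * Real.exp |z|)) := by
        apply mul_le_mul_of_nonneg_left _ hEpos.le
        apply mul_le_mul_of_nonneg_left _ (by norm_num)
        exact mul_le_mul_of_nonneg_right h5 (Real.exp_pos _).le
    _ = 2 * Real.exp (lam * (S ^ 2 + 4) / (2 * (m + 1)) + 1 + |z|) := by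
        rw [Real.exp_add, Real.exp_add]; ring
    _ ≤ _ := by
        apply mul_le_mul_of_nonneg_left _ (by norm_num)
        apply Real.exp_le_exp.2
        linarith

/-- extra cost of a time of kind `≥ 2`. -/
noncomputable def kc (k : ℕ → ℕ) (m : ℕ) : ℝ := if k m = 1 then 0 else 1

/-- **special step**. -/
lemma special_step {n : ℕ} (k : ℕ → ℕ) (q lam A κ : ℝ) (hq0 : 0 ≤ q) (hq1 : q ≤ 1 / 32)
    (hl0 : 0 ≤ lam) (hl1 : lam ≤ 1 / 16) (hκ : 0 < κ) (m : ℕ) (hm : 1 ≤ m) (hmn : m < n)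
    (hkm : k m ≠ 0) :
    ∑ τ ∈ TT n k, ∑ τ' ∈ TT n k, (∏ i : Fin n with i.val < m + 1, FF q k τ τ' i) *
        Real.exp (A + lam * (SS τ τ' (m + 1)) ^ 2 / (2 * (m + 1))) ≤
      ∑ τ ∈ TT n k, ∑ τ' ∈ TT n k, (∏ i : Fin n with i.val < m, FF q k τ τ' i) *
        Real.exp (A + (9 / (4 * κ * (2 * m)) + (4 * 2 ^ ep m + 1) / (2 * m) + kc k m) +
          (lam + κ) * (SS τ τ' m) ^ 2 / (2 * m)) := by
  classical
  have hmr : (1 : ℝ) ≤ m := by exact_mod_cast hm
  let fm : Fin n := ⟨m, hmn⟩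
  let σ : Equiv.Perm (Node n) := Equiv.swap (fm, true) (fm, false)
  have hσ : ∀ c, bs k (σ c).1.val = bs k c.1.val := by
    intro c
    by_cases h1 : c = (fm, true)
    · rw [h1, Equiv.swap_apply_left]
    · by_cases h2 : c = (fm, false)
      · rw [h2, Equiv.swap_apply_right]
      · rw [Equiv.swap_apply_of_ne_of_ne h1 h2]
  let g : (Node n → Bool) → (Node n → Bool) → ℝ := fun τ τ' =>
    (∏ i : Fin n with i.val < m + 1, FF q k τ τ' i) *
        Real.exp (A + lam * (SS τ τ' (m + 1)) ^ 2 / (2 * (m + 1)))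
  have h1 : 2 * ∑ τ ∈ TT n k, ∑ τ' ∈ TT n k, g τ τ' =
      ∑ τ ∈ TT n k, ∑ τ' ∈ TT n k, (g τ τ' + g (fun c => τ (σ c)) τ') := by
    have h2 := sum_TT_comp k σ hσ (fun τ => ∑ τ' ∈ TT n k, g τ τ')
    rw [two_mul]
    conv_lhs => rw [← h2]
    rw [← Finset.sum_add_distrib]
    rw [Finset.sum_add_distrib, h2, ← h2, ← Finset.sum_add_distrib]
    have h3 : ∀ τ, ∑ τ' ∈ TT n k, (g τ τ' + g (fun c => τ (σ c)) τ') =
        ∑ τ' ∈ TT n k, g τ τ' + ∑ τ' ∈ TT n k, g (fun c => τ (σ c)) τ' :=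
      fun τ => Finset.sum_add_distrib
    rw [Finset.sum_congr rfl (fun τ _ => h3 τ), Finset.sum_add_distrib,
      Finset.sum_add_distrib, h2]
  refine le_of_mul_le_mul_left ?_ (show (0 : ℝ) < 2 by norm_num)
  change 2 * ∑ τ ∈ TT n k, ∑ τ' ∈ TT n k, g τ τ' ≤ _
  rw [h1, Finset.mul_sum]
  refine Finset.sum_le_sum fun τ hτ => ?_
  rw [Finset.mul_sum]
  refine Finset.sum_le_sum fun τ' hτ' => ?_
  set τ₂ : Node n → Bool := fun c => τ (σ c) with hτ₂
  set s := ov τ τ' (fm, true) with hs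
  have hkm' : k fm.val ≠ 0 := hkm
  have sp := TT_special k τ hτ fm hkm'
  have sp' := TT_special k τ' hτ' fm hkm'
  have ht : sg (τ (fm, false)) = -sg (τ (fm, true)) := by linarith
  have ht' : sg (τ' (fm, false)) = -sg (τ' (fm, true)) := by linarith
  have o1 : ov τ τ' (fm, false) = s := by
    rw [hs]; unfold ov; rw [ht, ht']; ring
  have o2 : ov τ₂ τ' (fm, true) = -s := by
    rw [hs, hτ₂]; unfold ov
    simp only [σ, Equiv.swap_apply_left]
    rw [ht]; ring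
  have o3 : ov τ₂ τ' (fm, false) = -s := by
    rw [hs, hτ₂]; unfold ov
    simp only [σ, Equiv.swap_apply_right]
    rw [ht']; ring
  have hlow : ∀ c : Node n, c.1.val < m → ov τ₂ τ' c = ov τ τ' c := by
    intro c hc
    have hne : ∀ b, c ≠ (fm, b) := by
      intro b h
      rw [h] at hc
      exact lt_irrefl _ hc
    unfold ov
    rw [hτ₂]
    simp only [σ]
    rw [Equiv.swap_apply_of_ne_of_ne (hne true) (hne false)]
  set S := SS τ τ' m with hS
  have hSm : SS τ₂ τ' m = S := SS_congr _ _ _ _ m hlow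
  have hsucc : ∀ τ₁ : Node n → Bool, SS τ₁ τ' (m + 1) =
      SS τ₁ τ' m + (ov τ₁ τ' (fm, true) + ov τ₁ τ' (fm, false)) := by
    intro τ₁
    have h2 := SS_sub τ₁ τ' m (m + 1) (by omega)
    have h3 : (univ.filter fun i : Fin n => m ≤ i.val ∧ i.val < m + 1) = {fm} := by
      ext i
      simp only [Finset.mem_filter, Finset.mem_univ, true_and, Finset.mem_singleton, Fin.ext_iff,
        fm]
      omega
    have h4 := sum_filter_fst (fun i : Fin n => m ≤ i.val ∧ i.val < m + 1)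
      (fun c => ov τ₁ τ' c)
    rw [h3, Finset.sum_singleton] at h4
    linarith
  have hS1 : SS τ τ' (m + 1) = S + 2 * s := by
    rw [hsucc, o1]; ring
  have hS2 : SS τ₂ τ' (m + 1) = S - 2 * s := by
    rw [hsucc, o2, o3, hSm]; ring
  have hprodsplit : ∀ τ₁ : Node n → Bool, ∏ i : Fin n with i.val < m + 1, FF q k τ₁ τ' i =
      (∏ i : Fin n with i.val < m, FF q k τ₁ τ' i) * FF q k τ₁ τ' fm := by
    intro τ₁
    have h3 : (univ.filter fun i : Fin n => i.val < m + 1) =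
        insert fm (univ.filter fun i : Fin n => i.val < m) := by
      ext i
      simp only [Finset.mem_filter, Finset.mem_univ, true_and, Finset.mem_insert, Fin.ext_iff, fm]
      omega
    rw [h3, Finset.prod_insert (by simp [fm]), mul_comm]
  have hp1 : ∏ i : Fin n with i.val < m, FF q k τ₂ τ' i =
      ∏ i : Fin n with i.val < m, FF q k τ τ' i := by
    refine Finset.prod_congr rfl fun i hi => ?_
    have him := (Finset.mem_filter.1 hi).2
    exact FF_congr q k _ _ _ _ i (fun c hc => hlow c (by omega))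
  set P := ∏ i : Fin n with i.val < m, FF q k τ τ' i with hP
  have hPnn : 0 ≤ P := Finset.prod_nonneg fun i _ => FF_nonneg q hq0 (by linarith) k τ τ' i
  obtain ⟨hc1, hc2, _⟩ := gam_close k m hm
  have hgl := gam_le k m
  set R0 := SS τ τ' (gam k m) / (2 * gam k m) with hR0
  set R1 := (SS τ τ' m - SS τ τ' (gam k m)) / (2 * ((m : ℝ) - gam k m)) with hR1
  have hSg : SS τ₂ τ' (gam k m) = SS τ τ' (gam k m) :=
    SS_congr _ _ _ _ _ (fun c hc => hlow c (by omega))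
  have hR0le : |R0| ≤ 1 := abs_R0_le τ τ' (gam k m) (by omega)
  have hR1le : |R1| ≤ 1 := abs_R1_le τ τ' (gam k m) m hgl hmn.le
  have hbg : 2 ^ ep m ≤ gam k m := by
    refine le_trans ?_ hc2
    exact Nat.pow_le_pow_left (by norm_num) _
  have hR0b : |R0| ≤ (|S| + 2 * (2 : ℝ) ^ ep m) / m := by
    have hg1 : (1 : ℝ) ≤ gam k m := by
      have : 1 ≤ 2 ^ ep m := Nat.one_le_two_pow
      exact_mod_cast this.trans hbg
    rw [hR0, abs_div, abs_of_pos (by positivity : (0 : ℝ) < 2 * gam k m)]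
    have e1 : |SS τ τ' (gam k m)| ≤ |S| + 2 * (2 : ℝ) ^ ep m := by
      have e2 := abs_SS_sub_le τ τ' (gam k m) m hgl hmn.le
      have e3 : |SS τ τ' (gam k m)| ≤ |S| + |SS τ τ' m - SS τ τ' (gam k m)| := by
        have e4 : SS τ τ' (gam k m) = S - (SS τ τ' m - SS τ τ' (gam k m)) := by
          rw [hS]; ring
        calc |SS τ τ' (gam k m)| = |S - (SS τ τ' m - SS τ τ' (gam k m))| := by rw [← e4]
          _ ≤ |S| + |SS τ τ' m - SS τ τ' (gam k m)| := abs_sub _ _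
      have e5 : (m : ℝ) ≤ gam k m + (2 : ℝ) ^ ep m := by exact_mod_cast hc1.le
      linarith
    have e6 : (m : ℝ) ≤ 2 * gam k m := by
      have : m ≤ 2 * gam k m := by omega
      exact_mod_cast this
    calc |SS τ τ' (gam k m)| / (2 * gam k m) ≤ (|S| + 2 * (2 : ℝ) ^ ep m) / (2 * gam k m) :=
          div_le_div_of_nonneg_right e1 (by positivity)
      _ ≤ _ := div_le_div_of_nonneg_left (by positivity) (by positivity) e6
  have hm0 : ¬ (m = 0) := by omega
  have hfmval : fm.val = m := rfl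
  have hFF1 : FF q k τ τ' fm = if k m = 1 then (1 + q * R1 * s) * (1 + q * R0 * s)
      else (1 + q * R1 * s) * (1 + q * R1 * s) := by
    unfold FF
    simp only [hfmval, if_neg hm0, if_neg hkm, o1, ← hs, ← hR0, ← hR1]
    split_ifs
    · ring
    · rfl
  have hFF2 : FF q k τ₂ τ' fm = if k m = 1 then (1 + q * R1 * (-s)) * (1 + q * R0 * (-s))
      else (1 + q * R1 * (-s)) * (1 + q * R1 * (-s)) := by
    unfold FF
    simp only [hfmval, if_neg hm0, if_neg hkm, o2, o3, hSm, hSg]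
    rw [← hR0]
    have : (S - SS τ τ' (gam k m)) / (2 * ((m : ℝ) - gam k m)) = R1 := by rw [hR1]
    rw [this]
    split_ifs
    · ring
    · rfl
  have hgoal : g τ τ' + g τ₂ τ' = P * Real.exp A *
      (FF q k τ τ' fm * Real.exp (lam * (S + 2 * s) ^ 2 / (2 * (m + 1))) +
       FF q k τ₂ τ' fm * Real.exp (lam * (S - 2 * s) ^ 2 / (2 * (m + 1)))) := by
    change (∏ i : Fin n with i.val < m + 1, FF q k τ τ' i) *
        Real.exp (A + lam * (SS τ τ' (m + 1)) ^ 2 / (2 * (m + 1))) +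
      (∏ i : Fin n with i.val < m + 1, FF q k τ₂ τ' i) *
        Real.exp (A + lam * (SS τ₂ τ' (m + 1)) ^ 2 / (2 * (m + 1))) = _
    rw [hprodsplit, hprodsplit, hp1, hS1, hS2, Real.exp_add, Real.exp_add]
    ring
  rw [hgoal]
  have hb0 : (0 : ℝ) ≤ 2 ^ ep m := by positivity
  have hmain : FF q k τ τ' fm * Real.exp (lam * (S + 2 * s) ^ 2 / (2 * (m + 1))) +
       FF q k τ₂ τ' fm * Real.exp (lam * (S - 2 * s) ^ 2 / (2 * (m + 1))) ≤
       2 * Real.exp (9 / (4 * κ * (2 * m)) + (4 * 2 ^ ep m + 1) / (2 * m) + kc k m +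
          (lam + κ) * S ^ 2 / (2 * m)) := by
    rw [hFF1, hFF2]
    unfold kc
    by_cases k1 : k m = 1
    · simp only [k1, if_true, add_zero]
      have hn := special_numeric1 hm q lam κ S (2 ^ ep m) R0 R1 hq0 hq1 hl0 hl1 hκ hb0 hR0le
        hR1le hR0b
      rcases ov_or τ τ' (fm, true) with h | h
      · rw [← hs] at h
        rw [h]
        refine le_trans (le_of_eq ?_) hn
        ring_nf
      · rw [← hs] at h
        rw [h]
        refine le_trans (le_of_eq ?_) hn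
        ring_nf
    · simp only [k1, if_false]
      have hn := special_numeric2 hm q lam κ S (2 ^ ep m) R1 hq0 hq1 hl0 hl1 hκ hb0 hR1le
      rcases ov_or τ τ' (fm, true) with h | h
      · rw [← hs] at h
        rw [h]
        refine le_trans (le_of_eq ?_) hn
        ring_nf
      · rw [← hs] at h
        rw [h]
        refine le_trans (le_of_eq ?_) hn
        ring_nf
  calc _ ≤ P * Real.exp A * (2 * Real.exp (9 / (4 * κ * (2 * m)) +
          (4 * 2 ^ ep m + 1) / (2 * m) + kc k m + (lam + κ) * S ^ 2 / (2 * m))) :=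
        mul_le_mul_of_nonneg_left hmain (by positivity)
    _ = 2 * (P * (Real.exp A * Real.exp (9 / (4 * κ * (2 * m)) +
          (4 * 2 ^ ep m + 1) / (2 * m) + kc k m + (lam + κ) * S ^ 2 / (2 * m)))) := by ring
    _ = _ := by
        rw [← Real.exp_add]
        congr 3
        ring

end Pool.Agent.BCMRT
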