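import Mathlib
import Pool.Agent.MP_e7e4ab_pr.Special

set_option autoImplicit false

open Finset

namespace Pool.Agent.BCMRT

/-- `λ`-cost of time `i`. -/
noncomputable def cc (q eps : ℝ) (k : ℕ → ℕ) (i : ℕ) : ℝ :=
  if k i ≠ 0 then eps / 4 ^ ep i else if gam k i = i then q ^ 2 / i else 0

/-- the parameter `λ` at time `m`. -/
noncomputable def lm (q eps : ℝ) (k : ℕ → ℕ) (n m : ℕ) : ℝ := ∑ i ∈ Ico m n, cc q eps k i

/-- additive cost of time `i`. -/
noncomputable def ee (q eps : ℝ) (k : ℕ → ℕ) (n i : ℕ) : ℝ :=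
  if k i ≠ 0 then
    9 / (4 * (eps / 4 ^ ep i) * (2 * i)) + (4 * 2 ^ ep i + 1) / (2 * i) + kc k i
  else 8 * lm q eps k n (i + 1) / (i + 1)

/-- accumulated additive cost. -/
noncomputable def aa (q eps : ℝ) (k : ℕ → ℕ) (n m : ℕ) : ℝ := ∑ i ∈ Ico m n, ee q eps k n i

/-- the potential at time `m`. -/
noncomputable def EE (q eps : ℝ) (k : ℕ → ℕ) (n m : ℕ) : ℝ :=
  ∑ τ ∈ TT n k, ∑ τ' ∈ TT n k, (∏ i : Fin n with i.val < m, FF q k τ τ' i) *
    Real.exp (aa q eps k n m + lm q eps k n m * (SS τ τ' m) ^ 2 / (2 * m))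

lemma cc_nonneg (q eps : ℝ) (he : 0 ≤ eps) (k : ℕ → ℕ) (i : ℕ) : 0 ≤ cc q eps k i := by
  unfold cc
  split_ifs <;> positivity

lemma lm_nonneg (q eps : ℝ) (he : 0 ≤ eps) (k : ℕ → ℕ) (n m : ℕ) : 0 ≤ lm q eps k n m :=
  Finset.sum_nonneg fun i _ => cc_nonneg q eps he k i

lemma lm_anti (q eps : ℝ) (he : 0 ≤ eps) (k : ℕ → ℕ) (n m m' : ℕ) (h : m ≤ m') :
    lm q eps k n m' ≤ lm q eps k n m := by
  refine Finset.sum_le_sum_of_subset_of_nonneg ?_ (fun i _ _ => cc_nonneg q eps he k i)
  intro i hi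
  rw [Finset.mem_Ico] at hi ⊢
  omega

lemma kc_nonneg (k : ℕ → ℕ) (m : ℕ) : 0 ≤ kc k m := by
  unfold kc; split_ifs <;> norm_num

/-- block boundaries. -/
def bdry (k : ℕ → ℕ) (n m : ℕ) : Prop := m = n ∨ k m ≠ 0 ∨ gam k m = m

lemma EE_step (q eps : ℝ) (hq0 : 0 ≤ q) (hq1 : q ≤ 1 / 32) (he : 0 < eps) (k : ℕ → ℕ) (n m : ℕ)
    (hlm : lm q eps k n 1 ≤ 1 / 16) (hm : 1 ≤ m) (hmn : m < n) (hb : bdry k n m) :
    ∃ m', m < m' ∧ m' ≤ n ∧ bdry k n m' ∧ EE q eps k n m' ≤ EE q eps k n m := by
  classical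
  have hmr : (1 : ℝ) ≤ m := by exact_mod_cast hm
  by_cases hkm : k m ≠ 0
  · -- special
    refine ⟨m + 1, by omega, by omega, Or.inr (Or.inr (gam_special k m hkm)), ?_⟩
    have h1 := special_step (n := n) k q (lm q eps k n (m + 1)) (aa q eps k n (m + 1))
      (eps / 4 ^ ep m) hq0 hq1 (lm_nonneg q eps he.le k n (m + 1))
      ((lm_anti q eps he.le k n 1 (m + 1) (by omega)).trans hlm) (by positivity) m hm hmn hkm
    have h2 : lm q eps k n m = lm q eps k n (m + 1) + eps / 4 ^ ep m := by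
      unfold lm
      rw [Finset.sum_eq_sum_Ico_succ_bot hmn]
      unfold cc
      rw [if_pos hkm]
      ring
    have h3 : aa q eps k n m = aa q eps k n (m + 1) +
        (9 / (4 * (eps / 4 ^ ep m) * (2 * m)) + (4 * 2 ^ ep m + 1) / (2 * m) + kc k m) := by
      unfold aa
      rw [Finset.sum_eq_sum_Ico_succ_bot hmn]
      conv_lhs => rw [ee, if_pos hkm]
      ring
    unfold EE
    rw [h2, h3]
    push_cast at h1 ⊢
    exact h1
  · -- hidden block
    push Not at hkm
    have hgm : gam k m = m := by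
      rcases hb with h | h | h
      · omega
      · exact absurd hkm h
      · exact h
    have hex : ∃ j, m < j ∧ bdry k n j := ⟨n, hmn, Or.inl rfl⟩
    obtain ⟨m', hm'⟩ : ∃ m', m' = Nat.find hex := ⟨_, rfl⟩
    have hspec := Nat.find_spec hex
    have hmin : ∀ j, j < m' → ¬ (m < j ∧ bdry k n j) := by
      intro j hj
      rw [hm'] at hj
      exact Nat.find_min hex hj
    rw [← hm'] at hspec
    obtain ⟨hmm', hbd'⟩ := hspec
    have hm'n : m' ≤ n := by
      by_contra h
      push Not at h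
      exact hmin n h ⟨hmn, Or.inl rfl⟩
    have hblk : ∀ j, m ≤ j → j < m' → k j = 0 ∧ gam k j = m := by
      intro j
      induction j with
      | zero => intro h; omega
      | succ j ih =>
        intro h1 h2
        rcases h1.eq_or_lt with h3 | h3
        · rw [← h3]; exact ⟨hkm, hgm⟩
        · have h4 := ih (by omega) (by omega)
          have h5 := hmin (j + 1) h2
          have h6 : ¬ bdry k n (j + 1) := fun h => h5 ⟨h3, h⟩
          unfold bdry at h6
          push Not at h6
          refine ⟨h6.2.1, ?_⟩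
          rcases gam_succ k j with h7 | h7
          · exact absurd h7 h6.2.2
          · rw [h7.1]; exact h4.2
    have hcomp : ∀ j, j < n → (bs k j = m ↔ m ≤ j ∧ j < m') := by
      intro j hj
      constructor
      · intro h
        have h1 : m ≤ j := h ▸ bs_le k j
        refine ⟨h1, ?_⟩
        by_contra hcon
        push Not at hcon
        rcases hbd' with h2 | h2 | h2
        · omega
        · rcases hcon.eq_or_lt with h3 | h3
          · rw [← h3] at h
            unfold bs at h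
            rw [if_pos h2] at h
            omega
          · have := gam_special_lt k m' j h2 h3
            have := gam_le_bs k j
            omega
        · have h3 := gam_mono k hcon
          have := gam_le_bs k j
          omega
      · rintro ⟨h1, h2⟩
        obtain ⟨h3, h4⟩ := hblk j h1 h2
        unfold bs
        rw [if_neg (by simpa using h3)]
        exact h4
    obtain ⟨l, hl⟩ : ∃ l, m' = m + l := ⟨m' - m, by omega⟩
    have hl1 : 1 ≤ l := by omega
    have hlm' : l ≤ m := by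
      have h1 := gam_close k (m' - 1) (by omega)
      have h2 := (hblk (m' - 1) (by omega) (by omega)).2
      rw [h2] at h1
      have h3 : 2 ^ ep (m' - 1) ≤ 16 ^ ep (m' - 1) := Nat.pow_le_pow_left (by norm_num) _
      omega
    refine ⟨m', hmm', hm'n, hbd', ?_⟩
    have hlmm' : lm q eps k n m' ≤ 1 / 16 :=
      (lm_anti q eps he.le k n 1 m' (by omega)).trans hlm
    have hlm0 := lm_nonneg q eps he.le k n m'
    rw [hl] at hblk hcomp
    have h1 := hidden_step (n := n) k q (lm q eps k n m') (aa q eps k n m') hq0 hq1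
      hlm0 hlmm' m l hm hl1 hlm' (by omega) hblk hcomp
    have h2 : lm q eps k n m = lm q eps k n m' + 2 * q ^ 2 / (2 * m) := by
      unfold lm
      rw [← Finset.sum_Ico_consecutive _ hmm'.le hm'n, Finset.sum_eq_sum_Ico_succ_bot hmm']
      have h3 : ∑ i ∈ Ico (m + 1) m', cc q eps k i = 0 := by
        refine Finset.sum_eq_zero fun i hi => ?_
        rw [Finset.mem_Ico] at hi
        obtain ⟨h4, h5⟩ := hblk i (by omega) (by omega)
        unfold cc
        rw [if_neg (by simpa using h4), if_neg (by omega)]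
      rw [h3]
      have h4 : cc q eps k m = 2 * q ^ 2 / (2 * m) := by
        unfold cc
        rw [if_neg (by simpa using hkm), if_pos hgm]
        field_simp
      rw [h4]
      ring
    have h3 : aa q eps k n m' + 16 * lm q eps k n m' * l / (2 * (m + l)) ≤ aa q eps k n m := by
      unfold aa
      rw [← Finset.sum_Ico_consecutive _ hmm'.le hm'n]
      have h4 : ∀ i ∈ Ico m m', 8 * lm q eps k n m' / (m + l) ≤ ee q eps k n i := by
        intro i hi
        rw [Finset.mem_Ico] at hi
        obtain ⟨h5, _⟩ := hblk i (by omega) (by omega)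
        rw [ee, if_neg (by simpa using h5)]
        have h6 : lm q eps k n m' ≤ lm q eps k n (i + 1) :=
          lm_anti q eps he.le k n (i + 1) m' (by omega)
        have h7 : ((i : ℝ) + 1) ≤ m + l := by
          have : i + 1 ≤ m + l := by omega
          exact_mod_cast this
        have h8 : (0 : ℝ) < (i : ℝ) + 1 := by positivity
        calc 8 * lm q eps k n m' / (m + l) ≤ 8 * lm q eps k n m' / (i + 1) :=
              div_le_div_of_nonneg_left (by positivity) h8 h7
          _ ≤ _ := div_le_div_of_nonneg_right (by linarith) h8.le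
      have h5 := Finset.sum_le_sum h4
      rw [Finset.sum_const, Nat.card_Ico, nsmul_eq_mul] at h5
      have h6 : ((m' - m : ℕ) : ℝ) = l := by
        rw [hl]; simp
      rw [h6] at h5
      have h7 : 16 * lm q eps k n m' * l / (2 * (m + l)) =
          l * (8 * lm q eps k n m' / (m + l)) := by
        field_simp
        ring
      linarith
    have h4 : EE q eps k n m' = ∑ τ ∈ TT n k, ∑ τ' ∈ TT n k,
        (∏ i : Fin n with i.val < m + l, FF q k τ τ' i) *
        Real.exp (aa q eps k n m' + lm q eps k n m' * (SS τ τ' (m + l)) ^ 2 / (2 * (m + l))) := by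
      unfold EE
      rw [hl]
      push_cast
      rfl
    rw [h4]
    refine h1.trans ?_
    unfold EE
    refine Finset.sum_le_sum fun τ _ => Finset.sum_le_sum fun τ' _ => ?_
    apply mul_le_mul_of_nonneg_left
    · apply Real.exp_le_exp.2
      rw [h2]
      linarith
    · exact Finset.prod_nonneg fun i _ => FF_nonneg q hq0 (by linarith) k τ τ' i

lemma EE_rec (q eps : ℝ) (hq0 : 0 ≤ q) (hq1 : q ≤ 1 / 32) (he : 0 < eps) (k : ℕ → ℕ) (n : ℕ)
    (hlm : lm q eps k n 1 ≤ 1 / 16) :
    ∀ d m, n - m = d → 1 ≤ m → m ≤ n → bdry k n m → EE q eps k n n ≤ EE q eps k n m := by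
  intro d
  induction d using Nat.strong_induction_on with
  | _ d ih =>
    intro m hd hm hmn hb
    rcases hmn.eq_or_lt with h | h
    · rw [h]
    · obtain ⟨m', h1, h2, h3, h4⟩ := EE_step q eps hq0 hq1 he k n m hlm hm h hb
      exact (ih (n - m') (by omega) m' rfl (by omega) h2 h3).trans h4

lemma grid_one : grid 1 := by
  unfold grid ep
  simp

/-- the second moment bound, in terms of the costs. -/
lemma second_moment (q eps : ℝ) (hq0 : 0 ≤ q) (hq1 : q ≤ 1 / 32) (he : 0 < eps) (k : ℕ → ℕ)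
    (n : ℕ) (hn : 1 ≤ n) (hlm : lm q eps k n 1 ≤ 1 / 16) :
    ∑ τ ∈ TT n k, ∑ τ' ∈ TT n k, ∏ i : Fin n, FF q k τ τ' i ≤
      (#(TT n k) : ℝ) ^ 2 * Real.exp (aa q eps k n 1 + 1 / 8) := by
  have h1 := EE_rec q eps hq0 hq1 he k n hlm (n - 1) 1 rfl le_rfl hn
    (Or.inr (Or.inr (grid_gam k 1 grid_one)))
  have h2 : EE q eps k n n = ∑ τ ∈ TT n k, ∑ τ' ∈ TT n k, ∏ i : Fin n, FF q k τ τ' i := by
    unfold EE aa lm
    refine Finset.sum_congr rfl fun τ _ => Finset.sum_congr rfl fun τ' _ => ?_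
    rw [Finset.Ico_self, Finset.sum_empty, Finset.sum_empty, zero_mul, zero_div, add_zero,
      Real.exp_zero, mul_one]
    refine Finset.prod_congr ?_ fun _ _ => rfl
    ext i
    simp
  rw [← h2]
  refine h1.trans ?_
  have h3 : ∀ τ ∈ TT n k, ∀ τ' ∈ TT n k, (∏ i : Fin n with i.val < 1, FF q k τ τ' i) *
      Real.exp (aa q eps k n 1 + lm q eps k n 1 * (SS τ τ' 1) ^ 2 / (2 * (1 : ℕ))) ≤
      Real.exp (aa q eps k n 1 + 1 / 8) := by
    intro τ _ τ' _
    have h4 : ∏ i : Fin n with i.val < 1, FF q k τ τ' i = 1 := by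
      refine Finset.prod_eq_one fun i hi => ?_
      have : i.val = 0 := by
        have := (Finset.mem_filter.1 hi).2
        omega
      unfold FF
      simp [this]
    rw [h4, one_mul]
    apply Real.exp_le_exp.2
    have h5 := abs_SS_le τ τ' 1 hn
    have h6 : (SS τ τ' 1) ^ 2 ≤ 4 := by
      rw [← sq_abs]
      have := abs_nonneg (SS τ τ' 1)
      push_cast at h5
      nlinarith
    have h7 := lm_nonneg q eps he.le k n 1
    push_cast
    have h8 : lm q eps k n 1 * (SS τ τ' 1) ^ 2 / (2 * 1) ≤ 1 / 8 := by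
      have : lm q eps k n 1 * (SS τ τ' 1) ^ 2 ≤ 1 / 16 * 4 :=
        mul_le_mul hlm h6 (by positivity) (by norm_num)
      linarith
    linarith
  calc EE q eps k n 1 ≤ ∑ τ ∈ TT n k, ∑ τ' ∈ TT n k, Real.exp (aa q eps k n 1 + 1 / 8) :=
        Finset.sum_le_sum fun τ hτ => Finset.sum_le_sum fun τ' hτ' => h3 τ hτ τ' hτ'
    _ = _ := by
        rw [Finset.sum_const, Finset.sum_const, nsmul_eq_mul, nsmul_eq_mul]
        ring

end Pool.Agent.BCMRT
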