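import Mathlib
import Pool.Agent.MP_e7e4ab_pr.Recursion

set_option autoImplicit false

open Finset

namespace Pool.Agent.BCMRT

lemma ep_of_mem (r i : ℕ) (hi : i ∈ Ico (16 ^ r) (16 ^ (r + 1))) : ep i = r := by
  rw [Finset.mem_Ico] at hi
  unfold ep
  exact (Nat.log_eq_iff (Or.inr ⟨by norm_num, by
    have : 0 < 16 ^ r := by positivity
    omega⟩)).2 hi

lemma pow16_ep_le (i : ℕ) (hi : 1 ≤ i) : (16 : ℝ) ^ ep i ≤ i := by
  have : 16 ^ ep i ≤ i := Nat.pow_log_le_self 16 (by omega)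
  exact_mod_cast this

/-- geometric sum bound. -/
lemma geom_le (ρ : ℝ) (h0 : 0 ≤ ρ) (h1 : ρ < 1) (R : ℕ) :
    ∑ r ∈ range R, ρ ^ r ≤ 1 / (1 - ρ) := by
  have h3 : (ρ ^ R - 1) / (ρ - 1) = (1 - ρ ^ R) / (1 - ρ) := by
    rw [← neg_div_neg_eq]
    congr 1 <;> ring
  rw [geom_sum_eq h1.ne, h3]
  apply div_le_div_of_nonneg_right _ (by linarith)
  have : 0 ≤ ρ ^ R := pow_nonneg h0 R
  linarith

/-- sums over epochs. -/
lemma epoch_sum (f : ℕ → ℝ) (hf : ∀ i, 0 ≤ f i) (ρ K : ℝ) (h0 : 0 ≤ ρ) (h1 : ρ < 1)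
    (hK : 0 ≤ K)
    (h : ∀ r, ∑ i ∈ Ico (16 ^ r) (16 ^ (r + 1)), f i ≤ K * ρ ^ r) (n : ℕ) :
    ∑ i ∈ Ico 1 n, f i ≤ K * (1 / (1 - ρ)) := by
  have h2 : ∀ R : ℕ, ∑ i ∈ Ico 1 (16 ^ R), f i ≤ K * ∑ r ∈ range R, ρ ^ r := by
    intro R
    induction R with
    | zero => simp
    | succ R ih =>
      rw [← Finset.sum_Ico_consecutive f (m := 1) (n := 16 ^ R) (k := 16 ^ (R + 1))
        (Nat.one_le_pow _ _ (by norm_num)) (Nat.pow_le_pow_right (by norm_num) (by omega)),
        Finset.sum_range_succ, mul_add]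
      exact add_le_add ih (h R)
  have h3 : n ≤ 16 ^ n := (Nat.lt_pow_self (by norm_num)).le
  calc ∑ i ∈ Ico 1 n, f i ≤ ∑ i ∈ Ico 1 (16 ^ n), f i := by
        refine Finset.sum_le_sum_of_subset_of_nonneg ?_ (fun i _ _ => hf i)
        intro i hi
        rw [Finset.mem_Ico] at hi ⊢
        omega
    _ ≤ K * ∑ r ∈ range n, ρ ^ r := h2 n
    _ ≤ _ := mul_le_mul_of_nonneg_left (geom_le ρ h0 h1 n) hK

lemma harmonic_epoch (r : ℕ) :
    ∑ i ∈ Ico (16 ^ r : ℕ) (16 ^ (r + 1)), (1 / (i : ℝ)) ≤ 15 := by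
  have h1 : ∀ i ∈ Ico (16 ^ r : ℕ) (16 ^ (r + 1)), (1 / (i : ℝ)) ≤ 1 / (16 : ℝ) ^ r := by
    intro i hi
    rw [Finset.mem_Ico] at hi
    apply one_div_le_one_div_of_le (by positivity)
    exact_mod_cast hi.1
  refine (Finset.sum_le_sum h1).trans ?_
  rw [Finset.sum_const, Nat.card_Ico, nsmul_eq_mul]
  have h2 : ((16 ^ (r + 1) - 16 ^ r : ℕ) : ℝ) = 15 * 16 ^ r := by
    rw [Nat.cast_sub (Nat.pow_le_pow_right (by norm_num) (by omega))]
    push_cast
    ring
  rw [h2]
  have : (16 : ℝ) ^ r ≠ 0 := by positivity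
  field_simp
  exact le_rfl

/-- `Σ ρ^{ep i} / i`. -/
lemma sum_rho (ρ : ℝ) (h0 : 0 ≤ ρ) (h1 : ρ < 1) (n : ℕ) :
    ∑ i ∈ Ico 1 n, ρ ^ ep i / (i : ℝ) ≤ 15 * (1 / (1 - ρ)) := by
  refine epoch_sum _ (fun i => by positivity) ρ 15 h0 h1 (by norm_num) ?_ n
  intro r
  have h2 : ∀ i ∈ Ico (16 ^ r) (16 ^ (r + 1)), ρ ^ ep i / (i : ℝ) = ρ ^ r * (1 / (i : ℝ)) := by
    intro i hi
    rw [ep_of_mem r i hi]
    ring
  rw [Finset.sum_congr rfl h2, ← Finset.mul_sum, mul_comm]
  exact mul_le_mul_of_nonneg_right (harmonic_epoch r) (by positivity)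

/-- the sum over grid points. -/
lemma sum_grid (n : ℕ) :
    ∑ i ∈ Ico 1 n, (if grid i then (3 / 2 : ℝ) ^ ep i / (i : ℝ) else 0) ≤ 60 := by
  have h := epoch_sum (fun i => if grid i then (3 / 2 : ℝ) ^ ep i / (i : ℝ) else 0)
    (fun i => by split_ifs <;> positivity) (3 / 4) 15 (by norm_num) (by norm_num) (by norm_num)
    ?_ n
  · refine h.trans (by norm_num)
  intro r
  rw [← Finset.sum_filter]
  have h2 : ∀ i ∈ (Ico (16 ^ r) (16 ^ (r + 1))).filter grid,
      (3 / 2 : ℝ) ^ ep i / (i : ℝ) ≤ (3 / 2 : ℝ) ^ r / 16 ^ r := by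
    intro i hi
    rw [Finset.mem_filter] at hi
    rw [ep_of_mem r i hi.1]
    apply div_le_div_of_nonneg_left (by positivity) (by positivity)
    have := (Finset.mem_Ico.1 hi.1).1
    exact_mod_cast this
  refine (Finset.sum_le_sum h2).trans ?_
  rw [Finset.sum_const, nsmul_eq_mul]
  have h3 : #((Ico (16 ^ r) (16 ^ (r + 1))).filter grid) ≤ 15 * 8 ^ r := by
    have h4 : #((Ico (16 ^ r) (16 ^ (r + 1))).filter grid) ≤ #(Ico (8 ^ r) (16 * 8 ^ r)) := by
      refine Finset.card_le_card_of_injOn (fun i => i / 2 ^ r) ?_ ?_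
      · intro i hi
        rw [Finset.mem_coe, Finset.mem_filter] at hi
        obtain ⟨h5, h6⟩ := hi
        have h7 := ep_of_mem r i h5
        unfold grid at h6
        rw [h7] at h6
        obtain ⟨a, ha⟩ := h6
        rw [Finset.mem_Ico] at h5
        have h8 : i / 2 ^ r = a := by
          rw [ha, Nat.mul_div_cancel_left a (by positivity)]
        simp only [Finset.coe_Ico, Set.mem_Ico]
        rw [h8]
        have h9 : (16 : ℕ) ^ r = 2 ^ r * 8 ^ r := by
          rw [← mul_pow]; norm_num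
        have h10 : (16 : ℕ) ^ (r + 1) = 2 ^ r * (16 * 8 ^ r) := by
          rw [pow_succ, h9]; ring
        rw [ha, h9, h10] at h5
        have hpos : 0 < 2 ^ r := by positivity
        exact ⟨Nat.le_of_mul_le_mul_left h5.1 hpos, Nat.lt_of_mul_lt_mul_left h5.2⟩
      · intro i hi j hj hij
        rw [Finset.mem_coe, Finset.mem_filter] at hi hj
        have hi2 := hi.2
        have hj2 := hj.2
        unfold grid at hi2 hj2
        rw [ep_of_mem r i hi.1] at hi2
        rw [ep_of_mem r j hj.1] at hj2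
        simp only at hij
        rw [← Nat.div_mul_cancel hi2, ← Nat.div_mul_cancel hj2, hij]
    rw [Nat.card_Ico] at h4
    omega
  have h4 : (#((Ico (16 ^ r) (16 ^ (r + 1))).filter grid) : ℝ) ≤ 15 * 8 ^ r := by
    exact_mod_cast h3
  calc (#((Ico (16 ^ r) (16 ^ (r + 1))).filter grid) : ℝ) * ((3 / 2) ^ r / 16 ^ r)
      ≤ (15 * 8 ^ r) * ((3 / 2) ^ r / 16 ^ r) := mul_le_mul_of_nonneg_right h4 (by positivity)
    _ = 15 * (3 / 4) ^ r := by
        have : (3 / 4 : ℝ) ^ r = 8 ^ r * ((3 / 2) ^ r / 16 ^ r) := by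
          rw [← div_pow, ← mul_pow]
          norm_num
        rw [this]
        ring

/-- cost of the special times. -/
noncomputable def zc (k : ℕ → ℕ) (i : ℕ) : ℝ := if k i ≠ 0 then (3 / 8) ^ ep i + kc k i else 0

/-- total cost of the special times. -/
noncomputable def ZZ (k : ℕ → ℕ) (n : ℕ) : ℝ := ∑ i ∈ Ico 1 n, zc k i

lemma zc_nonneg (k : ℕ → ℕ) (i : ℕ) : 0 ≤ zc k i := by
  unfold zc
  split_ifs
  · have := kc_nonneg k i
    positivity
  · exact le_rfl

lemma ZZ_nonneg (k : ℕ → ℕ) (n : ℕ) : 0 ≤ ZZ k n := Finset.sum_nonneg fun i _ => zc_nonneg k i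

/-- weighted sum of the `λ`-costs. -/
noncomputable def YY (q eps : ℝ) (k : ℕ → ℕ) (n : ℕ) : ℝ :=
  ∑ i ∈ Ico 1 n, cc q eps k i * (3 / 2) ^ ep i

lemma lm_le_YY (q eps : ℝ) (he : 0 ≤ eps) (k : ℕ → ℕ) (n m : ℕ) (hm : 1 ≤ m) :
    lm q eps k n m * (3 / 2) ^ ep m ≤ YY q eps k n := by
  unfold lm YY
  rw [Finset.sum_mul]
  calc ∑ i ∈ Ico m n, cc q eps k i * (3 / 2) ^ ep m
      ≤ ∑ i ∈ Ico m n, cc q eps k i * (3 / 2) ^ ep i := by
        refine Finset.sum_le_sum fun i hi => ?_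
        apply mul_le_mul_of_nonneg_left _ (cc_nonneg q eps he k i)
        apply pow_le_pow_right₀ (by norm_num)
        exact ep_mono (Finset.mem_Ico.1 hi).1
    _ ≤ _ := by
        refine Finset.sum_le_sum_of_subset_of_nonneg ?_ (fun i _ _ => ?_)
        · intro i hi
          rw [Finset.mem_Ico] at hi ⊢
          omega
        · exact mul_nonneg (cc_nonneg q eps he k i) (by positivity)

lemma YY_le (q eps : ℝ) (he : 0 ≤ eps) (k : ℕ → ℕ) (n : ℕ) :
    YY q eps k n ≤ q ^ 2 * (60 + ZZ k n) + eps * ZZ k n := by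
  have h1 : ∀ i ∈ Ico 1 n, cc q eps k i * (3 / 2) ^ ep i ≤
      q ^ 2 * (if grid i then (3 / 2 : ℝ) ^ ep i / (i : ℝ) else 0) +
      q ^ 2 * (if 2 ≤ i then zc k (i - 1) else 0) + eps * zc k i := by
    intro i hi
    rw [Finset.mem_Ico] at hi
    have hz := zc_nonneg k i
    have hz' : 0 ≤ (if 2 ≤ i then zc k (i - 1) else 0) := by
      split_ifs
      · exact zc_nonneg k _
      · exact le_rfl
    have hg : 0 ≤ (if grid i then (3 / 2 : ℝ) ^ ep i / (i : ℝ) else 0) := by
      split_ifs <;> positivity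
    have hir : (0 : ℝ) < i := by exact_mod_cast hi.1
    unfold cc
    split_ifs with a b c d
    · -- special, grid, 2 ≤ i
      have e1 : eps / 4 ^ ep i * (3 / 2) ^ ep i ≤ eps * zc k i := by
        unfold zc
        rw [if_pos a, div_mul_eq_mul_div, mul_div_assoc, ← div_pow]
        apply mul_le_mul_of_nonneg_left _ he
        have := kc_nonneg k i
        norm_num
        exact this
      have e2 : 0 ≤ q ^ 2 * ((3 / 2) ^ ep i / (i : ℝ)) := by positivity
      have e3 : 0 ≤ q ^ 2 * zc k (i - 1) := mul_nonneg (sq_nonneg q) (zc_nonneg k _)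
      linarith
    · have e1 : eps / 4 ^ ep i * (3 / 2) ^ ep i ≤ eps * zc k i := by
        unfold zc
        rw [if_pos a, div_mul_eq_mul_div, mul_div_assoc, ← div_pow]
        apply mul_le_mul_of_nonneg_left _ he
        have := kc_nonneg k i
        norm_num
        exact this
      have e2 : 0 ≤ q ^ 2 * ((3 / 2) ^ ep i / (i : ℝ)) := by positivity
      linarith
    · have e1 : eps / 4 ^ ep i * (3 / 2) ^ ep i ≤ eps * zc k i := by
        unfold zc
        rw [if_pos a, div_mul_eq_mul_div, mul_div_assoc, ← div_pow]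
        apply mul_le_mul_of_nonneg_left _ he
        have := kc_nonneg k i
        norm_num
        exact this
      have e3 : 0 ≤ q ^ 2 * zc k (i - 1) := mul_nonneg (sq_nonneg q) (zc_nonneg k _)
      linarith
    · have e1 : eps / 4 ^ ep i * (3 / 2) ^ ep i ≤ eps * zc k i := by
        unfold zc
        rw [if_pos a, div_mul_eq_mul_div, mul_div_assoc, ← div_pow]
        apply mul_le_mul_of_nonneg_left _ he
        have := kc_nonneg k i
        norm_num
        exact this
      linarith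
    · -- hidden start, grid
      have e3 : 0 ≤ q ^ 2 * zc k (i - 1) := mul_nonneg (sq_nonneg q) (zc_nonneg k _)
      have e4 : 0 ≤ eps * zc k i := mul_nonneg he hz
      have e5 : q ^ 2 / (i : ℝ) * (3 / 2) ^ ep i = q ^ 2 * ((3 / 2) ^ ep i / (i : ℝ)) := by ring
      linarith
    · have e4 : 0 ≤ eps * zc k i := mul_nonneg he hz
      have e5 : q ^ 2 / (i : ℝ) * (3 / 2) ^ ep i = q ^ 2 * ((3 / 2) ^ ep i / (i : ℝ)) := by ring
      linarith
    · -- hidden start, not grid, 2 ≤ i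
      rename_i hngrid h2i
      obtain ⟨j, rfl⟩ : ∃ j, i = j + 1 := ⟨i - 1, by omega⟩
      have hkj : k j ≠ 0 := by
        intro hkj
        have hne : ¬ (grid (j + 1) ∨ k j ≠ 0) := by
          push Not; exact ⟨hngrid, hkj⟩
        have h3 : gam k (j + 1) = gam k j := by simp only [gam, if_neg hne]
        have h4 := gam_le k j
        omega
      have e4 : 0 ≤ eps * zc k (j + 1) := mul_nonneg he hz
      simp only [Nat.add_sub_cancel]
      have e6 : (3 / 2 : ℝ) ^ ep (j + 1) / ((j + 1 : ℕ) : ℝ) ≤ zc k j := by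
        unfold zc
        rw [if_pos hkj]
        have e7 := pow16_ep_le (j + 1) (by omega)
        have e8 : (3 / 2 : ℝ) ^ ep (j + 1) / ((j + 1 : ℕ) : ℝ) ≤
            (3 / 2 : ℝ) ^ ep (j + 1) / 16 ^ ep (j + 1) :=
          div_le_div_of_nonneg_left (by positivity) (by positivity) e7
        rw [← div_pow] at e8
        have e9 : ((3 / 2 : ℝ) / 16) ^ ep (j + 1) ≤ (3 / 8 : ℝ) ^ ep (j + 1) :=
          pow_le_pow_left₀ (by norm_num) (by norm_num) _
        have e10 : (3 / 8 : ℝ) ^ ep (j + 1) ≤ (3 / 8 : ℝ) ^ ep j :=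
          pow_le_pow_of_le_one (by norm_num) (by norm_num) (ep_mono (by omega))
        have := kc_nonneg k j
        linarith
      have e11 : q ^ 2 / ((j + 1 : ℕ) : ℝ) * (3 / 2) ^ ep (j + 1) =
          q ^ 2 * ((3 / 2) ^ ep (j + 1) / ((j + 1 : ℕ) : ℝ)) := by ring
      have e12 := mul_le_mul_of_nonneg_left e6 (sq_nonneg q)
      rw [e11]
      linarith
    · -- hidden start, not grid, i < 2
      rename_i hngrid h2i
      have : i = 1 := by omega
      subst this
      exact absurd grid_one hngrid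
    · have e2 : 0 ≤ q ^ 2 * ((3 / 2) ^ ep i / (i : ℝ)) := by positivity
      have e3 : 0 ≤ q ^ 2 * zc k (i - 1) := mul_nonneg (sq_nonneg q) (zc_nonneg k _)
      have e4 : 0 ≤ eps * zc k i := mul_nonneg he hz
      linarith
    · have e2 : 0 ≤ q ^ 2 * ((3 / 2) ^ ep i / (i : ℝ)) := by positivity
      have e4 : 0 ≤ eps * zc k i := mul_nonneg he hz
      linarith
    · have e3 : 0 ≤ q ^ 2 * zc k (i - 1) := mul_nonneg (sq_nonneg q) (zc_nonneg k _)
      have e4 : 0 ≤ eps * zc k i := mul_nonneg he hz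
      linarith
    · have e4 : 0 ≤ eps * zc k i := mul_nonneg he hz
      linarith
  unfold YY
  refine (Finset.sum_le_sum h1).trans ?_
  rw [Finset.sum_add_distrib, Finset.sum_add_distrib, ← Finset.mul_sum, ← Finset.mul_sum,
    ← Finset.mul_sum]
  have h2 := sum_grid n
  have h3 : ∑ i ∈ Ico 1 n, (if 2 ≤ i then zc k (i - 1) else 0) ≤ ZZ k n := by
    rw [← Finset.sum_filter]
    unfold ZZ
    have h4 : (Ico 1 n).filter (fun i => 2 ≤ i) = Ico 2 n := by
      ext i
      simp only [Finset.mem_filter, Finset.mem_Ico]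
      omega
    rw [h4]
    have h5 : ∑ i ∈ Ico 2 n, zc k (i - 1) = ∑ i ∈ Ico 1 (n - 1), zc k i := by
      rcases Nat.lt_or_ge n 2 with h6 | h6
      · have e1 : Ico 2 n = ∅ := Finset.Ico_eq_empty (by omega)
        have e2 : Ico 1 (n - 1) = ∅ := Finset.Ico_eq_empty (by omega)
        rw [e1, e2]; simp
      · have h7 := Finset.sum_Ico_add' (fun i => zc k (i - 1)) 1 (n - 1) 1
        have h8 : n - 1 + 1 = n := by omega
        rw [h8] at h7
        rw [← h7]
        refine Finset.sum_congr rfl fun i _ => by simp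
    rw [h5]
    refine Finset.sum_le_sum_of_subset_of_nonneg ?_ (fun i _ _ => zc_nonneg k i)
    intro i hi
    rw [Finset.mem_Ico] at hi ⊢
    omega
  have h4 : ∑ i ∈ Ico 1 n, zc k i = ZZ k n := rfl
  rw [h4]
  have h5 := mul_le_mul_of_nonneg_left h2 (sq_nonneg q)
  have h6 := mul_le_mul_of_nonneg_left h3 (sq_nonneg q)
  linarith

lemma aa_le (q eps : ℝ) (he : 0 < eps) (k : ℕ → ℕ) (n : ℕ) :
    aa q eps k n 1 ≤ (9 / (8 * eps) + 5 / 2) * ZZ k n + 8 * YY q eps k n * 45 := by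
  have hY : 0 ≤ YY q eps k n :=
    Finset.sum_nonneg fun i _ => mul_nonneg (cc_nonneg q eps he.le k i) (by positivity)
  have h1 : ∀ i ∈ Ico 1 n, ee q eps k n i ≤ (9 / (8 * eps) + 5 / 2) * zc k i +
      8 * YY q eps k n * ((2 / 3) ^ ep i / (i : ℝ)) := by
    intro i hi
    rw [Finset.mem_Ico] at hi
    have hir : (0 : ℝ) < i := by exact_mod_cast hi.1
    have h16 := pow16_ep_le i hi.1
    unfold ee
    split_ifs with a
    · have h2 : 0 ≤ 8 * YY q eps k n * ((2 / 3) ^ ep i / (i : ℝ)) := by positivity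
      have h3 : 9 / (4 * (eps / 4 ^ ep i) * (2 * i)) ≤ 9 / (8 * eps) * (3 / 8) ^ ep i := by
        have e1 : 9 / (4 * (eps / 4 ^ ep i) * (2 * (i : ℝ))) =
            9 / (8 * eps) * (4 ^ ep i / i) := by
          field_simp
          ring
        rw [e1]
        apply mul_le_mul_of_nonneg_left _ (by positivity)
        calc (4 : ℝ) ^ ep i / i ≤ 4 ^ ep i / 16 ^ ep i :=
              div_le_div_of_nonneg_left (by positivity) (by positivity) h16
          _ = (1 / 4) ^ ep i := by rw [← div_pow]; norm_num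
          _ ≤ (3 / 8) ^ ep i := pow_le_pow_left₀ (by norm_num) (by norm_num) _
      have h4 : (4 * 2 ^ ep i + 1) / (2 * (i : ℝ)) ≤ 5 / 2 * (3 / 8) ^ ep i := by
        have e1 : (1 : ℝ) ≤ 2 ^ ep i := one_le_pow₀ (by norm_num)
        calc (4 * 2 ^ ep i + 1) / (2 * (i : ℝ)) ≤ (5 * 2 ^ ep i) / (2 * (i : ℝ)) :=
              div_le_div_of_nonneg_right (by linarith) (by positivity)
          _ = 5 / 2 * (2 ^ ep i / i) := by field_simp
          _ ≤ 5 / 2 * (3 / 8) ^ ep i := by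
              apply mul_le_mul_of_nonneg_left _ (by norm_num)
              calc (2 : ℝ) ^ ep i / i ≤ 2 ^ ep i / 16 ^ ep i :=
                    div_le_div_of_nonneg_left (by positivity) (by positivity) h16
                _ = (1 / 8) ^ ep i := by rw [← div_pow]; norm_num
                _ ≤ (3 / 8) ^ ep i := pow_le_pow_left₀ (by norm_num) (by norm_num) _
      have h5 : zc k i = (3 / 8) ^ ep i + kc k i := by unfold zc; rw [if_pos a]
      rw [h5]
      have h6 : kc k i ≤ (9 / (8 * eps) + 5 / 2) * kc k i := by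
        have e1 : 0 ≤ 9 / (8 * eps) := by positivity
        have := kc_nonneg k i
        nlinarith
      have h7 : (9 / (8 * eps) + 5 / 2) * ((3 / 8) ^ ep i + kc k i) =
          9 / (8 * eps) * (3 / 8) ^ ep i + 5 / 2 * (3 / 8) ^ ep i +
            (9 / (8 * eps) + 5 / 2) * kc k i := by ring
      rw [h7]
      linarith
    · have h2 : 0 ≤ (9 / (8 * eps) + 5 / 2) * zc k i := by
        have := zc_nonneg k i
        positivity
      have h3 := lm_le_YY q eps he.le k n (i + 1) (by omega)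
      have h4 : lm q eps k n (i + 1) ≤ YY q eps k n * (2 / 3) ^ ep i := by
        have e1 : lm q eps k n (i + 1) * (3 / 2) ^ ep i ≤ YY q eps k n := by
          refine le_trans ?_ h3
          apply mul_le_mul_of_nonneg_left _ (lm_nonneg q eps he.le k n (i + 1))
          apply pow_le_pow_right₀ (by norm_num)
          exact ep_mono (by omega)
        have e2 : (lm q eps k n (i + 1) * (3 / 2) ^ ep i) * (2 / 3) ^ ep i ≤
            YY q eps k n * (2 / 3) ^ ep i := mul_le_mul_of_nonneg_right e1 (by positivity)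
        have e3 : (lm q eps k n (i + 1) * (3 / 2) ^ ep i) * (2 / 3) ^ ep i =
            lm q eps k n (i + 1) := by
          rw [mul_assoc, ← mul_pow]
          norm_num
        linarith
      have h5 : 8 * lm q eps k n (i + 1) / ((i : ℝ) + 1) ≤
          8 * YY q eps k n * ((2 / 3) ^ ep i / (i : ℝ)) := by
        calc 8 * lm q eps k n (i + 1) / ((i : ℝ) + 1) ≤ 8 * lm q eps k n (i + 1) / (i : ℝ) := by
              apply div_le_div_of_nonneg_left _ hir (by linarith)
              have := lm_nonneg q eps he.le k n (i + 1)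
              positivity
          _ ≤ 8 * (YY q eps k n * (2 / 3) ^ ep i) / (i : ℝ) := by
              apply div_le_div_of_nonneg_right _ hir.le
              linarith
          _ = _ := by ring
      linarith
  unfold aa
  refine (Finset.sum_le_sum h1).trans ?_
  rw [Finset.sum_add_distrib, ← Finset.mul_sum, ← Finset.mul_sum]
  have h2 := sum_rho (2 / 3) (by norm_num) (by norm_num) n
  have h3 : (15 : ℝ) * (1 / (1 - 2 / 3)) = 45 := by norm_num
  rw [h3] at h2
  have h4 := mul_le_mul_of_nonneg_left h2 (show 0 ≤ 8 * YY q eps k n by positivity)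
  have h5 : ∑ i ∈ Ico 1 n, zc k i = ZZ k n := rfl
  rw [h5]
  linarith

/-- the constant in the second moment bound. -/
noncomputable def CC : ℝ := Real.exp ((9 / (8 * (1 / 20000)) + 5 / 2) * 280 + 8 * (1 / 16) * 45 + 1 / 8)

lemma CC_pos : 0 < CC := Real.exp_pos _

lemma one_le_CC : 1 ≤ CC := by
  unfold CC
  rw [Real.one_le_exp_iff]
  norm_num

/-- **second moment bound** for classes with small cost. -/
lemma second_moment_bound (k : ℕ → ℕ) (n : ℕ) (hn : 1 ≤ n) (hZ : ZZ k n ≤ 280) :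
    ∑ τ ∈ TT n k, ∑ τ' ∈ TT n k, ∏ i : Fin n, FF ((1 / 10 : ℝ) ^ 2) k τ τ' i ≤
      (#(TT n k) : ℝ) ^ 2 * CC := by
  have hZ0 := ZZ_nonneg k n
  have hY := YY_le ((1 / 10 : ℝ) ^ 2) (1 / 20000) (by norm_num) k n
  have hY' : YY ((1 / 10 : ℝ) ^ 2) (1 / 20000) k n ≤ 1 / 16 := by
    refine hY.trans ?_
    nlinarith
  have hlm : lm ((1 / 10 : ℝ) ^ 2) (1 / 20000) k n 1 ≤ 1 / 16 := by
    have h1 := lm_le_YY ((1 / 10 : ℝ) ^ 2) (1 / 20000) (by norm_num) k n 1 le_rfl
    have h2 : ep 1 = 0 := by unfold ep; simp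
    rw [h2, pow_zero, mul_one] at h1
    exact h1.trans hY'
  refine (second_moment ((1 / 10 : ℝ) ^ 2) (1 / 20000) (by norm_num) (by norm_num) (by norm_num)
    k n hn hlm).trans ?_
  apply mul_le_mul_of_nonneg_left _ (by positivity)
  unfold CC
  apply Real.exp_le_exp.2
  have h1 := aa_le ((1 / 10 : ℝ) ^ 2) (1 / 20000) (by norm_num) k n
  have h2 : (9 / (8 * (1 / 20000)) + 5 / 2 : ℝ) * ZZ k n ≤
      (9 / (8 * (1 / 20000)) + 5 / 2 : ℝ) * 280 :=
    mul_le_mul_of_nonneg_left hZ (by norm_num)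
  linarith

end Pool.Agent.BCMRT
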