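import Mathlib
import Pool.Agent.MP_e7e4ab_pr.Sums

set_option autoImplicit false

open Finset

namespace Pool.Agent.BCMRT

/-! ### expectations under the product measure -/

lemma parentProb_nonneg {n : ℕ} (q : ℝ) (h0 : 0 ≤ q) (h1 : q ≤ 1) (c d : Node n) :
    0 ≤ parentProb q c d := by
  unfold parentProb
  have : 0 ≤ 1 - q := by linarith
  split_ifs <;> positivity

lemma weight_nonneg {n : ℕ} (q : ℝ) (h0 : 0 ≤ q) (h1 : q ≤ 1) (p : Node n → Node n) :
    0 ≤ weight q p := Finset.prod_nonneg fun c _ => parentProb_nonneg q h0 h1 c (p c)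

lemma sum_parentProb_ind {n : ℕ} (q : ℝ) (c : Node n) (hc : c.1.val ≠ 0) (g : ℕ)
    (hg : g ≤ c.1.val) :
    ∑ d, parentProb q c d * (if g ≤ d.1.val then 1 else 0) = ((c.1.val : ℝ) - g) / c.1.val := by
  have h1 : ∀ d : Node n, parentProb q c d * (if g ≤ d.1.val then 1 else 0) =
      if g ≤ d.1.val ∧ d.1.val < c.1.val then
        (if d.2 = c.2 then (1 - q) * (1 / (c.1.val : ℝ)) else q * (1 / (c.1.val : ℝ))) else 0 := by
    intro d
    unfold parentProb
    rw [if_neg hc]
    by_cases h2 : g ≤ d.1.val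
    · by_cases h3 : d.1 < c.1
      · have h4 : g ≤ d.1.val ∧ d.1.val < c.1.val := ⟨h2, Fin.lt_def.1 h3⟩
        rw [if_pos h2, if_pos h3, if_pos h4, mul_one]
      · have h4 : ¬ (g ≤ d.1.val ∧ d.1.val < c.1.val) := fun h => h3 (Fin.lt_def.2 h.2)
        rw [if_neg h3, if_neg h4, zero_mul]
    · have h4 : ¬ (g ≤ d.1.val ∧ d.1.val < c.1.val) := fun h => h2 h.1
      rw [if_neg h2, if_neg h4, mul_zero]
  rw [Finset.sum_congr rfl (fun d _ => h1 d), ← Finset.sum_filter,
    sum_filter_fst (fun i : Fin n => g ≤ i.val ∧ i.val < c.1.val)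
      (fun d => if d.2 = c.2 then (1 - q) * (1 / (c.1.val : ℝ)) else q * (1 / (c.1.val : ℝ)))]
  have h2 : ∀ i ∈ univ.filter (fun i : Fin n => g ≤ i.val ∧ i.val < c.1.val),
      ((if true = c.2 then (1 - q) * (1 / (c.1.val : ℝ)) else q * (1 / (c.1.val : ℝ))) +
      (if false = c.2 then (1 - q) * (1 / (c.1.val : ℝ)) else q * (1 / (c.1.val : ℝ)))) =
      1 / (c.1.val : ℝ) := by
    intro i _
    cases c.2
    · simp; ring
    · simp; ring
  rw [Finset.sum_congr rfl h2, Finset.sum_const, nsmul_eq_mul]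
  have h3 : #{i : Fin n | g ≤ i.val ∧ i.val < c.1.val} = c.1.val - g := by
    have e1 : #{i : Fin n | g ≤ i.val ∧ i.val < c.1.val} + #{i : Fin n | i.val < g} =
        #{i : Fin n | i.val < c.1.val} := by
      rw [← Finset.card_union_of_disjoint]
      · congr 1
        ext i
        simp only [Finset.mem_union, Finset.mem_filter, Finset.mem_univ, true_and]
        omega
      · rw [Finset.disjoint_filter]
        intro i _ h1 h2
        omega
    rw [Fin.card_filter_val_lt, Fin.card_filter_val_lt] at e1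
    have := c.1.2
    omega
  rw [h3, Nat.cast_sub hg]
  ring

lemma sum_parentProb {n : ℕ} (q : ℝ) (c : Node n) : ∑ d, parentProb q c d = 1 := by
  by_cases hc : c.1.val = 0
  · unfold parentProb
    simp [hc]
  · have h := sum_parentProb_ind q c hc 0 (Nat.zero_le _)
    simp only [Nat.zero_le, if_true, mul_one, Nat.cast_zero, sub_zero] at h
    rw [h]
    have : (c.1.val : ℝ) ≠ 0 := by exact_mod_cast hc
    field_simp

lemma expect_prod {n : ℕ} (q : ℝ) (C : Finset (Node n)) (ind : Node n → ℝ) :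
    ∑ p : Node n → Node n, weight q p * ∏ c ∈ C, ind (p c) =
      ∏ c ∈ C, ∑ d, parentProb q c d * ind d := by
  classical
  have h1 : ∀ p : Node n → Node n, weight q p * ∏ c ∈ C, ind (p c) =
      ∏ c, (parentProb q c (p c) * if c ∈ C then ind (p c) else 1) := by
    intro p
    rw [Finset.prod_mul_distrib]
    congr 1
    rw [Finset.prod_ite_mem]
    simp
  rw [Finset.sum_congr rfl (fun p _ => h1 p)]
  have h2 := Finset.prod_univ_sum (fun _ : Node n => (univ : Finset (Node n)))
    (fun c d => parentProb q c d * if c ∈ C then ind d else 1)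
  rw [Fintype.piFinset_univ] at h2
  rw [← h2]
  have h3 : ∀ c : Node n, ∑ d, (parentProb q c d * if c ∈ C then ind d else 1) =
      if c ∈ C then ∑ d, parentProb q c d * ind d else 1 := by
    intro c
    split_ifs
    · rfl
    · simp [sum_parentProb]
  rw [Finset.prod_congr rfl (fun c _ => h3 c), Finset.prod_ite_mem]
  simp

lemma sum_weight {n : ℕ} (q : ℝ) : ∑ p : Node n → Node n, weight q p = 1 := by
  have := expect_prod (n := n) q ∅ (fun _ => 1)
  simpa using this

/-- indicator that the parent of `(i, t)` lies in the deterministic block of `i`. -/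
noncomputable def jd {n : ℕ} (p : Node n → Node n) (i : ℕ) (t : Bool) : ℝ :=
  if h : i < n then (if i - i % 2 ^ ep i ≤ (p (⟨i, h⟩, t)).1.val then 1 else 0) else 0

lemma jd_nonneg {n : ℕ} (p : Node n → Node n) (i : ℕ) (t : Bool) : 0 ≤ jd p i t := by
  unfold jd; split_ifs <;> norm_num

lemma zc_kk_le {n : ℕ} (p : Node n → Node n) (i : ℕ) (hi : 1 ≤ i) (hin : i < n) :
    zc (kk p) i ≤ (3 / 8) ^ ep i * (jd p i true + jd p i false) + jd p i true * jd p i false := by
  have hg := (gam_close (kk p) i hi).2.2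
  have hkk : kk p i = #{t : Bool | gam (kk p) i ≤ (p (⟨i, hin⟩, t)).1.val} := by
    conv_lhs => rw [kk, cnt, dif_pos hin]
    rw [gamP_eq]
  have h38 : (0 : ℝ) < (3 / 8) ^ ep i := by positivity
  have hj : ∀ t, gam (kk p) i ≤ (p (⟨i, hin⟩, t)).1.val → jd p i t = 1 := by
    intro t ht
    unfold jd
    rw [dif_pos hin, if_pos (hg.trans ht)]
  have hT := jd_nonneg p i true
  have hF := jd_nonneg p i false
  have hu : (univ : Finset Bool) = {true, false} := by decide
  rw [hu, Finset.filter_insert, Finset.filter_singleton] at hkk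
  by_cases h1 : gam (kk p) i ≤ (p (⟨i, hin⟩, true)).1.val
  · have e1 := hj true h1
    by_cases h2 : gam (kk p) i ≤ (p (⟨i, hin⟩, false)).1.val
    · have e2 := hj false h2
      have hk2 : kk p i = 2 := by
        rw [hkk, if_pos h1, if_pos h2]; rfl
      unfold zc kc
      rw [e1, e2, hk2]
      norm_num
    · have hk1 : kk p i = 1 := by
        rw [hkk, if_pos h1, if_neg h2]; rfl
      unfold zc kc
      rw [e1, hk1]
      norm_num
      nlinarith
  · by_cases h2 : gam (kk p) i ≤ (p (⟨i, hin⟩, false)).1.val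
    · have e2 := hj false h2
      have hk1 : kk p i = 1 := by
        rw [hkk, if_neg h1, if_pos h2]; rfl
      unfold zc kc
      rw [e2, hk1]
      norm_num
      nlinarith
    · have hk0 : kk p i = 0 := by
        rw [hkk, if_neg h1, if_neg h2]; rfl
      unfold zc
      rw [hk0]
      simp only [ne_eq, not_true_eq_false, if_false]
      positivity

lemma expect_jd {n : ℕ} (q : ℝ) (i : ℕ) (hi : 1 ≤ i) (hin : i < n) (t : Bool) :
    ∑ p : Node n → Node n, weight q p * jd p i t ≤ 2 ^ ep i / (i : ℝ) := by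
  have h1 := expect_prod (n := n) q {(⟨i, hin⟩, t)}
    (fun d => if i - i % 2 ^ ep i ≤ d.1.val then 1 else 0)
  simp only [Finset.prod_singleton] at h1
  have h2 : ∀ p : Node n → Node n, jd p i t =
      if i - i % 2 ^ ep i ≤ (p (⟨i, hin⟩, t)).1.val then 1 else 0 := by
    intro p; unfold jd; rw [dif_pos hin]
  simp_rw [h2]
  rw [h1, sum_parentProb_ind q (⟨i, hin⟩, t) (by simp; omega) _ (Nat.sub_le _ _)]
  have hlt : i % 2 ^ ep i < 2 ^ ep i := Nat.mod_lt _ (by positivity)
  have hle : i % 2 ^ ep i ≤ i := Nat.mod_le _ _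
  apply div_le_div_of_nonneg_right _ (by positivity)
  rw [Nat.cast_sub hle]
  have : ((i % 2 ^ ep i : ℕ) : ℝ) ≤ 2 ^ ep i := by exact_mod_cast hlt.le
  simp only
  linarith

lemma expect_jd2 {n : ℕ} (q : ℝ) (i : ℕ) (hi : 1 ≤ i) (hin : i < n) :
    ∑ p : Node n → Node n, weight q p * (jd p i true * jd p i false) ≤
      (2 ^ ep i / (i : ℝ)) ^ 2 := by
  have hne : ((⟨i, hin⟩, true) : Node n) ≠ (⟨i, hin⟩, false) := by
    intro h; simp at h
  have h1 := expect_prod (n := n) q {(⟨i, hin⟩, true), (⟨i, hin⟩, false)}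
    (fun d => if i - i % 2 ^ ep i ≤ d.1.val then 1 else 0)
  simp only [Finset.prod_pair hne] at h1
  have h2 : ∀ (t : Bool) (p : Node n → Node n), jd p i t =
      if i - i % 2 ^ ep i ≤ (p (⟨i, hin⟩, t)).1.val then 1 else 0 := by
    intro t p; unfold jd; rw [dif_pos hin]
  simp_rw [h2]
  rw [h1]
  have h3 : ∀ t, ∑ d, parentProb q (⟨i, hin⟩, t) d * (if i - i % 2 ^ ep i ≤ d.1.val then 1 else 0) =
      ((i : ℝ) - ((i - i % 2 ^ ep i : ℕ) : ℝ)) / i := fun t =>
    sum_parentProb_ind q (⟨i, hin⟩, t) (by simp; omega) _ (Nat.sub_le _ _)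
  rw [h3, h3, ← sq]
  have hlt : i % 2 ^ ep i < 2 ^ ep i := Nat.mod_lt _ (by positivity)
  have hle : i % 2 ^ ep i ≤ i := Nat.mod_le _ _
  have h4 : ((i % 2 ^ ep i : ℕ) : ℝ) ≤ 2 ^ ep i := by exact_mod_cast hlt.le
  have h5 : (i : ℝ) - ((i - i % 2 ^ ep i : ℕ) : ℝ) = ((i % 2 ^ ep i : ℕ) : ℝ) := by
    rw [Nat.cast_sub hle]; ring
  rw [h5]
  apply pow_le_pow_left₀ (by positivity)
  exact div_le_div_of_nonneg_right h4 (by positivity)

lemma expect_ZZ {n : ℕ} (q : ℝ) (h0 : 0 ≤ q) (h1 : q ≤ 1) :
    ∑ p : Node n → Node n, weight q p * ZZ (kk p) n ≤ 140 := by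
  have e1 : ∀ p : Node n → Node n, weight q p * ZZ (kk p) n ≤
      ∑ i ∈ Ico 1 n, ((3 / 8) ^ ep i * (weight q p * jd p i true + weight q p * jd p i false) +
        weight q p * (jd p i true * jd p i false)) := by
    intro p
    unfold ZZ
    rw [Finset.mul_sum]
    refine Finset.sum_le_sum fun i hi => ?_
    rw [Finset.mem_Ico] at hi
    have := mul_le_mul_of_nonneg_left (zc_kk_le p i hi.1 hi.2) (weight_nonneg q h0 h1 p)
    refine this.trans (le_of_eq ?_)
    ring
  refine (Finset.sum_le_sum fun p _ => e1 p).trans ?_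
  rw [Finset.sum_comm]
  have e2 : ∀ i ∈ Ico 1 n, ∑ p : Node n → Node n,
      ((3 / 8) ^ ep i * (weight q p * jd p i true + weight q p * jd p i false) +
        weight q p * (jd p i true * jd p i false)) ≤
      2 * ((3 / 4) ^ ep i / (i : ℝ)) + (1 / 4) ^ ep i / (i : ℝ) := by
    intro i hi
    rw [Finset.mem_Ico] at hi
    rw [Finset.sum_add_distrib, ← Finset.mul_sum, Finset.sum_add_distrib]
    have a1 := expect_jd (n := n) q i hi.1 hi.2 true
    have a2 := expect_jd (n := n) q i hi.1 hi.2 false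
    have a3 := expect_jd2 (n := n) q i hi.1 hi.2
    have hir : (0 : ℝ) < i := by exact_mod_cast hi.1
    have h16 := pow16_ep_le i hi.1
    have a4 : (3 / 8 : ℝ) ^ ep i * (2 ^ ep i / (i : ℝ) + 2 ^ ep i / (i : ℝ)) =
        2 * ((3 / 4) ^ ep i / (i : ℝ)) := by
      have : (3 / 4 : ℝ) ^ ep i = (3 / 8) ^ ep i * 2 ^ ep i := by
        rw [← mul_pow]; norm_num
      rw [this]; ring
    have a5 : ((2 : ℝ) ^ ep i / (i : ℝ)) ^ 2 ≤ (1 / 4) ^ ep i / (i : ℝ) := by
      have b1 : ((2 : ℝ) ^ ep i / (i : ℝ)) ^ 2 = (4 ^ ep i / (i : ℝ)) / (i : ℝ) := by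
        rw [div_pow, ← pow_mul, mul_comm (ep i) 2, pow_mul, div_div, sq (i : ℝ)]
        norm_num
      rw [b1]
      apply div_le_div_of_nonneg_right _ hir.le
      calc (4 : ℝ) ^ ep i / (i : ℝ) ≤ 4 ^ ep i / 16 ^ ep i :=
            div_le_div_of_nonneg_left (by positivity) (by positivity) h16
        _ = (1 / 4) ^ ep i := by rw [← div_pow]; norm_num
    have a6 := mul_le_mul_of_nonneg_left (add_le_add a1 a2)
      (show (0 : ℝ) ≤ (3 / 8) ^ ep i by positivity)
    linarith
  refine (Finset.sum_le_sum e2).trans ?_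
  rw [Finset.sum_add_distrib, ← Finset.mul_sum]
  have b1 := sum_rho (3 / 4) (by norm_num) (by norm_num) n
  have b2 := sum_rho (1 / 4) (by norm_num) (by norm_num) n
  norm_num at b1 b2
  linarith

/-- Markov: the costs are typically small. -/
lemma markov_ZZ {n : ℕ} (q : ℝ) (h0 : 0 ≤ q) (h1 : q ≤ 1) :
    ∑ p : Node n → Node n, (if ZZ (kk p) n ≤ 280 then 0 else weight q p) ≤ 1 / 2 := by
  have h2 := expect_ZZ (n := n) q h0 h1
  have h3 : ∀ p : Node n → Node n, 280 * (if ZZ (kk p) n ≤ 280 then 0 else weight q p) ≤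
      weight q p * ZZ (kk p) n := by
    intro p
    have hw := weight_nonneg q h0 h1 p
    have hz := ZZ_nonneg (kk p) n
    split_ifs with h
    · rw [mul_zero]; exact mul_nonneg hw hz
    · push Not at h
      rw [mul_comm]
      exact mul_le_mul_of_nonneg_left h.le hw
  have h4 := Finset.sum_le_sum (s := univ) fun p _ => h3 p
  rw [← Finset.mul_sum] at h4
  linarith

/-! ### comparison on one class -/

open Classical in
lemma class_ineq {n : ℕ} (hn : 1 ≤ n) (k : ℕ → ℕ) (hZ : ZZ k n ≤ 280)
    (A : Set (Node n → Node n)) (hA : Inv A) :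
    ∑ p ∈ Par n k, (if p ∈ A then W (1 / 10) (fun c => c.2) p else 0) ≤
      ∑ p ∈ Par n k, ((if p ∈ A then CC else 0) + 1 / 4) := by
  rcases (Par n k).eq_empty_or_nonempty with hemp | hne
  · rw [hemp]; simp
  set N : ℝ := (#(TT n k) : ℝ) with hN
  have hNpos : 0 < N := by
    rw [hN]
    exact_mod_cast Finset.card_pos.2 ⟨_, snd_mem_TT n k⟩
  have hC := CC_pos
  let X : (Node n → Node n) → ℝ := fun p => ∑ τ ∈ TT n k, W (1 / 10) τ p
  have h1 : N * ∑ p ∈ Par n k, (if p ∈ A then W (1 / 10) (fun c => c.2) p else 0) =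
      ∑ p ∈ Par n k, (if p ∈ A then X p else 0) := by
    have e1 : ∀ τ ∈ TT n k, ∑ p ∈ Par n k, (if p ∈ A then W (1 / 10) (fun c => c.2) p else 0) =
        ∑ p ∈ Par n k, (if p ∈ A then W (1 / 10) τ p else 0) := fun τ hτ =>
      (sum_Par_W k (1 / 10) A hA τ hτ).symm
    have e2 := Finset.sum_congr rfl e1
    rw [Finset.sum_const, nsmul_eq_mul, Finset.sum_comm] at e2
    rw [hN, e2]
    refine Finset.sum_congr rfl fun p _ => ?_
    split_ifs
    · rfl
    · simp
  have h2 : ∑ p ∈ Par n k, X p ^ 2 ≤ (#(Par n k) : ℝ) * (N ^ 2 * CC) := by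
    have e1 : ∀ p, X p ^ 2 = ∑ τ ∈ TT n k, ∑ τ' ∈ TT n k, W (1 / 10) τ p * W (1 / 10) τ' p := by
      intro p
      rw [sq]
      exact Finset.sum_mul_sum _ _ _ _
    rw [Finset.sum_congr rfl (fun p _ => e1 p), Finset.sum_comm]
    have e2 : ∀ τ ∈ TT n k, ∑ p ∈ Par n k, ∑ τ' ∈ TT n k, W (1 / 10) τ p * W (1 / 10) τ' p =
        (#(Par n k) : ℝ) * ∑ τ' ∈ TT n k, ∏ i, FF ((1 / 10 : ℝ) ^ 2) k τ τ' i := by
      intro τ hτ
      rw [Finset.sum_comm, Finset.mul_sum]
      exact Finset.sum_congr rfl fun τ' hτ' => sum_Par_WW (1 / 10) k hne τ τ' hτ hτ'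
    rw [Finset.sum_congr rfl e2, ← Finset.mul_sum]
    exact mul_le_mul_of_nonneg_left (second_moment_bound k n hn hZ) (by positivity)
  have h3 : ∀ p, (if p ∈ A then X p else 0) ≤
      N * (if p ∈ A then CC else 0) + X p ^ 2 / (4 * CC * N) := by
    intro p
    split_ifs
    · have e1 : N * CC + X p ^ 2 / (4 * CC * N) - X p =
          (2 * CC * N - X p) ^ 2 / (4 * CC * N) := by
        field_simp
        ring
      have e2 : 0 ≤ (2 * CC * N - X p) ^ 2 / (4 * CC * N) := by positivity
      linarith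
    · have : 0 ≤ X p ^ 2 / (4 * CC * N) := by positivity
      linarith
  refine le_of_mul_le_mul_left ?_ hNpos
  rw [h1]
  refine (Finset.sum_le_sum fun p _ => h3 p).trans ?_
  rw [Finset.sum_add_distrib, ← Finset.mul_sum, ← Finset.sum_div, Finset.sum_add_distrib,
    mul_add]
  apply add_le_add le_rfl
  rw [Finset.sum_const, nsmul_eq_mul, div_le_iff₀ (by positivity)]
  refine h2.trans (le_of_eq ?_)
  ring

open Classical in
/-- **main comparison**: for relabelling invariant events, the probability under `q = 9/20` is at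
most `3/4 + C` times the probability under `q = 1/2`. -/
theorem main_comparison {n : ℕ} (hn : 1 ≤ n) (A : Set (Node n → Node n)) (hA : Inv A) :
    prob (9 / 20) n A ≤ 3 / 4 + CC * prob (1 / 2) n A := by
  have hw920 : ∀ p : Node n → Node n, Valid p →
      weight (9 / 20) p = w0 n * W (1 / 10) (fun c => c.2) p := by
    intro p hp
    have := weight_eq (1 / 10) p hp
    norm_num at this ⊢
    exact this
  have hw12 : ∀ p : Node n → Node n, Valid p → weight (1 / 2) p = w0 n := by
    intro p hp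
    have h1 := weight_eq 0 p hp
    have h2 : W 0 (fun c : Node n => c.2) p = 1 := by
      unfold W
      refine Finset.prod_eq_one fun c _ => ?_
      split_ifs <;> simp
    rw [h2, mul_one] at h1
    norm_num at h1 ⊢
    exact h1
  have hw0 := w0_pos n
  -- split according to the cost
  have h1 : prob (9 / 20) n A ≤
      ∑ p : Node n → Node n, (if ZZ (kk p) n ≤ 280 then 0 else weight (9 / 20) p) +
      ∑ p : Node n → Node n with Valid p,
        (if ZZ (kk p) n ≤ 280 then (if p ∈ A then weight (9 / 20) p else 0) else 0) := by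
    unfold prob
    have e1 : ∑ p : Node n → Node n with Valid p,
        (if ZZ (kk p) n ≤ 280 then (if p ∈ A then weight (9 / 20) p else 0) else 0) =
        ∑ p : Node n → Node n,
        (if ZZ (kk p) n ≤ 280 then (if p ∈ A then weight (9 / 20) p else 0) else 0) := by
      refine Finset.sum_filter_of_ne fun p _ hne => ?_
      by_contra hv
      rw [weight_zero _ p hv] at hne
      simp at hne
    rw [e1, ← Finset.sum_add_distrib]
    refine Finset.sum_le_sum fun p _ => ?_
    have hw := weight_nonneg (9 / 20 : ℝ) (by norm_num) (by norm_num) p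
    split_ifs <;> simp [hw]
  have h2 := markov_ZZ (n := n) (9 / 20) (by norm_num) (by norm_num)
  -- the sum over classes
  let K : Finset (ℕ → ℕ) := (univ.filter fun p : Node n → Node n => Valid p).image kk
  have hfib : ∀ f : (Node n → Node n) → ℝ,
      ∑ p : Node n → Node n with Valid p, f p = ∑ k ∈ K, ∑ p ∈ Par n k, f p := by
    intro f
    rw [← Finset.sum_fiberwise_of_maps_to (s := univ.filter fun p : Node n → Node n => Valid p)
      (t := K) (g := kk) (fun p hp => Finset.mem_image_of_mem _ hp)]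
    refine Finset.sum_congr rfl fun k _ => ?_
    unfold Par
    rw [Finset.filter_filter]
  have h3 : ∑ p : Node n → Node n with Valid p,
        (if ZZ (kk p) n ≤ 280 then (if p ∈ A then weight (9 / 20) p else 0) else 0) ≤
      w0 n * ∑ p : Node n → Node n with Valid p, ((if p ∈ A then CC else 0) + 1 / 4) := by
    rw [hfib, hfib, Finset.mul_sum]
    refine Finset.sum_le_sum fun k _ => ?_
    have hmem : ∀ p ∈ Par n k, Valid p ∧ kk p = k := by
      intro p hp
      simpa [Par] using hp
    by_cases hZ : ZZ k n ≤ 280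
    · have e1 : ∑ p ∈ Par n k,
          (if ZZ (kk p) n ≤ 280 then (if p ∈ A then weight (9 / 20) p else 0) else 0) =
          w0 n * ∑ p ∈ Par n k, (if p ∈ A then W (1 / 10) (fun c => c.2) p else 0) := by
        rw [Finset.mul_sum]
        refine Finset.sum_congr rfl fun p hp => ?_
        obtain ⟨hv, hk⟩ := hmem p hp
        rw [hk, if_pos hZ]
        split_ifs
        · exact hw920 p hv
        · simp
      rw [e1]
      exact mul_le_mul_of_nonneg_left (class_ineq hn k hZ A hA) hw0.le
    · have e1 : ∑ p ∈ Par n k,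
          (if ZZ (kk p) n ≤ 280 then (if p ∈ A then weight (9 / 20) p else 0) else 0) = 0 := by
        refine Finset.sum_eq_zero fun p hp => ?_
        obtain ⟨_, hk⟩ := hmem p hp
        rw [hk, if_neg hZ]
      rw [e1]
      have hC := CC_pos
      apply mul_nonneg hw0.le
      refine Finset.sum_nonneg fun p _ => ?_
      split_ifs <;> positivity
  have h4 : w0 n * ∑ p : Node n → Node n with Valid p, ((if p ∈ A then CC else 0) + 1 / 4) =
      CC * prob (1 / 2) n A + 1 / 4 := by
    rw [Finset.sum_add_distrib, mul_add]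
    have e1 : w0 n * ∑ p : Node n → Node n with Valid p, (if p ∈ A then CC else 0) =
        CC * prob (1 / 2) n A := by
      unfold prob
      have e2 : ∑ p : Node n → Node n, (if p ∈ A then weight (1 / 2) p else 0) =
          ∑ p : Node n → Node n with Valid p, (if p ∈ A then weight (1 / 2) p else 0) := by
        symm
        refine Finset.sum_filter_of_ne fun p _ hne => ?_
        by_contra hv
        rw [weight_zero _ p hv] at hne
        simp at hne
      rw [e2, Finset.mul_sum, Finset.mul_sum]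
      refine Finset.sum_congr rfl fun p hp => ?_
      have hv := (Finset.mem_filter.1 hp).2
      rw [hw12 p hv]
      split_ifs
      · ring
      · simp
    have e3 : w0 n * ∑ p : Node n → Node n with Valid p, (1 / 4 : ℝ) = 1 / 4 := by
      have e4 : ∑ p : Node n → Node n with Valid p, w0 n = 1 := by
        have e5 := sum_weight (n := n) (1 / 2)
        have e6 : ∑ p : Node n → Node n with Valid p, weight (1 / 2) p =
            ∑ p : Node n → Node n, weight (1 / 2) p := by
          refine Finset.sum_filter_of_ne fun p _ hne => ?_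
          by_contra hv
          exact hne (weight_zero _ p hv)
        rw [← e6] at e5
        rw [← e5]
        exact Finset.sum_congr rfl fun p hp => (hw12 p (Finset.mem_filter.1 hp).2).symm
      rw [Finset.sum_const, nsmul_eq_mul] at e4 ⊢
      linarith
    rw [e1, e3]
  rw [h4] at h3
  linarith

/-! ### consequences for estimators -/

lemma prob_mono {n : ℕ} (q : ℝ) (h0 : 0 ≤ q) (h1 : q ≤ 1) (A B : Set (Node n → Node n))
    (h : A ⊆ B) : prob q n A ≤ prob q n B := by
  unfold prob
  refine Finset.sum_le_sum fun p _ => ?_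
  have hw := weight_nonneg q h0 h1 p
  by_cases hp : p ∈ A
  · rw [if_pos hp, if_pos (h hp)]
  · rw [if_neg hp]
    split_ifs
    · exact hw
    · exact le_rfl

lemma prob_compl {n : ℕ} (q : ℝ) (A : Set (Node n → Node n)) :
    prob q n A + prob q n Aᶜ = 1 := by
  unfold prob
  rw [← Finset.sum_add_distrib, ← sum_weight (n := n) q]
  refine Finset.sum_congr rfl fun p _ => ?_
  by_cases hp : p ∈ A
  · have h2 : p ∉ Aᶜ := fun h => h hp
    rw [if_pos hp, if_neg h2, add_zero]
  · have h2 : p ∈ Aᶜ := hp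
    rw [if_neg hp, if_pos h2, zero_add]

open Filter Topology in
/-- No sequence of statistics which is invariant under relabellings can be consistent both at
`q = 9/20` and at `q = 1/2`. -/
theorem not_consistent (X : (n : ℕ) → (Node (n + 1) → Node (n + 1)) → ℝ)
    (hX : ∀ (n : ℕ) (π : Equiv.Perm (Node (n + 1))), (∀ c, (π c).1.val = 0 ↔ c.1.val = 0) →
      ∀ p, X n (conj π p) = X n p)
    (h1 : ∀ ε > 0, Tendsto (fun n => prob (9 / 20) (n + 1) {p | ε ≤ |X n p - 9 / 20|}) atTop (𝓝 0))
    (h2 : ∀ ε > 0, Tendsto (fun n => prob (1 / 2) (n + 1) {p | ε ≤ |X n p - 1 / 2|}) atTop (𝓝 0)) :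
    False := by
  let A : (n : ℕ) → Set (Node (n + 1) → Node (n + 1)) := fun n => {p | |X n p - 9 / 20| < 1 / 40}
  have hInv : ∀ n, Inv (A n) := by
    intro n π hπ p
    simp only [A, Set.mem_ofPred_eq]
    rw [hX n π hπ p]
  have hcomp : ∀ n, (A n)ᶜ = {p | 1 / 40 ≤ |X n p - 9 / 20|} := by
    intro n
    ext p
    simp [A]
  have e1 := h1 (1 / 40) (by norm_num)
  have e2 := h2 (1 / 40) (by norm_num)
  have l1 : Tendsto (fun n => prob (9 / 20) (n + 1) (A n)) atTop (𝓝 1) := by
    have : ∀ n, prob (9 / 20) (n + 1) (A n) =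
        1 - prob (9 / 20) (n + 1) {p | 1 / 40 ≤ |X n p - 9 / 20|} := by
      intro n
      have := prob_compl (9 / 20) (A n)
      rw [hcomp n] at this
      linarith
    simp_rw [this]
    simpa using (tendsto_const_nhds (x := (1 : ℝ))).sub e1
  have l2 : Tendsto (fun n => prob (1 / 2) (n + 1) (A n)) atTop (𝓝 0) := by
    refine squeeze_zero (fun n => ?_) (fun n => ?_) e2
    · unfold prob
      refine Finset.sum_nonneg fun p _ => ?_
      have hw := weight_nonneg (1 / 2 : ℝ) (by norm_num) (by norm_num) p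
      split_ifs
      · exact hw
      · exact le_rfl
    · refine prob_mono _ (by norm_num) (by norm_num) _ _ ?_
      intro p hp
      simp only [A, Set.mem_ofPred_eq] at hp ⊢
      rw [abs_lt] at hp
      rw [le_abs]
      right
      linarith
  have l3 : Tendsto (fun n => 3 / 4 + CC * prob (1 / 2) (n + 1) (A n)) atTop
      (𝓝 (3 / 4 + CC * 0)) := tendsto_const_nhds.add (l2.const_mul CC)
  have h3 : (1 : ℝ) ≤ 3 / 4 + CC * 0 :=
    le_of_tendsto_of_tendsto' l1 l3 (fun n => main_comparison (by omega) (A n) (hInv n))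
  norm_num at h3

end Pool.Agent.BCMRT
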